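import Pool.Agent.Lib.H18G.T2

/-!
# H18G, AllT: ordinarity does not depend on the place if `a²` is a rational multiple of `c`
-/

namespace H18G

open NumberField

private theorem AT_slopes (p : ℕ) [Fact p.Prime] (α q : PadicAlgCl p) (hα : ‖α‖ = 1) (hq1 : ‖q‖ < 1) :
    ∃ x y : PadicAlgCl p, x + y = α ∧ x * y = q ∧ ‖x‖ = 1 ∧ ‖y‖ = ‖q‖ := by
  obtain ⟨x, hx⟩ : ∃ x : PadicAlgCl p, x * x - α * x + q = 0 := by
    have hdeg : (Polynomial.X ^ 2 + Polynomial.C (-α) * Polynomial.X +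
        Polynomial.C q).degree ≠ 0 := by
      have : (Polynomial.C (1 : PadicAlgCl p) * Polynomial.X ^ 2 + Polynomial.C (-α) * Polynomial.X +
        Polynomial.C q).degree = 2 :=
        Polynomial.degree_quadratic one_ne_zero
      rw [Polynomial.C_1, one_mul] at this
      rw [this]
      decide
    obtain ⟨x, hx⟩ := IsAlgClosed.exists_root _ hdeg
    refine ⟨x, ?_⟩
    rw [Polynomial.IsRoot.def] at hx
    simp only [Polynomial.eval_add, Polynomial.eval_pow, Polynomial.eval_X, Polynomial.eval_mul,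
      Polynomial.eval_C] at hx
    linear_combination hx
  have key : ∀ z : PadicAlgCl p, z * z - α * z + q = 0 → ‖z‖ ≤ 1 := by
    intro z hz
    by_contra hc
    rw [not_le] at hc
    have h1 : z * z = α * z + -q := by linear_combination hz
    have h2 : ‖z * z‖ ≤ max ‖α * z‖ ‖-q‖ := by
      rw [h1]
      exact IsUltrametricDist.norm_add_le_max _ _
    rw [norm_mul, norm_mul, hα, one_mul, norm_neg] at h2
    have h3 : max ‖z‖ ‖q‖ = ‖z‖ := max_eq_left (hq1.le.trans hc.le)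
    rw [h3] at h2
    nlinarith
  have hy : (α - x) * (α - x) - α * (α - x) + q = 0 := by
    linear_combination hx
  have hxy : x * (α - x) = q := by linear_combination -hx
  have hnx := key x hx
  have hny := key (α - x) hy
  have hsum : x + (α - x) = α := by ring
  have hmax : (1 : ℝ) ≤ max ‖x‖ ‖α - x‖ := by
    have h1 : ‖x + (α - x)‖ ≤ max ‖x‖ ‖α - x‖ := IsUltrametricDist.norm_add_le_max _ _
    rw [hsum, hα] at h1
    exact h1
  have hprod : ‖x‖ * ‖α - x‖ = ‖q‖ := by rw [← norm_mul, hxy]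
  rcases le_max_iff.1 hmax with h | h
  · have h1 : ‖x‖ = 1 := le_antisymm hnx h
    rw [h1, one_mul] at hprod
    exact ⟨x, α - x, hsum, hxy, h1, hprod⟩
  · have h1 : ‖α - x‖ = 1 := le_antisymm hny h
    rw [h1, mul_one] at hprod
    refine ⟨α - x, x, by ring, by rw [mul_comm]; exact hxy, h1, hprod⟩

/-- Ordinarity at one place implies ordinarity at every place. -/
theorem all_places {E : Type*} [Field E] [NumberField E] (k p : ℕ) (hk : 2 ≤ k) [Fact p.Prime]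
    (a c : 𝓞 E) (hc : IsUnit c) (hr : ∃ r : ℚ, (a : E) ^ 2 = (r : E) * (c : E))
    (τ' : E →+* PadicAlgCl p) (x y : PadicAlgCl p) (h1 : x + y = τ' (a : E))
    (h3 : ‖x‖ = 1) (h4 : ‖y‖ = (p : ℝ) ^ (-((k : ℤ) - 1))) (τ : E →+* PadicAlgCl p) :
    ∃ x y : PadicAlgCl p, x + y = τ (a : E) ∧
      x * y = τ (c : E) * (p : PadicAlgCl p) ^ (k - 1) ∧ ‖x‖ = 1 ∧
        ‖y‖ = (p : ℝ) ^ (-((k : ℤ) - 1)) := by
  have hp : p.Prime := Fact.out
  have hp1 : (1 : ℝ) < p := by exact_mod_cast hp.one_lt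
  have hunit : ∀ σ : E →+* PadicAlgCl p, ‖σ (c : E)‖ = 1 := by
    intro σ
    obtain ⟨u, rfl⟩ := hc
    have e1 := t2_norm_le_one σ (u : 𝓞 E)
    have e2 := t2_norm_le_one σ ((u⁻¹ : (𝓞 E)ˣ) : 𝓞 E)
    have e3 : ((u : 𝓞 E) : E) * (((u⁻¹ : (𝓞 E)ˣ) : 𝓞 E) : E) = 1 := by
      rw [← map_mul, Units.mul_inv, map_one]
    have e4 : ‖σ ((u : 𝓞 E) : E)‖ * ‖σ (((u⁻¹ : (𝓞 E)ˣ) : 𝓞 E) : E)‖ = 1 := by
      rw [← norm_mul, ← map_mul, e3, map_one, norm_one]
    have e5 := norm_nonneg (σ ((u : 𝓞 E) : E))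
    have e6 := norm_nonneg (σ (((u⁻¹ : (𝓞 E)ˣ) : 𝓞 E) : E))
    nlinarith
  have hy1 : (p : ℝ) ^ (-((k : ℤ) - 1)) < 1 := by
    rw [zpow_neg]
    exact inv_lt_one_of_one_lt₀ (one_lt_zpow₀ hp1 (by omega))
  -- `τ' a` is a unit
  have ha' : ‖τ' (a : E)‖ = 1 := by
    refine le_antisymm (t2_norm_le_one τ' a) ?_
    have h5 : x = τ' (a : E) + (-y) := by
      rw [← h1]
      ring
    have h6 : ‖x‖ ≤ max ‖τ' (a : E)‖ ‖-y‖ := by
      conv_lhs => rw [h5]
      exact IsUltrametricDist.norm_add_le_max _ _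
    rw [h3, norm_neg, h4] at h6
    rcases le_max_iff.1 h6 with h | h
    · exact h
    · exact absurd hy1 (not_lt.2 h)
  obtain ⟨r, hr⟩ := hr
  have key : ∀ σ : E →+* PadicAlgCl p, ‖σ (a : E)‖ ^ 2 = ‖(r : PadicAlgCl p)‖ := by
    intro σ
    rw [← norm_pow, ← map_pow, hr, map_mul, norm_mul, hunit σ, mul_one, map_ratCast]
  have ha : ‖τ (a : E)‖ = 1 := by
    have h5 := key τ
    rw [← key τ', ha', one_pow] at h5
    exact (pow_eq_one_iff_of_nonneg (norm_nonneg _) two_ne_zero).1 h5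
  have hnp : ‖(p : PadicAlgCl p)‖ = (p : ℝ)⁻¹ := by
    have e1 : ((p : ℚ_[p]) : PadicAlgCl p) = (p : PadicAlgCl p) := by
      exact map_natCast (algebraMap ℚ_[p] (PadicAlgCl p)) p
    rw [← e1, PadicAlgCl.norm_extends, Padic.norm_p]
  have hq : ‖τ (c : E) * (p : PadicAlgCl p) ^ (k - 1)‖ = (p : ℝ) ^ (-((k : ℤ) - 1)) := by
    rw [norm_mul, hunit τ, one_mul, norm_pow, hnp, zpow_neg, inv_pow]
    congr 1
    have : ((k : ℤ) - 1) = ((k - 1 : ℕ) : ℤ) := by omega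
    rw [this, zpow_natCast]
  obtain ⟨x', y', e1, e2, e3, e4⟩ := AT_slopes p (τ (a : E))
    (τ (c : E) * (p : PadicAlgCl p) ^ (k - 1)) ha (by rw [hq]; exact hy1)
  exact ⟨x', y', e1, e2, e3, e4.trans hq⟩

end H18G
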