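import Pool.Agent.Lib.H36D.Defs
import Pool.Agent.Lib.H94M.TG

/-!
# H18G: Theorem D over a number field, common definitions

* `gcR, ggR, AhR, FAR`: the auxiliary function over a commutative ring `R` (`R = E, ℂ, ZMod p, ...`), compatible
  with ring homomorphisms;
* `AP E p`: the `p`-integral elements of `E`; `ext φ`: the extension of `φ : 𝓞 E → k` to `AP E p`;
  `Red p φ h g`: `g` is the reduction of `h ∈ E⟦q⟧`;
* `HypE`: growth and denominators (part S); `DatE`: the data of Theorem D over `E`;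
* `HE a d = Σ (a(n)/n) q^(dn)`.
-/

namespace H18G

open H53M H94M PowerSeries Finset NumberField H36D

section generic

variable {R : Type*} [CommRing R] {r : ℕ}

/-- The basis of the forms of level one and weight `12 W`, over `R`. -/
noncomputable def LvR (R : Type*) [CommRing R] (W i : ℕ) : PowerSeries R :=
  PowerSeries.map (Int.castRingHom R) (Lv W i)

/-- The coefficient of `q^n z^j b^l` in `Lv(W,i)(q) Π_s (h_s(q) - b h_s(z))^(α_s)`, `t = (α, i)`. -/
noncomputable def gcR (h : Fin r → PowerSeries R) (W n j l : ℕ) (t : (Fin r → ℕ) × ℕ) : R :=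
  ∑ be ∈ (subs t.1).filter (fun be => ∑ s, be s = l),
    (-1) ^ l * (bc t.1 be : R) * (coeff j (Hm h be) * coeff n (LvR R W t.2 * Hm h (t.1 - be)))

/-- The coefficient of `q^n z^j b^l` in the auxiliary function. -/
noncomputable def ggR (h : Fin r → PowerSeries R) (J W : ℕ) (x : (Fin r → ℕ) × ℕ → ℤ)
    (n j l : ℕ) : R :=
  ∑ t ∈ Ix r J W, (x t : R) * gcR h W n j l t

/-- `A(h) = Σ_t x(t) Lv(W,i) h^α`. -/
noncomputable def AhR (h : Fin r → PowerSeries R) (J W : ℕ) (x : (Fin r → ℕ) × ℕ → ℤ) :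
    PowerSeries R :=
  ∑ t ∈ Ix r J W, (x t : R) • (LvR R W t.2 * Hm h t.1)

/-- `A(h(q) - b h(q^p))`. -/
noncomputable def FAR (h : Fin r → PowerSeries R) (J W : ℕ) (x : (Fin r → ℕ) × ℕ → ℤ) (p : ℕ)
    (hp : p ≠ 0) (b : R) : PowerSeries R :=
  ∑ t ∈ Ix r J W, (x t : R) •
    (LvR R W t.2 * Hm (fun s => h s - C b * expand p hp (h s)) t.1)

variable {S : Type*} [CommRing S] (f : R →+* S)

theorem map_LvR (W i : ℕ) : PowerSeries.map f (LvR R W i) = LvR S W i := by
  unfold LvR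
  rw [← RingHom.comp_apply, ← PowerSeries.map_comp]
  congr 2
  exact RingHom.ext_int _ _

theorem map_Hm (h : Fin r → PowerSeries R) (al : Fin r → ℕ) :
    PowerSeries.map f (Hm h al) = Hm (fun s => PowerSeries.map f (h s)) al := by
  unfold Hm
  rw [map_prod]
  exact Finset.prod_congr rfl fun s _ => map_pow _ _ _

theorem map_gcR (h : Fin r → PowerSeries R) (W n j l : ℕ) (t : (Fin r → ℕ) × ℕ) :
    f (gcR h W n j l t) = gcR (fun s => PowerSeries.map f (h s)) W n j l t := by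
  unfold gcR
  rw [map_sum]
  refine Finset.sum_congr rfl fun be _ => ?_
  rw [map_mul, map_mul, map_mul, map_pow, map_neg, map_one, map_natCast, ← coeff_map, ← coeff_map,
    map_mul, map_Hm, map_Hm, map_LvR]

theorem map_ggR (h : Fin r → PowerSeries R) (J W : ℕ) (x : (Fin r → ℕ) × ℕ → ℤ) (n j l : ℕ) :
    f (ggR h J W x n j l) = ggR (fun s => PowerSeries.map f (h s)) J W x n j l := by
  unfold ggR
  rw [map_sum]
  refine Finset.sum_congr rfl fun t _ => ?_
  rw [map_mul, map_intCast, map_gcR]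

theorem map_AhR (h : Fin r → PowerSeries R) (J W : ℕ) (x : (Fin r → ℕ) × ℕ → ℤ) :
    PowerSeries.map f (AhR h J W x) = AhR (fun s => PowerSeries.map f (h s)) J W x := by
  unfold AhR
  rw [map_sum]
  refine Finset.sum_congr rfl fun t _ => ?_
  rw [smul_eq_C_mul, smul_eq_C_mul, map_mul, map_mul, map_C, map_intCast, map_LvR, map_Hm]

end generic

section red

variable {E : Type*} [Field E] [NumberField E]

omit [NumberField E] in
theorem val_mul (x y : 𝓞 E) :
    RingOfIntegers.val (x * y) = RingOfIntegers.val x * RingOfIntegers.val y :=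
  map_mul (algebraMap (𝓞 E) E) x y

omit [NumberField E] in
theorem val_add (x y : 𝓞 E) :
    RingOfIntegers.val (x + y) = RingOfIntegers.val x + RingOfIntegers.val y :=
  map_add (algebraMap (𝓞 E) E) x y

omit [NumberField E] in
theorem val_neg (x : 𝓞 E) : RingOfIntegers.val (-x) = -RingOfIntegers.val x :=
  map_neg (algebraMap (𝓞 E) E) x

omit [NumberField E] in
theorem val_nat (m : ℕ) : RingOfIntegers.val (m : 𝓞 E) = (m : E) :=
  map_natCast (algebraMap (𝓞 E) E) m

/-- The `p`-integral elements of `E`. -/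
def AP (E : Type*) [Field E] [NumberField E] (p : ℕ) [hp : Fact p.Prime] : Subring E where
  carrier := {x | ∃ m : ℕ, ¬ p ∣ m ∧ ∃ y : 𝓞 E, (m : E) * x = y}
  mul_mem' := by
    rintro x x' ⟨m, hm, y, hy⟩ ⟨m', hm', y', hy'⟩
    refine ⟨m * m', fun h => (hp.out.dvd_mul.1 h).elim hm hm', y * y', ?_⟩
    rw [val_mul, ← hy, ← hy']
    push_cast
    ring
  one_mem' := ⟨1, fun h => hp.out.one_lt.ne' (Nat.dvd_one.1 h), 1, by simp⟩
  add_mem' := by
    rintro x x' ⟨m, hm, y, hy⟩ ⟨m', hm', y', hy'⟩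
    refine ⟨m * m', fun h => (hp.out.dvd_mul.1 h).elim hm hm', m' * y + m * y', ?_⟩
    rw [val_add, val_mul, val_mul, val_nat, val_nat, ← hy, ← hy']
    push_cast
    ring
  zero_mem' := ⟨1, fun h => hp.out.one_lt.ne' (Nat.dvd_one.1 h), 0, by simp⟩
  neg_mem' := by
    rintro x ⟨m, hm, y, hy⟩
    refine ⟨m, hm, -y, ?_⟩
    rw [val_neg, ← hy]
    ring

theorem mem_AP {p : ℕ} [Fact p.Prime] {x : E} :
    x ∈ AP E p ↔ ∃ m : ℕ, ¬ p ∣ m ∧ ∃ y : 𝓞 E, (m : E) * x = y := Iff.rfl

theorem int_mem_AP {p : ℕ} [hp : Fact p.Prime] (y : 𝓞 E) : (y : E) ∈ AP E p :=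
  ⟨1, fun h => hp.out.one_lt.ne' (Nat.dvd_one.1 h), y, by simp⟩

variable {p : ℕ} [hp : Fact p.Prime] {k : Type*} [Field k] [CharP k p] (φ : 𝓞 E →+* k)

omit hp in
private theorem natCast_ne {m : ℕ} (hm : ¬ p ∣ m) : (m : k) ≠ 0 := fun h =>
  hm ((CharP.cast_eq_zero_iff k p m).1 h)

private theorem ext_wd {x : E} {m m' : ℕ} (hm : ¬ p ∣ m) (hm' : ¬ p ∣ m') {y y' : 𝓞 E}
    (hy : (m : E) * x = y) (hy' : (m' : E) * x = y') : φ y / (m : k) = φ y' / (m' : k) := by
  have h1 := natCast_ne (k := k) hm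
  have h2 := natCast_ne (k := k) hm'
  rw [div_eq_div_iff h1 h2]
  have h3 : y * (m' : 𝓞 E) = y' * (m : 𝓞 E) := by
    apply RingOfIntegers.ext
    rw [val_mul, val_mul, val_nat, val_nat, ← hy, ← hy']
    ring
  have h4 := congrArg φ h3
  rwa [map_mul, map_mul, map_natCast, map_natCast] at h4

/-- A denominator prime to `p`. -/
noncomputable def denA (x : AP E p) : ℕ := (mem_AP.1 x.2).choose

theorem denA_spec (x : AP E p) : ¬ p ∣ denA x := (mem_AP.1 x.2).choose_spec.1

/-- The numerator. -/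
noncomputable def numA (x : AP E p) : 𝓞 E := (mem_AP.1 x.2).choose_spec.2.choose

theorem numA_spec (x : AP E p) : (denA x : E) * (x : E) = (numA x : E) :=
  (mem_AP.1 x.2).choose_spec.2.choose_spec

/-- The extension of `φ` to the `p`-integral elements. -/
noncomputable def ext : AP E p →+* k where
  toFun x := φ (numA x) / (denA x : k)
  map_one' := by
    have h := ext_wd φ (x := (1 : E)) (denA_spec (1 : AP E p))
      (fun h => hp.out.one_lt.ne' (Nat.dvd_one.1 h)) (numA_spec (1 : AP E p))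
      (m' := 1) (y' := 1) (by simp)
    rw [h]
    simp
  map_mul' x x' := by
    rw [div_mul_div_comm, ← map_mul, ← Nat.cast_mul]
    refine ext_wd φ (x := (x : E) * (x' : E)) (denA_spec (x * x'))
      (fun h => (hp.out.dvd_mul.1 h).elim (denA_spec x) (denA_spec x')) (numA_spec (x * x')) ?_
    rw [val_mul, ← numA_spec x, ← numA_spec x']
    push_cast
    ring
  map_zero' := by
    have h := ext_wd φ (x := (0 : E)) (denA_spec (0 : AP E p))
      (fun h => hp.out.one_lt.ne' (Nat.dvd_one.1 h)) (numA_spec (0 : AP E p))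
      (m' := 1) (y' := 0) (by simp)
    rw [h]
    simp
  map_add' x x' := by
    rw [div_add_div _ _ (natCast_ne (denA_spec x)) (natCast_ne (denA_spec x'))]
    have h := ext_wd φ (x := (x : E) + (x' : E)) (denA_spec (x + x'))
      (m' := denA x * denA x') (y' := numA x * (denA x' : 𝓞 E) + (denA x : 𝓞 E) * numA x')
      (fun h => (hp.out.dvd_mul.1 h).elim (denA_spec x) (denA_spec x')) (numA_spec (x + x')) (by
        rw [val_add, val_mul, val_mul, val_nat, val_nat, ← numA_spec x, ← numA_spec x']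
        push_cast
        ring)
    rw [h, map_add, map_mul, map_mul, map_natCast, map_natCast, Nat.cast_mul]

theorem ext_eq (x : AP E p) {m : ℕ} (hm : ¬ p ∣ m) {y : 𝓞 E} (hy : (m : E) * x = y) :
    ext φ x = φ y / (m : k) :=
  ext_wd φ (denA_spec x) hm (numA_spec x) hy

theorem ext_int (y : 𝓞 E) : ext φ ⟨(y : E), int_mem_AP (p := p) y⟩ = φ y := by
  rw [ext_eq φ _ (m := 1) (y := y) (fun h => hp.out.one_lt.ne' (Nat.dvd_one.1 h)) (by simp)]
  simp

/-- `g` is the reduction of `h`. -/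
def Red (p : ℕ) [Fact p.Prime] {k : Type*} [Field k] [CharP k p] (φ : 𝓞 E →+* k)
    (h : PowerSeries E) (g : PowerSeries k) : Prop :=
  ∃ h' : PowerSeries (AP E p), PowerSeries.map (AP E p).subtype h' = h ∧
    PowerSeries.map (ext φ) h' = g

end red

/-- Growth and denominators. -/
structure HypE {E : Type*} [Field E] [NumberField E] {r : ℕ} (h : Fin r → PowerSeries E) (C : ℝ)
    (κ : ℕ) (D : ℕ → ℕ) : Prop where
  /-- growth -/
  growth : ∀ (τ : E →+* ℂ) s n, ‖τ (coeff n (h s))‖ ≤ C * ((n : ℝ) + 1) ^ κ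
  /-- no constant term -/
  zero : ∀ s, coeff 0 (h s) = 0
  /-- positivity -/
  pos : ∀ n, 0 < D n
  /-- divisibility -/
  dvd : ∀ n, D n ∣ D (n + 1)
  /-- common denominators -/
  den : ∀ s n, ∃ z : 𝓞 E, (D n : E) * coeff n (h s) = z

/-- The data of Theorem D over `E`. -/
structure DatE (E : Type*) [Field E] [NumberField E] (r v μ s₀ : ℕ) (h : Fin r → PowerSeries E)
    (b : ℕ → 𝓞 E) (Exc : ℕ → Prop) [DecidablePred Exc] : Prop where
  /-- no constant term -/
  zero : ∀ σ, coeff 0 (h σ) = 0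
  /-- polynomial growth -/
  growth : ∃ (C : ℝ) (κ : ℕ), ∀ (τ : E →+* ℂ) σ n, ‖τ (coeff n (h σ))‖ ≤ C * ((n : ℝ) + 1) ^ κ
  /-- denominators: only exceptional primes, bounded prime powers -/
  den : ∀ σ n, ∃ z : 𝓞 E, (DG Exc 1 1 n : E) * coeff n (h σ) = z
  /-- small primes are exceptional -/
  big : ∀ p, p.Prime → ¬ Exc p → 5 < p
  /-- the index is positive -/
  mu_pos : 1 ≤ μ
  /-- the structure modulo the places of degree one -/
  fam : ∀ (p : ℕ) [Fact p.Prime], ¬ Exc p → ∀ φ : 𝓞 E →+* ZMod p,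
    ∃ g : Fin r → PowerSeries (ZMod p), (∀ σ, Red p φ (h σ) (g σ)) ∧
      ∃ M : ℕ → Submodule (ZMod p) (PowerSeries (ZMod p)), MFam p μ s₀ M ∧
        ∀ σ, g σ - C (φ (b p)) * expand p (NeZero.ne p) (g σ) ∈ M (p * v + (p - 1))

/-- The series `h(q^d)`, `h = Σ (a(n)/n) qⁿ`. -/
noncomputable def HE {E : Type*} [Field E] [NumberField E] (a : ℕ → 𝓞 E) (d : ℕ) :
    PowerSeries E :=
  PowerSeries.mk fun n => if d ∣ n then ((a (n / d) : 𝓞 E) : E) / ((n / d : ℕ) : E) else 0

end H18G
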