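import Mathlib

/-!
# H18G, EG1: the places where a sequence of vectors over a domain leaves the span of its predecessors

`R` is a domain. For vectors `v 0, ..., v N₀ : Fin d → R` there are at most `d` such places and one determinant `Δ ≠ 0` whose
rows are some of the `v n` (`n ≤ N₀`) or unit vectors, such that for every other place `n` the vector `Δ v n` is an
`R`-combination of the vectors at the earlier places of the set.
-/

namespace H18G

open Finset Matrix
open scoped Nat

variable {R : Type*} [CommRing R] [IsDomain R]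

private theorem EG1_indep {K : Type*} [Field K] {d : ℕ} (w : ℕ → Fin d → K) (T : Finset ℕ) :
    (∀ n ∈ T, w n ∉ Submodule.span K (w '' {m | m < n})) → ∀ g : ℕ → K,
      ∑ n ∈ T, g n • w n = 0 → ∀ n ∈ T, g n = 0 := by
  induction T using Finset.induction_on_max with
  | empty => intro _ g _ n hn; simp at hn
  | insert a s ha ih =>
    intro hT g hg
    have has : a ∉ s := fun h => lt_irrefl _ (ha a h)
    rw [sum_insert has] at hg
    have hga : g a = 0 := by
      by_contra hne
      refine hT a (mem_insert_self _ _) ?_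
      have h1 : w a = -((g a)⁻¹ • ∑ n ∈ s, g n • w n) := by
        have h2 : g a • w a = -∑ n ∈ s, g n • w n := by
          rw [eq_neg_iff_add_eq_zero]; exact hg
        have h3 : (g a)⁻¹ • (g a • w a) = w a := by
          rw [smul_smul, inv_mul_cancel₀ hne, one_smul]
        rw [← h3, h2, smul_neg]
      rw [h1]
      refine Submodule.neg_mem _ (Submodule.smul_mem _ _ (Submodule.sum_mem _ fun n hn => ?_))
      exact Submodule.smul_mem _ _ (Submodule.subset_span ⟨n, ha n hn, rfl⟩)
    rw [hga, zero_smul, zero_add] at hg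
    intro n hn
    rcases mem_insert.1 hn with rfl | hn
    · exact hga
    · exact ih (fun m hm => hT m (mem_insert_of_mem hm)) g hg n hn

private theorem EG1_jumps_aux {d : ℕ} (L : ℕ) (u : ℕ → Fin d → R)
    (hspan : ∀ i : Fin d, ∃ n < L, u n = Pi.single i 1) :
    ∃ (S : Finset ℕ) (e : Fin d ≃ S), S ⊆ range L ∧
      (Matrix.of fun i j => u (e i) j).det ≠ 0 ∧
      ∀ n < L, n ∉ S → ∃ c : ℕ → R, ∀ j,
        (Matrix.of fun i j => u (e i) j).det * u n j = ∑ m ∈ S.filter (· < n), c m * u m j := by
  classical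
  set K := FractionRing R
  set ι : R →+* K := algebraMap R K with hι
  have hιinj : Function.Injective ι := IsFractionRing.injective R K
  set w : ℕ → Fin d → K := fun n j => ι (u n j) with hw
  set S : Finset ℕ := (range L).filter fun n => w n ∉ Submodule.span K (w '' {m | m < n}) with hS
  have hSn : ∀ n ∈ S, w n ∉ Submodule.span K (w '' {m | m < n}) := fun n hn => (mem_filter.1 hn).2
  have hB : ∀ n < L, w n ∈ Submodule.span K (w '' (S.filter (· ≤ n) : Finset ℕ)) ∧
      (n ∉ S → w n ∈ Submodule.span K (w '' (S.filter (· < n) : Finset ℕ))) := by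
    intro n
    induction n using Nat.strong_induction_on with
    | _ n ih =>
      intro hn
      have h2 : n ∉ S → w n ∈ Submodule.span K (w '' (S.filter (· < n) : Finset ℕ)) := by
        intro hnS
        have h3 : w n ∈ Submodule.span K (w '' {m | m < n}) := by
          by_contra h4
          exact hnS (mem_filter.2 ⟨mem_range.2 hn, h4⟩)
        refine (Submodule.span_le.2 ?_) h3
        rintro _ ⟨m, hm, rfl⟩
        have hm' : m < n := hm
        refine Submodule.span_mono ?_ (ih m hm' (hm'.trans hn)).1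
        refine Set.image_mono ?_
        intro k hk
        simp only [coe_filter, Set.mem_ofPred_eq] at hk ⊢
        exact ⟨hk.1, lt_of_le_of_lt hk.2 hm'⟩
      refine ⟨?_, h2⟩
      by_cases hnS : n ∈ S
      · refine Submodule.subset_span ⟨n, ?_, rfl⟩
        simp only [coe_filter, Set.mem_ofPred_eq]
        exact ⟨hnS, le_rfl⟩
      · refine Submodule.span_mono ?_ (h2 hnS)
        refine Set.image_mono ?_
        intro k hk
        simp only [coe_filter, Set.mem_ofPred_eq] at hk ⊢
        exact ⟨hk.1, hk.2.le⟩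
  have hSL : S ⊆ range L := filter_subset _ _
  clear_value S
  have hli : LinearIndependent K fun n : S => w n := by
    rw [Fintype.linearIndependent_iff]
    intro g hg
    set g' : ℕ → K := fun n => if h : n ∈ S then g ⟨n, h⟩ else 0 with hg'
    have h1 : ∑ n ∈ S, g' n • w n = 0 := by
      rw [← hg, ← Finset.sum_coe_sort S]
      refine sum_congr rfl fun n _ => ?_
      simp [hg', n.2]
    intro n
    have h2 := EG1_indep w S hSn g' h1 n n.2
    simpa [hg', n.2] using h2
  have htop : ⊤ ≤ Submodule.span K (Set.range fun n : S => w n) := by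
    intro x _
    have h1 : x = ∑ i : Fin d, x i • (Pi.single i (1 : K) : Fin d → K) := by
      ext j
      simp [Finset.sum_apply, Pi.single_apply]
    rw [h1]
    refine Submodule.sum_mem _ fun i _ => Submodule.smul_mem _ _ ?_
    obtain ⟨n, hn, hni⟩ := hspan i
    have h2 : w n = Pi.single i 1 := by
      ext j
      simp only [hw, hni, Pi.single_apply]
      split_ifs <;> simp
    rw [← h2]
    refine Submodule.span_mono ?_ (hB n hn).1
    rintro _ ⟨m, hm, rfl⟩
    simp only [coe_filter, Set.mem_ofPred_eq] at hm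
    exact ⟨⟨m, hm.1⟩, rfl⟩
  have hcard : Fintype.card S = d := by
    have h1 := Module.finrank_eq_card_basis (Module.Basis.mk hli htop)
    rw [Module.finrank_fin_fun] at h1
    exact h1.symm
  let e : Fin d ≃ S := (Fintype.equivFinOfCardEq hcard).symm
  set B : Matrix (Fin d) (Fin d) R := Matrix.of fun i j => u (e i) j with hBdef
  have hdetQ : ((B.map ι).det) ≠ 0 := by
    have h1 : LinearIndependent K (B.map ι).row := by
      have h2 : LinearIndependent K ((fun n : S => w n) ∘ e) := hli.comp _ e.injective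
      exact h2
    have h3 := Matrix.linearIndependent_rows_iff_isUnit.1 h1
    exact ((Matrix.isUnit_iff_isUnit_det _).1 h3).ne_zero
  have hdet : B.det ≠ 0 := by
    intro h
    apply hdetQ
    have h1 := RingHom.map_det ι B
    rw [RingHom.mapMatrix_apply] at h1
    rw [← h1, h, map_zero]
  refine ⟨S, e, hSL, hdet, fun n hn hnS => ?_⟩
  set a : Fin d → R := (u n) ᵥ* B.adjugate with ha
  have hcr : ∀ j, B.det * u n j = ∑ i, a i * u (e i) j := by
    intro j
    have h1 : a ᵥ* B = B.det • u n := by
      rw [ha, Matrix.vecMul_vecMul, Matrix.adjugate_mul, Matrix.vecMul_smul, Matrix.vecMul_one]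
    have h2 := congrFun h1 j
    rw [Pi.smul_apply, smul_eq_mul] at h2
    rw [← h2]
    simp [Matrix.vecMul, dotProduct, hBdef]
  -- coefficients indexed by `ℕ`
  set c : ℕ → R := fun m => if h : m ∈ S then a (e.symm ⟨m, h⟩) else 0 with hc
  have hsum : ∀ j, B.det * u n j = ∑ m ∈ S, c m * u m j := by
    intro j
    rw [hcr j, ← Finset.sum_coe_sort S, ← e.sum_comp]
    refine sum_congr rfl fun i _ => ?_
    simp [hc]
  -- coefficients in the field
  have hq : ∃ q : ℕ → K, w n = ∑ m ∈ S.filter (· < n), q m • w m := by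
    have h1 := (hB n hn).2 hnS
    rw [Submodule.mem_span_image_finset_iff_exists_fun] at h1
    obtain ⟨q, hq⟩ := h1
    refine ⟨fun m => if h : m ∈ S.filter (· < n) then q ⟨m, h⟩ else 0, ?_⟩
    rw [← hq, ← Finset.sum_coe_sort (S.filter (· < n))]
    refine sum_congr rfl fun m _ => ?_
    simp only [dif_pos m.2]
  obtain ⟨q, hq⟩ := hq
  have hzero : ∑ m ∈ S, (ι (c m) - ι B.det * (if m < n then q m else 0)) • w m = 0 := by
    have h1 : ∑ m ∈ S, ι (c m) • w m = ι B.det • w n := by
      ext j
      have h2 := congrArg ι (hsum j)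
      rw [map_mul, map_sum] at h2
      simp only [Finset.sum_apply, Pi.smul_apply, smul_eq_mul, hw]
      rw [h2]
      refine sum_congr rfl fun m _ => ?_
      rw [map_mul]
    have h3 : ∑ m ∈ S, (ι B.det * (if m < n then q m else 0)) • w m = ι B.det • w n := by
      rw [hq, Finset.smul_sum, Finset.sum_filter]
      refine sum_congr rfl fun m _ => ?_
      split_ifs with h
      · rw [smul_smul]
      · simp
    simp only [sub_smul, Finset.sum_sub_distrib, h1, h3, sub_self]
  have hcz := EG1_indep w S hSn _ hzero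
  refine ⟨c, fun j => ?_⟩
  rw [hsum j, Finset.sum_filter]
  refine sum_congr rfl fun m hm => ?_
  split_ifs with h
  · rfl
  · have h1 := hcz m hm
    rw [if_neg h, mul_zero, sub_zero] at h1
    have h2 : c m = 0 := hιinj (by rw [h1, map_zero])
    rw [h2, zero_mul]

/-- The jump lemma over a domain: one determinant `Δ` for all places which are not jumps. -/
theorem EG1_jumps {d : ℕ} (N₀ : ℕ) (v : ℕ → Fin d → R) :
    ∃ (S : Finset ℕ) (w : Fin d → Fin d → R), S ⊆ range (N₀ + 1) ∧ S.card ≤ d ∧
      (∀ i, (∃ n ≤ N₀, w i = v n) ∨ ∃ j, w i = Pi.single j 1) ∧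
      (Matrix.of w).det ≠ 0 ∧
      ∀ n ≤ N₀, n ∉ S → ∃ c : ℕ → R, ∀ i,
        (Matrix.of w).det * v n i = ∑ m ∈ S.filter (· < n), c m * v m i := by
  classical
  set u : ℕ → Fin d → R := fun n =>
    if n ≤ N₀ then v n else if h : n - (N₀ + 1) < d then Pi.single ⟨n - (N₀ + 1), h⟩ 1 else 0
    with hu
  have hspan : ∀ i : Fin d, ∃ n < N₀ + 1 + d, u n = Pi.single i 1 := by
    intro i
    refine ⟨N₀ + 1 + i, by have := i.2; omega, ?_⟩
    have h1 : ¬ (N₀ + 1 + (i : ℕ) ≤ N₀) := by omega
    have h2 : N₀ + 1 + (i : ℕ) - (N₀ + 1) = i := by omega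
    have h3 : N₀ + 1 + (i : ℕ) - (N₀ + 1) < d := by rw [h2]; exact i.2
    have h4 : (⟨N₀ + 1 + (i : ℕ) - (N₀ + 1), h3⟩ : Fin d) = i := Fin.ext h2
    simp only [hu, if_neg h1, dif_pos h3, h4]
  obtain ⟨S, e, hSL, hdet, hcomb⟩ := EG1_jumps_aux (N₀ + 1 + d) u hspan
  refine ⟨S.filter (· ≤ N₀), fun i j => u (e i) j, ?_, ?_, ?_, hdet, ?_⟩
  · intro n hn
    rw [mem_filter] at hn
    exact mem_range.2 (by omega)
  · refine (card_filter_le _ _).trans (le_of_eq ?_)
    have h1 := Fintype.card_congr e
    rw [Fintype.card_fin, Fintype.card_coe] at h1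
    exact h1.symm
  · intro i
    by_cases h1 : ((e i : ℕ)) ≤ N₀
    · exact Or.inl ⟨_, h1, by simp only [hu, if_pos h1]⟩
    · have h2 := mem_range.1 (hSL (e i).2)
      have h3 : (e i : ℕ) - (N₀ + 1) < d := by omega
      exact Or.inr ⟨⟨_, h3⟩, by simp only [hu, if_neg h1, dif_pos h3]⟩
  · intro n hn hnS
    have hnS' : n ∉ S := fun h => hnS (mem_filter.2 ⟨h, hn⟩)
    obtain ⟨c, hc⟩ := hcomb n (by omega) hnS'
    refine ⟨c, fun i => ?_⟩
    have h1 := hc i
    have h2 : ∀ m ≤ N₀, u m = v m := fun m hm => by simp only [hu, if_pos hm]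
    rw [h2 n hn] at h1
    rw [h1]
    have h3 : (S.filter (· ≤ N₀)).filter (· < n) = S.filter (· < n) := by
      ext m
      simp only [mem_filter]
      constructor
      · rintro ⟨⟨h4, -⟩, h5⟩; exact ⟨h4, h5⟩
      · rintro ⟨h4, h5⟩; exact ⟨⟨h4, by omega⟩, h5⟩
    rw [h3]
    refine sum_congr rfl fun m hm => ?_
    rw [h2 m (by have := (mem_filter.1 hm).2; omega)]

end H18G
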