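import Pool.Agent.Lib.H18G.EG1
import Pool.Agent.Lib.H95D.E2

/-!
# H18G, EG2: the end game over a domain

`v j n : Fin (J+1) → R` (coefficients of `q^n z^j b^l`), `P` a finite set of primes larger than `X`, `I p` a prime ideal for each
`p ∈ P`. If modulo `I p` all coefficients `q^m`, `m ≤ N₀ ≤ K X`, of `F(q, q^p, b_p)` vanish for every `p ∈ P`, while the part `j = 0`
has a coefficient whose value at `b_p` is a unit modulo `I p` when a fixed `A ≠ 0` is, then `P` is small.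
-/

namespace H18G

open Finset
open scoped Nat

variable {R : Type*} [CommRing R] [IsDomain R]

/-- One fibre `j`: outside the divisors of `Δ` the first nonvanishing coefficient is a jump. -/
private theorem EG2_first_mem {d N₀ : ℕ} (v : ℕ → Fin d → R) (S : Finset ℕ) (Δ : R)
    (hc : ∀ n ≤ N₀, n ∉ S → ∃ c : ℕ → R, ∀ i, Δ * v n i = ∑ m ∈ S.filter (· < n), c m * v m i)
    {I : Ideal R} (hI : I.IsPrime) (hΔ : Δ ∉ I) (β : Fin d → R) {n : ℕ} (hn : n ≤ N₀)
    (h0 : ∑ i, v n i * β i ∉ I) (hlt : ∀ m < n, ∑ i, v m i * β i ∈ I) : n ∈ S := by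
  by_contra hnS
  obtain ⟨c, hc⟩ := hc n hn hnS
  have h1 : Δ * ∑ i, v n i * β i = ∑ m ∈ S.filter (· < n), c m * ∑ i, v m i * β i := by
    rw [mul_sum]
    simp_rw [mul_sum]
    rw [sum_comm]
    refine sum_congr rfl fun i _ => ?_
    rw [← mul_assoc, hc i, sum_mul]
    refine sum_congr rfl fun m _ => ?_
    ring
  have h2 : Δ * ∑ i, v n i * β i ∈ I := by
    rw [h1]
    exact sum_mem fun m hm => I.mul_mem_left _ (hlt m (mem_filter.1 hm).2)
  rcases hI.mem_or_mem h2 with h3 | h3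
  · exact hΔ h3
  · exact h0 h3

/-- The end game over a domain, evaluation vectors `β p : Fin (J+1) → R` arbitrary. -/
theorem EG2_endgame {J K N₀ X : ℕ} (hX : 2 ≤ X) (hN : N₀ ≤ K * X)
    (v : ℕ → ℕ → Fin (J + 1) → R)
    (P : Finset ℕ) (hP : ∀ p ∈ P, p.Prime ∧ X < p) (I : ℕ → Ideal R) (hI : ∀ p ∈ P, (I p).IsPrime)
    (β : ℕ → Fin (J + 1) → R)
    (hv : ∀ p ∈ P, ∀ m ≤ N₀, ∑ j ∈ range (m / p + 1), ∑ l, v j (m - j * p) l * β p l ∈ I p)
    (n₀ : ℕ) (hn₀ : n₀ ≤ N₀) (A : R)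
    (h0 : ∀ p ∈ P, A ∉ I p → ∑ l, v 0 n₀ l * β p l ∉ I p)
    (B : ℝ) (hA : ∀ [DecidablePred fun p => A ∈ I p], ((P.filter fun p => A ∈ I p).card : ℝ) ≤ B)
    (hB : ∀ w : Fin (J + 1) → Fin (J + 1) → R,
      (∀ i, (∃ j ≤ K, ∃ n ≤ N₀, w i = v j n) ∨ ∃ j, w i = Pi.single j 1) → (Matrix.of w).det ≠ 0 →
      ∀ [DecidablePred fun p => (Matrix.of w).det ∈ I p],
        ((P.filter fun p => (Matrix.of w).det ∈ I p).card : ℝ) ≤ B) :
    (P.card : ℝ) ≤ (((K + 1) * (J + 1)) ^ 2 : ℕ) + (K + 2) * B := by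
  classical
  have hjump : ∀ j : ℕ, ∃ (S : Finset ℕ) (w : Fin (J + 1) → Fin (J + 1) → R), j ≤ K →
      (S ⊆ range (N₀ + 1) ∧ S.card ≤ J + 1 ∧
      (∀ i, (∃ n ≤ N₀, w i = v j n) ∨ ∃ j, w i = Pi.single j 1) ∧
      (Matrix.of w).det ≠ 0 ∧
      ∀ n ≤ N₀, n ∉ S → ∃ c : ℕ → R, ∀ i,
        (Matrix.of w).det * v j n i = ∑ m ∈ S.filter (· < n), c m * v j m i) := by
    intro j
    obtain ⟨S, w, h⟩ := EG1_jumps N₀ (v j)
    exact ⟨S, w, fun _ => h⟩
  choose S w hSw using hjump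
  set Δ : ℕ → R := fun j => (Matrix.of (w j)).det with hΔdef
  -- the bad primes
  set P₀ : Finset ℕ := P.filter fun p => A ∈ I p with hP₀
  set Pj : ℕ → Finset ℕ := fun j => P.filter fun p => Δ j ∈ I p with hPj
  set Q : Finset ℕ := P.filter fun p => A ∉ I p ∧ ∀ j ≤ K, Δ j ∉ I p with hQ
  have hcover : P ⊆ Q ∪ (P₀ ∪ (range (K + 1)).biUnion Pj) := by
    intro p hp
    by_cases h1 : A ∈ I p
    · exact mem_union_right _ (mem_union_left _ (mem_filter.2 ⟨hp, h1⟩))
    by_cases h2 : ∀ j ≤ K, Δ j ∉ I p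
    · exact mem_union_left _ (mem_filter.2 ⟨hp, h1, h2⟩)
    · push Not at h2
      obtain ⟨j, hj, h3⟩ := h2
      exact mem_union_right _ (mem_union_right _ (mem_biUnion.2 ⟨j, mem_range.2 (by omega),
        mem_filter.2 ⟨hp, h3⟩⟩))
  have hb0 : (P₀.card : ℝ) ≤ B := hA
  have hbj : ∀ j ∈ range (K + 1), ((Pj j).card : ℝ) ≤ B := by
    intro j hj
    have hjK : j ≤ K := by have := mem_range.1 hj; omega
    obtain ⟨-, -, h1, h2, -⟩ := hSw j hjK
    refine hB (w j) (fun i => ?_) h2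
    rcases h1 i with ⟨n, hn, h3⟩ | h3
    · exact Or.inl ⟨j, hjK, n, hn, h3⟩
    · exact Or.inr h3
  -- the good primes
  have hQc : Q.card ≤ ((K + 1) * (J + 1)) ^ 2 := by
    set U : Finset ((_ : ℕ) × ℕ) := (range (K + 1)).sigma S with hU
    have hUc : U.card ≤ (K + 1) * (J + 1) := by
      rw [hU, card_sigma]
      refine (sum_le_card_nsmul _ _ (J + 1) fun j hj => ?_).trans (by simp)
      exact (hSw j (by have := mem_range.1 hj; omega)).2.1
    have hkey : ∀ p ∈ Q, ∃ x : ((_ : ℕ) × ℕ) × ((_ : ℕ) × ℕ), x ∈ U ×ˢ U ∧ x.1.1 < x.2.1 ∧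
        x.1.2 + x.1.1 * p = x.2.2 + x.2.1 * p := by
      intro p hp
      obtain ⟨hpP, hpA, hpΔ⟩ := mem_filter.1 hp
      obtain ⟨hpp, hXp⟩ := hP p hpP
      have hIp := hI p hpP
      have hppos : 0 < p := hpp.pos
      -- the evaluation
      set f : ℕ → ℕ → R := fun j n => ∑ l, v j n l * β p l with hf
      -- the smallest `m = n + j p` with `f j n ∉ I p`
      have hex : ∃ m : ℕ, ∃ j n, n + j * p = m ∧ f j n ∉ I p := ⟨n₀, 0, n₀, by simp, h0 p hpP hpA⟩
      set m := Nat.find hex with hm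
      have hmin : ∀ j n, n + j * p < m → f j n ∈ I p := by
        intro j n h
        by_contra h2
        exact Nat.find_min hex h ⟨j, n, rfl, h2⟩
      have hmN : m ≤ N₀ := (Nat.find_min' hex ⟨0, n₀, by simp, h0 p hpP hpA⟩).trans hn₀
      have hjK : ∀ j, j * p ≤ m → j ≤ K := by
        intro j hj
        by_contra h
        have h1 : (K + 1) * X < (K + 1) * p := Nat.mul_lt_mul_of_pos_left hXp (by omega)
        have h2 : (K + 1) * p ≤ j * p := Nat.mul_le_mul_right _ (by omega)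
        have h3 : K * X ≤ (K + 1) * X := Nat.mul_le_mul_right _ (by omega)
        omega
      have hmem : ∀ j n, n + j * p = m → f j n ∉ I p → (⟨j, n⟩ : (_ : ℕ) × ℕ) ∈ U := by
        intro j n h1 h2
        have hj : j ≤ K := hjK j (by omega)
        refine mem_sigma.2 ⟨mem_range.2 (by simpa using Nat.lt_succ_of_le hj), ?_⟩
        refine EG2_first_mem (v j) (S j) (Δ j) (hSw j hj).2.2.2.2 hIp (hpΔ j hj) (β p) (n := n)
          (by omega) h2 ?_
        intro n' hn'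
        have hn'' : n' < n := hn'
        exact hmin j n' (by omega)
      obtain ⟨j₁, n₁, h1, h2⟩ := Nat.find_spec hex
      rw [← hm] at h1
      -- a second one
      have hj₁ : j₁ ∈ range (m / p + 1) := by
        refine mem_range.2 (Nat.lt_succ_of_le ?_)
        rw [Nat.le_div_iff_mul_le hppos]
        omega
      have hn₁ : m - j₁ * p = n₁ := by omega
      have hsec : ∃ j₂ ∈ range (m / p + 1), j₂ ≠ j₁ ∧ f j₂ (m - j₂ * p) ∉ I p := by
        by_contra hno
        push Not at hno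
        have h3 := hv p hpP m hmN
        rw [← add_sum_erase _ _ hj₁] at h3
        have h4 : ∑ j ∈ (range (m / p + 1)).erase j₁, ∑ l, v j (m - j * p) l * β p l ∈ I p :=
          sum_mem fun j hj => hno j (mem_of_mem_erase hj) (ne_of_mem_erase hj)
        have h5 := (Ideal.add_mem_iff_left _ h4).1 h3
        rw [hn₁] at h5
        exact h2 h5
      obtain ⟨j₂, hj₂, hne, h3⟩ := hsec
      have hj₂p : j₂ * p ≤ m := by
        have := mem_range.1 hj₂
        exact (Nat.le_div_iff_mul_le hppos).1 (by omega)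
      have h4 : (m - j₂ * p) + j₂ * p = m := by omega
      have hm1 := hmem j₁ n₁ h1 h2
      have hm2 := hmem j₂ (m - j₂ * p) h4 h3
      rcases lt_or_gt_of_ne hne with h5 | h5
      · exact ⟨(⟨j₂, m - j₂ * p⟩, ⟨j₁, n₁⟩), mem_product.2 ⟨hm2, hm1⟩, h5, by simp only; omega⟩
      · exact ⟨(⟨j₁, n₁⟩, ⟨j₂, m - j₂ * p⟩), mem_product.2 ⟨hm1, hm2⟩, h5, by simp only; omega⟩
    choose! x hx using hkey
    have hinj : Set.InjOn x Q := by
      intro p hp p' hp' hxx
      obtain ⟨-, h1, h2⟩ := hx p hp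
      obtain ⟨-, -, h3⟩ := hx p' hp'
      rw [← hxx] at h3
      obtain ⟨δ, hδ⟩ := Nat.exists_eq_add_of_lt h1
      rw [hδ] at h2 h3
      have h4 : (x p).1.2 = (x p).2.2 + (δ + 1) * p := by
        have : (x p).2.2 + ((x p).1.1 + δ + 1) * p = (x p).2.2 + (δ + 1) * p + (x p).1.1 * p := by ring
        omega
      have h5 : (x p).1.2 = (x p).2.2 + (δ + 1) * p' := by
        have : (x p).2.2 + ((x p).1.1 + δ + 1) * p' = (x p).2.2 + (δ + 1) * p' + (x p).1.1 * p' := by ring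
        omega
      have h6 : (δ + 1) * p = (δ + 1) * p' := by omega
      exact Nat.eq_of_mul_eq_mul_left (by omega) h6
    calc Q.card ≤ (U ×ˢ U).card := card_le_card_of_injOn x (fun p hp => (hx p hp).1) hinj
      _ = U.card * U.card := card_product _ _
      _ ≤ ((K + 1) * (J + 1)) * ((K + 1) * (J + 1)) := Nat.mul_le_mul hUc hUc
      _ = ((K + 1) * (J + 1)) ^ 2 := (sq _).symm
  have h1 : (P.card : ℝ) ≤ (Q.card : ℝ) + ((P₀.card : ℝ) + ∑ j ∈ range (K + 1), ((Pj j).card : ℝ)) := by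
    have h2 : P.card ≤ Q.card + (P₀.card + ∑ j ∈ range (K + 1), (Pj j).card) :=
      (card_le_card hcover).trans ((card_union_le _ _).trans (Nat.add_le_add_left
        ((card_union_le _ _).trans (Nat.add_le_add_left card_biUnion_le _)) _))
    exact_mod_cast h2
  have h2 : ∑ j ∈ range (K + 1), ((Pj j).card : ℝ) ≤ (K + 1) * B := by
    refine (sum_le_card_nsmul _ _ B hbj).trans (le_of_eq ?_)
    simp
  have h3 : (Q.card : ℝ) ≤ (((K + 1) * (J + 1)) ^ 2 : ℕ) := by exact_mod_cast hQc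
  linarith

end H18G
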