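import Pool.Agent.Lib.H18G.EG2
import Pool.Agent.Lib.H95D.E3

/-!
# H18G, EG3: the end game over the integers of a number field

`EG3_card`: few primes `p` have `Δ ∈ I p`, if all conjugates of `Δ ≠ 0` are small.
`EG3_endgame`: the bound for the number of primes.
`EG3_false`: the asymptotic contradiction, with `c X / log X` primes.
-/

namespace H18G

open Finset Filter Topology NumberField
open scoped Nat

variable {E : Type*} [Field E] [NumberField E]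

/-- A prime ideal containing `p` and `Δ`: `p` divides the norm of `Δ`. -/
theorem EG3_dvd_norm {p : ℕ} (hp : p.Prime) (I : Ideal (𝓞 E)) (hI : I.IsPrime) (hpI : (p : 𝓞 E) ∈ I)
    (Δ : 𝓞 E) (hΔ : Δ ∈ I) : (p : ℤ) ∣ Algebra.norm ℤ Δ := by
  have h1 : Ideal.absNorm I ∣ Ideal.absNorm (Ideal.span {Δ}) :=
    Ideal.absNorm_dvd_absNorm_of_le ((Ideal.span_singleton_le_iff_mem I).2 hΔ)
  rw [Ideal.absNorm_span_singleton] at h1
  have h2 : (p : ℤ) ∣ (Ideal.absNorm I : ℤ) := by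
    by_contra hnd
    have hcop : IsCoprime (p : ℤ) (Ideal.absNorm I : ℤ) :=
      (Prime.coprime_iff_not_dvd (Nat.prime_iff_prime_int.1 hp)).2 hnd
    obtain ⟨a, b, hab⟩ := hcop
    apply hI.ne_top
    rw [Ideal.eq_top_iff_one]
    have h3 : ((a * p + b * (Ideal.absNorm I : ℤ) : ℤ) : 𝓞 E) ∈ I := by
      push_cast
      exact I.add_mem (I.mul_mem_left _ hpI) (I.mul_mem_left _ (Ideal.absNorm_mem I))
    rw [hab] at h3
    simpa using h3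
  have h4 : p ∣ Ideal.absNorm I := by exact_mod_cast h2
  exact Int.natCast_dvd.2 (h4.trans h1)

theorem EG3_norm_le (x : 𝓞 E) (B : ℝ) (hB : ∀ τ : E →+* ℂ, ‖τ (x : E)‖ ≤ B) :
    |((Algebra.norm ℤ x : ℤ) : ℝ)| ≤ B ^ Module.finrank ℚ E := by
  classical
  have h1 : |((Algebra.norm ℤ x : ℤ) : ℝ)| = ‖∏ σ : E →ₐ[ℚ] ℂ, σ (x : E)‖ := by
    rw [← Algebra.norm_eq_prod_embeddings, ← Algebra.coe_norm_int]
    simp
  rw [h1, norm_prod]
  have h2 : ∏ σ : E →ₐ[ℚ] ℂ, ‖σ (x : E)‖ ≤ ∏ _σ : E →ₐ[ℚ] ℂ, B :=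
    prod_le_prod (fun _ _ => norm_nonneg _) fun σ _ => hB (σ : E →+* ℂ)
  refine h2.trans (le_of_eq ?_)
  rw [prod_const, card_univ, AlgHom.card]

theorem EG3_card {X : ℕ} (hX : 2 ≤ X) (P : Finset ℕ) (hP : ∀ p ∈ P, p.Prime ∧ X < p)
    (I : ℕ → Ideal (𝓞 E)) (hI : ∀ p ∈ P, (I p).IsPrime ∧ (p : 𝓞 E) ∈ I p) (Δ : 𝓞 E) (hΔ : Δ ≠ 0)
    (hd : ∀ p ∈ P, Δ ∈ I p) (B : ℝ) (hB : ∀ τ : E →+* ℂ, ‖τ (Δ : E)‖ ≤ B) :
    (P.card : ℝ) ≤ Module.finrank ℚ E * Real.log B / Real.log X := by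
  have hlX : 0 < Real.log X := Real.log_pos (by exact_mod_cast hX)
  have hN : Algebra.norm ℤ Δ ≠ 0 := Algebra.norm_ne_zero_iff.mpr hΔ
  have h1 := H95D.card_primes_dvd hX P hP (Algebra.norm ℤ Δ) hN
    (fun p hp => EG3_dvd_norm (hP p hp).1 (I p) (hI p hp).1 (hI p hp).2 Δ (hd p hp))
    (Algebra.norm ℤ Δ).natAbs (by rw [Int.natCast_natAbs])
  refine h1.trans ?_
  rw [div_le_div_iff_of_pos_right hlX]
  have h2 := EG3_norm_le Δ B hB
  have h3 : (0 : ℝ) < ((Algebra.norm ℤ Δ).natAbs : ℝ) := by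
    exact_mod_cast Int.natAbs_pos.2 hN
  have h4 : (((Algebra.norm ℤ Δ).natAbs : ℕ) : ℝ) ≤ B ^ Module.finrank ℚ E := by
    rw [Nat.cast_natAbs, Int.cast_abs]
    exact h2
  have h5 := Real.log_le_log h3 h4
  rwa [Real.log_pow] at h5

theorem EG3_det {d : ℕ} (w : Fin d → Fin d → 𝓞 E) (M : ℝ) (τ : E →+* ℂ)
    (h : ∀ i j, ‖τ (w i j : E)‖ ≤ M) : ‖τ ((Matrix.of w).det : E)‖ ≤ (d ! : ℝ) * M ^ d := by
  set ψ : 𝓞 E →+* ℂ := τ.comp (algebraMap (𝓞 E) E) with hψ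
  have h1 : τ ((Matrix.of w).det : E) = ((Matrix.of w).map ψ).det := by
    have h2 := RingHom.map_det ψ (Matrix.of w)
    rw [RingHom.mapMatrix_apply] at h2
    exact h2
  rw [h1]
  have h3 := Matrix.det_le (A := (Matrix.of w).map ψ) (abv := NormedField.toAbsoluteValue ℂ) (x := M)
    (fun i j => h i j)
  simp only [Fintype.card_fin, nsmul_eq_mul] at h3
  exact h3

/-- **The end game over `𝓞 E`.** -/
theorem EG3_endgame {J K N₀ X : ℕ} {M : ℝ} (hX : 2 ≤ X) (hN : N₀ ≤ K * X) (hM1 : 1 ≤ M)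
    (G : ℕ → ℕ → ℕ → 𝓞 E)
    (hM : ∀ n ≤ N₀, ∀ j ≤ K, ∀ l ≤ J, ∀ τ : E →+* ℂ, ‖τ (G n j l : E)‖ ≤ M)
    (P : Finset ℕ) (hP : ∀ p ∈ P, p.Prime ∧ X < p)
    (I : ℕ → Ideal (𝓞 E)) (hI : ∀ p ∈ P, (I p).IsPrime ∧ (p : 𝓞 E) ∈ I p) (b : ℕ → 𝓞 E)
    (hv : ∀ p ∈ P, ∀ m ≤ N₀,
      ∑ j ∈ range (m / p + 1), ∑ l ∈ range (J + 1), G (m - j * p) j l * b p ^ l ∈ I p)
    (h0 : ∃ n ≤ N₀, G n 0 0 ≠ 0) (h0l : ∀ n ≤ N₀, ∀ l, 1 ≤ l → l ≤ J → G n 0 l = 0) :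
    (P.card : ℝ) ≤ (((K + 1) * (J + 1)) ^ 2 : ℕ) +
      (K + 2) * (Module.finrank ℚ E * Real.log (((J + 1)! : ℝ) * M ^ (J + 1)) / Real.log X) := by
  classical
  obtain ⟨n₀, hn₀, hne⟩ := h0
  have hfac : (1 : ℝ) ≤ ((J + 1)! : ℝ) := by exact_mod_cast Nat.factorial_pos (J + 1)
  have hMM : M ≤ ((J + 1)! : ℝ) * M ^ (J + 1) := by
    have h1 : M ≤ M ^ (J + 1) := by
      calc M = M ^ 1 := (pow_one M).symm
        _ ≤ M ^ (J + 1) := pow_le_pow_right₀ hM1 (by omega)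
    have h2 : (0 : ℝ) ≤ M ^ (J + 1) := by positivity
    nlinarith
  refine EG2_endgame hX hN (fun j n l => G n j l) P hP I (fun p hp => (hI p hp).1)
    (fun p l => b p ^ (l : ℕ)) ?_ n₀ hn₀ (G n₀ 0 0) ?_ _ ?_ ?_
  · intro p hp m hm
    have h1 := hv p hp m hm
    have h2 : ∑ j ∈ range (m / p + 1), ∑ l ∈ range (J + 1), G (m - j * p) j l * b p ^ l =
        ∑ j ∈ range (m / p + 1), ∑ l : Fin (J + 1), G (m - j * p) j l * b p ^ (l : ℕ) :=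
      sum_congr rfl fun j _ => (Fin.sum_univ_eq_sum_range (fun l => G (m - j * p) j l * b p ^ l) _).symm
    rw [h2] at h1
    exact h1
  · intro p hp hA
    have h1 : ∑ l : Fin (J + 1), G n₀ 0 l * b p ^ (l : ℕ) = G n₀ 0 0 := by
      rw [Fin.sum_univ_succ]
      have h2 : ∑ i : Fin J, G n₀ 0 (i.succ : ℕ) * b p ^ ((i.succ : Fin (J + 1)) : ℕ) = 0 := by
        refine sum_eq_zero fun i _ => ?_
        rw [Fin.val_succ, h0l n₀ hn₀ _ (by omega) (by have := i.2; omega), zero_mul]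
      rw [h2]
      simp
    rw [h1]
    exact hA
  · intro _
    refine EG3_card hX _ (fun p hp => hP p (mem_filter.1 hp).1) I (fun p hp => hI p (mem_filter.1 hp).1)
      (G n₀ 0 0) hne (fun p hp => (mem_filter.1 hp).2) _ fun τ => ?_
    exact (hM n₀ hn₀ 0 (Nat.zero_le _) 0 (Nat.zero_le _) τ).trans hMM
  · intro w hw hdet _
    refine EG3_card hX _ (fun p hp => hP p (mem_filter.1 hp).1) I (fun p hp => hI p (mem_filter.1 hp).1)
      _ hdet (fun p hp => (mem_filter.1 hp).2) _ fun τ => ?_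
    refine EG3_det w M τ fun i l => ?_
    rcases hw i with ⟨j, hj, n, hn, h3⟩ | ⟨j, h3⟩
    · rw [h3]
      exact hM n hn j hj l (by have := l.2; omega) τ
    · rw [h3, Pi.single_apply]
      split_ifs
      · simpa using hM1
      · simp only [map_zero, norm_zero]
        linarith

/-- **The asymptotic contradiction over `𝓞 E`.** -/
theorem EG3_false (J K : ℕ) (c ε : ℝ) (hc : 0 < c)
    (hε : ε * Module.finrank ℚ E * (K + 2) * (J + 1) ≤ c / 2) :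
    ∃ X₀ : ℕ, ∀ X ≥ X₀, ∀ (N₀ : ℕ) (M : ℝ) (G : ℕ → ℕ → ℕ → 𝓞 E) (P : Finset ℕ)
      (I : ℕ → Ideal (𝓞 E)) (b : ℕ → 𝓞 E),
      N₀ ≤ K * X → 1 ≤ M → Real.log M ≤ ε * X →
      (∀ n ≤ N₀, ∀ j ≤ K, ∀ l ≤ J, ∀ τ : E →+* ℂ, ‖τ (G n j l : E)‖ ≤ M) →
      (∀ p ∈ P, p.Prime ∧ X < p) →
      (∀ p ∈ P, (I p).IsPrime ∧ (p : 𝓞 E) ∈ I p) →
      (∀ p ∈ P, ∀ m ≤ N₀,
        ∑ j ∈ range (m / p + 1), ∑ l ∈ range (J + 1), G (m - j * p) j l * b p ^ l ∈ I p) →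
      (∃ n ≤ N₀, G n 0 0 ≠ 0) → (∀ n ≤ N₀, ∀ l, 1 ≤ l → l ≤ J → G n 0 l = 0) →
      ¬ (c * (X : ℝ) / Real.log X ≤ (P.card : ℝ)) := by
  set D : ℝ := (Module.finrank ℚ E : ℝ) with hD
  have hD0 : 0 ≤ D := Nat.cast_nonneg _
  set C : ℝ := ((((K + 1) * (J + 1)) ^ 2 : ℕ) : ℝ) + (K + 2) * (D * Real.log (((J + 1)! : ℕ) : ℝ)) with hC
  have hlf : 0 ≤ Real.log (((J + 1)! : ℕ) : ℝ) :=
    Real.log_nonneg (by exact_mod_cast Nat.factorial_pos (J + 1))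
  have hC0 : 0 ≤ C := by positivity
  have hlogo : Tendsto (fun X : ℕ => Real.log (X : ℝ) / (X : ℝ)) atTop (𝓝 0) :=
    (Real.isLittleO_log_id_atTop.tendsto_div_nhds_zero).comp tendsto_natCast_atTop_atTop
  have hev : ∀ᶠ X : ℕ in atTop, Real.log (X : ℝ) / (X : ℝ) < (c / 2) / (C + 1) := by
    refine (tendsto_order.1 hlogo).2 _ ?_
    positivity
  obtain ⟨X₁, hX₁⟩ := eventually_atTop.1 hev
  refine ⟨max X₁ 3, fun X hX N₀ M G P I b hN hM1 hlM hM hP hI hv h0 h0l hcard => ?_⟩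
  have hX1 : X₁ ≤ X := (le_max_left _ _).trans hX
  have hX3 : 3 ≤ X := (le_max_right _ _).trans hX
  have hXr : (3 : ℝ) ≤ X := by exact_mod_cast hX3
  have hlog1 : 1 < Real.log X := by
    rw [Real.lt_log_iff_exp_lt (by linarith)]
    exact lt_of_lt_of_le Real.exp_one_lt_three hXr
  have h1 := EG3_endgame (J := J) (K := K) (N₀ := N₀) (X := X) (M := M) (by omega) hN hM1 G hM P hP I hI b
    hv h0 h0l
  have h2 := hX₁ X hX1
  rw [div_lt_div_iff₀ (by linarith) (by linarith)] at h2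
  have h3 : Real.log (((J + 1)! : ℝ) * M ^ (J + 1)) =
      Real.log (((J + 1)! : ℕ) : ℝ) + (J + 1) * Real.log M := by
    rw [Real.log_mul (by exact_mod_cast (Nat.factorial_pos (J + 1)).ne')
      (pow_ne_zero _ (by linarith)), Real.log_pow]
    push_cast
    ring
  have h4 := hcard.trans h1
  rw [h3, div_le_iff₀ (by linarith), add_mul, mul_assoc, div_mul_cancel₀ _ (by linarith)] at h4
  have h5 : ((K : ℝ) + 2) * (D * ((J + 1) * Real.log M)) ≤ c / 2 * X := by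
    have h6 : ((K : ℝ) + 2) * (D * ((J + 1) * Real.log M)) ≤ (K + 2) * (D * ((J + 1) * (ε * X))) := by
      gcongr
    have h7 : ((K : ℝ) + 2) * (D * ((J + 1) * (ε * X))) = (ε * D * (K + 2) * (J + 1)) * X := by ring
    rw [h7] at h6
    exact h6.trans (mul_le_mul_of_nonneg_right hε (by linarith))
  have h8 : ((K : ℝ) + 2) * (D * Real.log (((J + 1)! : ℕ) : ℝ)) ≤
      (K + 2) * (D * Real.log (((J + 1)! : ℕ) : ℝ)) * Real.log X := by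
    refine le_mul_of_one_le_right ?_ hlog1.le
    positivity
  have h9 : C * Real.log X = ((((K + 1) * (J + 1)) ^ 2 : ℕ) : ℝ) * Real.log X +
      (K + 2) * (D * Real.log (((J + 1)! : ℕ) : ℝ)) * Real.log X := by rw [hC]; ring
  nlinarith

end H18G
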