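import Mathlib

/-!
# H18G, F1E: the numerics (r = 12, `K = C6 J^6`)
-/

namespace H18G

theorem numeric_JE (C0 : ℝ) (hC0 : 1 ≤ C0) (C6 d : ℕ) (c : ℝ) (hc : 0 < c) :
    ∃ J₀ : ℕ, ∀ J : ℕ, J₀ ≤ J →
      C0 * ((J : ℝ) ^ 4 / (J : ℝ) ^ 12) * Real.log (2 + ((C6 * J ^ 6 : ℕ) : ℝ) * (J : ℝ) ^ 12) *
          d * (((C6 * J ^ 6 : ℕ) : ℝ) + 2) * ((J : ℝ) + 1) ≤ c / 2 ∧
        C0 * ((J : ℝ) ^ 4 / (J : ℝ) ^ 12) ≤ J := by
  obtain ⟨e, he⟩ : ∃ e : ℝ, e = (C6 : ℝ) := ⟨_, rfl⟩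
  have he0 : 0 ≤ e := by rw [he]; positivity
  obtain ⟨n, hn⟩ : ∃ n : ℝ, n = (d : ℝ) := ⟨_, rfl⟩
  have hn0 : 0 ≤ n := by rw [hn]; positivity
  obtain ⟨M, hM⟩ : ∃ M : ℝ, M = 2 * C0 * n * (e + 2) * (e + 38) := ⟨_, rfl⟩
  have hM0 : 0 ≤ M := by rw [hM]; positivity
  obtain ⟨T, hT⟩ : ∃ T : ℝ, T = 2 * M / c + C0 := ⟨_, rfl⟩
  have hT0 : 0 ≤ 2 * M / c := by positivity
  obtain ⟨J₀, hJ₀⟩ := exists_nat_ge (T ^ 2)
  refine ⟨J₀, fun J hJ => ?_⟩
  obtain ⟨x, hx⟩ : ∃ x : ℝ, x = (J : ℝ) := ⟨_, rfl⟩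
  have hxJ : T ^ 2 ≤ x := by
    rw [hx]
    exact hJ₀.trans (by exact_mod_cast hJ)
  have hT1 : 1 ≤ T := by rw [hT]; linarith
  have hx1 : 1 ≤ x := le_trans (one_le_pow₀ hT1) hxJ
  have hx0 : 0 < x := by linarith
  obtain ⟨s, hs⟩ : ∃ s : ℝ, s = Real.sqrt x := ⟨_, rfl⟩
  have hs2 : s ^ 2 = x := by rw [hs]; exact Real.sq_sqrt hx0.le
  have hTs : T ≤ s := by
    rw [hs]
    exact Real.le_sqrt_of_sq_le hxJ
  have hs1 : 1 ≤ s := by linarith
  have hs0 : 0 < s := by linarith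
  have hsx : s ≤ x := by rw [← hs2]; nlinarith
  have hcast : ((C6 * J ^ 6 : ℕ) : ℝ) = e * x ^ 6 := by
    rw [he, hx]
    push_cast
    ring
  rw [hcast, ← hx, ← hn]
  have hdiv : x ^ 4 / x ^ 12 = 1 / x ^ 8 := by
    field_simp
  rw [hdiv]
  have hC0x : C0 ≤ x := by linarith
  have hx8 : 1 ≤ x ^ 8 := one_le_pow₀ hx1
  constructor
  · have hlog : Real.log (2 + e * x ^ 6 * x ^ 12) ≤ (e + 38) * s := by
      have h1 : 2 + e * x ^ 6 * x ^ 12 ≤ (2 + e) * x ^ 18 := by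
        have h2 : 1 ≤ x ^ 18 := one_le_pow₀ hx1
        have h3 : e * x ^ 6 * x ^ 12 = e * x ^ 18 := by ring
        rw [h3]
        nlinarith
      have h2 : 0 < 2 + e * x ^ 6 * x ^ 12 := by positivity
      have h3 := Real.log_le_log h2 h1
      rw [Real.log_mul (by positivity) (by positivity), Real.log_pow, ← hs2, Real.log_pow] at h3
      have h4 := Real.log_le_sub_one_of_pos (show (0 : ℝ) < 2 + e by positivity)
      have h5 := Real.log_le_sub_one_of_pos hs0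
      push_cast at h3
      rw [hs2] at h3
      nlinarith
    have hlog0 : 0 ≤ Real.log (2 + e * x ^ 6 * x ^ 12) := by
      refine Real.log_nonneg ?_
      have : 0 ≤ e * x ^ 6 * x ^ 12 := by positivity
      linarith
    have h5 : e * x ^ 6 + 2 ≤ (e + 2) * x ^ 6 := by
      have : 1 ≤ x ^ 6 := one_le_pow₀ hx1
      nlinarith
    have h6 : x + 1 ≤ 2 * x := by linarith
    calc C0 * (1 / x ^ 8) * Real.log (2 + e * x ^ 6 * x ^ 12) * n * (e * x ^ 6 + 2) * (x + 1)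
        ≤ C0 * (1 / x ^ 8) * ((e + 38) * s) * n * ((e + 2) * x ^ 6) * (2 * x) := by
          gcongr
      _ = M * s / x := by
          rw [hM]
          field_simp
      _ = M / s := by
          rw [← hs2]
          field_simp
      _ ≤ c / 2 := by
          rw [div_le_iff₀ hs0]
          have h7 : 2 * M / c ≤ s := by linarith
          rw [div_le_iff₀ hc] at h7
          linarith
  · calc C0 * (1 / x ^ 8) ≤ C0 * 1 := by
          refine mul_le_mul_of_nonneg_left ?_ (by linarith)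
          rw [div_le_one (by positivity)]
          exact hx8
      _ ≤ x := by linarith

end H18G
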