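import Pool.Agent.Lib.H18G.Defs
import Pool.Agent.Lib.H36D.S2
import Pool.Agent.Lib.H53M.SA4

/-!
# H18G, SE2: growth of the coefficients of the auxiliary function, over a number field
-/

namespace H18G

open H53M H94M H36D PowerSeries Finset NumberField

/-- Coefficientwise domination, at the embedding `σ`, of a series by `K (1-X)^{-d}`. -/
def MajE {E : Type*} [Field E] (σ : E →+* ℂ) (d : ℕ) (K : ℝ) (f : PowerSeries E) : Prop :=
  ∀ n, ‖σ (coeff n f)‖ ≤ K * coeff n ((invOneSubPow ℝ d).val)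

section

variable {E : Type*} [Field E] {σ : E →+* ℂ}

theorem MajE_one : MajE σ 0 1 (1 : PowerSeries E) := by
  intro n
  rw [SA1_zero, coeff_one, one_mul]
  split_ifs <;> simp

theorem MajE_mul {d d' : ℕ} {K K' : ℝ} {f g : PowerSeries E} (hK : 0 ≤ K) (hf : MajE σ d K f)
    (hg : MajE σ d' K' g) : MajE σ (d + d') (K * K') (f * g) := by
  intro n
  rw [invOneSubPow_add, Units.val_mul, coeff_mul, coeff_mul, Finset.mul_sum, map_sum]
  refine (norm_sum_le _ _).trans (Finset.sum_le_sum fun x _ => ?_)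
  rw [map_mul, norm_mul]
  have h1 := hf x.1
  have h2 := hg x.2
  calc ‖σ (coeff x.1 f)‖ * ‖σ (coeff x.2 g)‖
      ≤ (K * coeff x.1 ((invOneSubPow ℝ d).val)) * (K' * coeff x.2 ((invOneSubPow ℝ d').val)) :=
        mul_le_mul h1 h2 (norm_nonneg _) (mul_nonneg hK (m_nonneg _ _))
    _ = _ := by ring

theorem MajE_pow {d : ℕ} {K : ℝ} {f : PowerSeries E} (hK : 0 ≤ K) (hf : MajE σ d K f) (n : ℕ) :
    MajE σ (n * d) (K ^ n) (f ^ n) := by
  induction n with
  | zero =>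
    rw [Nat.zero_mul, pow_zero, pow_zero]
    exact MajE_one
  | succ n ih =>
    rw [Nat.succ_mul, pow_succ, pow_succ]
    exact MajE_mul (pow_nonneg hK n) ih hf

theorem MajE_mono {d d' : ℕ} {K K' : ℝ} {f : PowerSeries E} (hK : 0 ≤ K) (hd : d ≤ d')
    (hKK : K ≤ K') (hf : MajE σ d K f) : MajE σ d' K' f := by
  intro n
  refine (hf n).trans ?_
  exact mul_le_mul hKK (SA1_mono hd n) (m_nonneg _ _) (hK.trans hKK)

theorem MajE_base {C : ℝ} (hC : 0 ≤ C) {s : ℕ} {f : PowerSeries E}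
    (hf : ∀ n, ‖σ (coeff n f)‖ ≤ C * ((n : ℝ) + 1) ^ s) :
    MajE σ (s + 1) (C * (s.factorial : ℝ)) f := by
  intro n
  refine (hf n).trans ?_
  rw [SA1_succ, mul_assoc]
  apply mul_le_mul_of_nonneg_left _ hC
  have h1 := Nat.pow_le_choose (α := ℝ) s (s + n)
  have h2 : s + n + 1 - s = n + 1 := by omega
  rw [h2, div_le_iff₀ (by positivity)] at h1
  push_cast at h1
  linarith

theorem MajE_toE {d : ℕ} {K : ℝ} {f : PowerSeries ℤ} (hf : Maj d K (toQ f)) :
    MajE σ d K (PowerSeries.map (Int.castRingHom E) f) := by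
  intro n
  refine le_trans (le_of_eq ?_) (hf n)
  rw [coeff_map, coeff_map]
  simp

theorem MajE_Hm {r : ℕ} (h : Fin r → PowerSeries E) (d : ℕ) (K : ℝ) (hK : 1 ≤ K)
    (hh : ∀ s, MajE σ d K (h s)) (g : Fin r → ℕ) :
    MajE σ ((∑ s, g s) * d) (K ^ (∑ s, g s)) (Hm h g) := by
  have key : ∀ A : Finset (Fin r), MajE σ ((∑ s ∈ A, g s) * d) (K ^ (∑ s ∈ A, g s))
      (∏ s ∈ A, h s ^ g s) := by
    intro A
    induction A using Finset.induction_on with
    | empty =>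
      rw [Finset.sum_empty, Finset.prod_empty, Nat.zero_mul, pow_zero]
      exact MajE_one
    | insert a A ha ih =>
      rw [Finset.sum_insert ha, Finset.prod_insert ha, add_mul, pow_add]
      exact MajE_mul (pow_nonneg (by linarith) _) (MajE_pow (by linarith) (hh a) _) ih
  exact key Finset.univ

private theorem SE2_pow (K : ℝ) (hK : 1 ≤ K) (M : ℕ) (x : ℝ) (hx : 0 ≤ x) :
    K ^ M ≤ Real.exp (2 * M * Real.log K * Real.log (2 + x)) := by
  have h8 : K ^ M = Real.exp ((M : ℝ) * Real.log K) := by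
    rw [Real.exp_nat_mul, Real.exp_log (by linarith)]
  rw [h8]
  apply Real.exp_le_exp.2
  have h9 := SA2_log x hx
  have h10 : 0 ≤ (M : ℝ) * Real.log K := mul_nonneg (Nat.cast_nonneg M) (Real.log_nonneg hK)
  nlinarith

private theorem SE2_one {r : ℕ} (h : Fin r → PowerSeries E) (d : ℕ) (hd : 1 ≤ d) (K : ℝ)
    (hK : 1 ≤ K) (hh : ∀ s, MajE σ d K (h s)) (be : Fin r → ℕ) (J : ℕ) (hJ : 1 ≤ J)
    (hbe : ∑ s, be s ≤ J) (j : ℕ) :
    ‖σ (coeff j (Hm h be))‖ ≤
      Real.exp ((3 * d + 2 * Real.log K) * J * Real.log (2 + (j : ℝ))) := by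
  have h1 := MajE_mono (pow_nonneg (by linarith) _) (Nat.mul_le_mul_right d hbe)
    (pow_le_pow_right₀ hK hbe) (MajE_Hm h d K hK hh be)
  refine (h1 j).trans ?_
  rw [Nat.mul_comm J d]
  have h2 := m_le_exp d J j hd hJ
  have hJ1 : (1 : ℝ) ≤ J := by exact_mod_cast hJ
  have hj0 : (0 : ℝ) ≤ j := Nat.cast_nonneg j
  have h3 : Real.log (2 + (j : ℝ) / J) ≤ Real.log (2 + (j : ℝ)) := by
    apply Real.log_le_log (by positivity)
    have := div_le_self hj0 hJ1
    linarith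
  have h4 := SE2_pow K hK J j hj0
  calc K ^ J * coeff j ((invOneSubPow ℝ (d * J)).val)
      ≤ Real.exp (2 * J * Real.log K * Real.log (2 + (j : ℝ))) *
        Real.exp (3 * d * J * Real.log (2 + (j : ℝ))) := by
        refine mul_le_mul h4 (h2.trans (Real.exp_le_exp.2 ?_)) (m_nonneg _ _) (Real.exp_pos _).le
        exact mul_le_mul_of_nonneg_left h3 (by positivity)
    _ = _ := by
        rw [← Real.exp_add]
        congr 1
        ring

private theorem SE2_two {r : ℕ} (h : Fin r → PowerSeries E) (d : ℕ) (hd : 1 ≤ d) (K : ℝ)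
    (hK : 1 ≤ K) (hh : ∀ s, MajE σ d K (h s)) (h4 : MajE σ d K (PowerSeries.map (Int.castRingHom E) e4))
    (hdl : MajE σ d K (PowerSeries.map (Int.castRingHom E) dl))
    (be : Fin r → ℕ) (J W i : ℕ) (hW : 1 ≤ W) (hi : i ≤ W) (hbe : ∑ s, be s ≤ J) (n : ℕ) :
    ‖σ (coeff n (LvR E W i * Hm h be))‖ ≤
      Real.exp ((9 * d + 6 * Real.log K) * ((W : ℝ) + J) * Real.log (2 + (n : ℝ) / W)) := by
  have hK0 : 0 ≤ K := by linarith
  have h1 : MajE σ ((i + 3 * (W - i) + ∑ s, be s) * d) (K ^ (i + 3 * (W - i) + ∑ s, be s))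
      (LvR E W i * Hm h be) := by
    unfold LvR Lv
    rw [map_mul, map_pow, map_pow, add_mul, add_mul, pow_add, pow_add]
    exact MajE_mul (mul_nonneg (pow_nonneg hK0 _) (pow_nonneg hK0 _))
      (MajE_mul (pow_nonneg hK0 _) (MajE_pow hK0 hdl _) (MajE_pow hK0 h4 _))
      (MajE_Hm h d K hK hh be)
  have hM : i + 3 * (W - i) + ∑ s, be s ≤ 3 * (W + J) := by omega
  have h2 := MajE_mono (pow_nonneg hK0 _) (Nat.mul_le_mul_right d hM)
    (pow_le_pow_right₀ hK hM) h1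
  refine (h2 n).trans ?_
  have e1 : 3 * (W + J) * d = (3 * d) * (W + J) := by ring
  rw [e1]
  have h3 := m_le_exp (3 * d) (W + J) n (by omega) (by omega)
  have hW1 : (1 : ℝ) ≤ W := by exact_mod_cast hW
  have hn0 : (0 : ℝ) ≤ n := Nat.cast_nonneg n
  have hJ0 : (0 : ℝ) ≤ J := Nat.cast_nonneg J
  have h5 : Real.log (2 + (n : ℝ) / ((W + J : ℕ) : ℝ)) ≤ Real.log (2 + (n : ℝ) / W) := by
    apply Real.log_le_log (by positivity)
    have : (n : ℝ) / ((W + J : ℕ) : ℝ) ≤ (n : ℝ) / W := by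
      apply div_le_div_of_nonneg_left hn0 (by linarith)
      push_cast
      linarith
    linarith
  have h6 := SE2_pow K hK (3 * (W + J)) ((n : ℝ) / W) (by positivity)
  calc K ^ (3 * (W + J)) * coeff n ((invOneSubPow ℝ (3 * d * (W + J))).val)
      ≤ Real.exp (2 * ((3 * (W + J) : ℕ) : ℝ) * Real.log K * Real.log (2 + (n : ℝ) / W)) *
        Real.exp (3 * ((3 * d : ℕ) : ℝ) * ((W + J : ℕ) : ℝ) * Real.log (2 + (n : ℝ) / W)) := by
        refine mul_le_mul h6 (h3.trans (Real.exp_le_exp.2 ?_)) (m_nonneg _ _) (Real.exp_pos _).le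
        exact mul_le_mul_of_nonneg_left h5 (by positivity)
    _ = _ := by
        rw [← Real.exp_add]
        congr 1
        push_cast
        ring

end

theorem gcR_bound (r : ℕ) (C : ℝ) (κ : ℕ) : ∃ C4 : ℝ, 1 ≤ C4 ∧
    ∀ (E : Type*) [Field E] (σ : E →+* ℂ) (h : Fin r → PowerSeries E),
      (∀ s n, ‖σ (coeff n (h s))‖ ≤ C * ((n : ℝ) + 1) ^ κ) →
      ∀ J W : ℕ, 1 ≤ J → 1 ≤ W → ∀ t ∈ Ix r J W, ∀ n j l : ℕ,
        ‖σ (gcR h W n j l t)‖ ≤
          Real.exp (C4 * ((W : ℝ) + J) * Real.log (2 + (n : ℝ) / W) +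
            C4 * J * Real.log (2 + (j : ℝ))) := by
  obtain ⟨d, K, hd, hK, h2, h4, hdl⟩ := Maj_e
  obtain ⟨d0, hd0⟩ : ∃ d0 : ℕ, d0 = d + (κ + 1) := ⟨_, rfl⟩
  obtain ⟨K0, hK0⟩ : ∃ K0 : ℝ, K0 = K + |C| * (κ.factorial : ℝ) := ⟨_, rfl⟩
  have hCf : 0 ≤ |C| * (κ.factorial : ℝ) := by positivity
  have hK01 : 1 ≤ K0 := by rw [hK0]; linarith
  have hd01 : 1 ≤ d0 := by omega
  have hd01' : (1 : ℝ) ≤ d0 := by exact_mod_cast hd01
  have hlK : 0 ≤ Real.log K0 := Real.log_nonneg hK01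
  refine ⟨9 * d0 + 6 * Real.log K0 + 6, by linarith, fun E _ σ h hC J W hJ hW t ht n j l => ?_⟩
  have e4' : MajE σ d0 K0 (PowerSeries.map (Int.castRingHom E) e4) :=
    MajE_mono (by linarith) (by omega) (by rw [hK0]; linarith) (MajE_toE h4)
  have edl' : MajE σ d0 K0 (PowerSeries.map (Int.castRingHom E) dl) :=
    MajE_mono (by linarith) (by omega) (by rw [hK0]; linarith) (MajE_toE hdl)
  have hh : ∀ s, MajE σ d0 K0 (h s) := by
    intro s
    have h1 : MajE σ (κ + 1) (|C| * (κ.factorial : ℝ)) (h s) := by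
      refine MajE_base (abs_nonneg C) fun m => (hC s m).trans ?_
      exact mul_le_mul_of_nonneg_right (le_abs_self C) (by positivity)
    exact MajE_mono hCf (by omega) (by rw [hK0]; linarith) h1
  obtain ⟨hJ1, hi⟩ := mem_Ix.1 ht
  have hn0 : (0 : ℝ) ≤ (n : ℝ) / W := by positivity
  have hj0 : (0 : ℝ) ≤ j := Nat.cast_nonneg j
  have hJr : (1 : ℝ) ≤ J := by exact_mod_cast hJ
  have hWr : (1 : ℝ) ≤ W := by exact_mod_cast hW
  have hln : 1 ≤ 2 * Real.log (2 + (n : ℝ) / W) := SA2_log _ hn0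
  have hlj : 1 ≤ 2 * Real.log (2 + (j : ℝ)) := SA2_log _ hj0
  obtain ⟨A, hA⟩ : ∃ A : ℝ, A = (3 * d0 + 2 * Real.log K0) * J * Real.log (2 + (j : ℝ)) :=
    ⟨_, rfl⟩
  obtain ⟨B, hB⟩ : ∃ B : ℝ, B = (9 * d0 + 6 * Real.log K0) * ((W : ℝ) + J) *
    Real.log (2 + (n : ℝ) / W) := ⟨_, rfl⟩
  have hterm : ∀ be ∈ (subs t.1).filter (fun be => ∑ s, be s = l),
      ‖σ ((-1) ^ l * (bc t.1 be : E) * (coeff j (Hm h be) *
        coeff n (LvR E W t.2 * Hm h (t.1 - be))))‖ ≤
      2 ^ J * (Real.exp A * Real.exp B) := by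
    intro be hbe
    have hbs := (Finset.mem_filter.1 hbe).1
    have hs := sum_sub_subs hbs
    have hb1 : ∑ s, be s ≤ J := by omega
    have hb2 : ∑ s, (t.1 - be) s ≤ J := by omega
    rw [map_mul, map_mul, map_mul, map_pow, map_neg, map_one, map_natCast, norm_mul, norm_mul,
      norm_mul, norm_pow, norm_neg, norm_one, one_pow, one_mul, Complex.norm_natCast]
    have hbc : ((bc t.1 be : ℕ) : ℝ) ≤ 2 ^ J := by
      have := bc_le t.1 be
      rw [hJ1] at this
      exact_mod_cast this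
    refine mul_le_mul hbc ?_ (by positivity) (by positivity)
    refine mul_le_mul ?_ ?_ (norm_nonneg _) (Real.exp_pos _).le
    · rw [hA]
      exact SE2_one h d0 hd01 K0 hK01 hh be J hJ hb1 j
    · rw [hB]
      exact SE2_two h d0 hd01 K0 hK01 hh e4' edl' (t.1 - be) J W t.2 hW hi hb2 n
  unfold gcR
  rw [map_sum]
  refine (norm_sum_le _ _).trans ((Finset.sum_le_sum hterm).trans ?_)
  rw [Finset.sum_const, nsmul_eq_mul]
  have hcard : ((((subs t.1).filter (fun be => ∑ s, be s = l)).card : ℕ) : ℝ) ≤ 2 ^ J := by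
    have h1 := (Finset.card_filter_le (subs t.1) (fun be => ∑ s, be s = l)).trans
      (subs_card_le t.1)
    rw [hJ1] at h1
    exact_mod_cast h1
  have h2J : (2 : ℝ) ^ J ≤ Real.exp (J * 1) := by
    rw [Real.exp_nat_mul]
    apply pow_le_pow_left₀ (by norm_num)
    have := Real.add_one_le_exp (1 : ℝ)
    linarith
  calc ((((subs t.1).filter (fun be => ∑ s, be s = l)).card : ℕ) : ℝ) *
        (2 ^ J * (Real.exp A * Real.exp B))
      ≤ Real.exp (J * 1) * (Real.exp (J * 1) * (Real.exp A * Real.exp B)) := by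
        refine mul_le_mul (hcard.trans h2J) ?_ (by positivity) (Real.exp_pos _).le
        exact mul_le_mul_of_nonneg_right h2J (by positivity)
    _ = Real.exp (J * 1 + (J * 1 + (A + B))) := by
        rw [Real.exp_add, Real.exp_add, Real.exp_add]
    _ ≤ _ := by
        apply Real.exp_le_exp.2
        rw [hA, hB]
        have q1 : (J : ℝ) * 1 ≤ J * (2 * Real.log (2 + (j : ℝ))) :=
          mul_le_mul_of_nonneg_left hlj (by linarith)
        have q2 : 0 ≤ Real.log (2 + (j : ℝ)) := by linarith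
        have q3 : 0 ≤ Real.log (2 + (n : ℝ) / W) := by linarith
        have q4 : 0 ≤ (J : ℝ) * Real.log (2 + (j : ℝ)) := mul_nonneg (by linarith) q2
        have q5 : 0 ≤ ((W : ℝ) + J) * Real.log (2 + (n : ℝ) / W) :=
          mul_nonneg (by linarith) q3
        have q6 : 0 ≤ (6 * (d0 : ℝ) + 4 * Real.log K0) * (J * Real.log (2 + (j : ℝ))) :=
          mul_nonneg (by linarith) q4
        nlinarith

end H18G
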