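import Pool.Agent.Lib.H18G.Defs
import Pool.Agent.Lib.H36D.S2
import Pool.Agent.Lib.H53M.SC

/-!
# H18G, SE3: denominators of the coefficients of the auxiliary function, over a number field
-/

namespace H18G

open H53M H94M H36D PowerSeries Finset NumberField

/-- `(R, n)`-integrality. -/
def IntE {E : Type*} [Field E] (R : ℕ) (n : ℕ) (f : PowerSeries E) : Prop :=
  ∀ m ≤ n, ∃ z : 𝓞 E, (R : E) * coeff m f = algebraMap (𝓞 E) E z

section

variable {E : Type*} [Field E]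

theorem IntE_mul {R R' n : ℕ} {f g : PowerSeries E} (hf : IntE R n f) (hg : IntE R' n g) :
    IntE (R * R') n (f * g) := by
  intro m hm
  rw [coeff_mul]
  have h1 : ∀ p : ℕ × ℕ, p ∈ Finset.HasAntidiagonal.antidiagonal m →
      ∃ z : 𝓞 E, ((R * R' : ℕ) : E) * (coeff p.1 f * coeff p.2 g) = algebraMap (𝓞 E) E z := by
    intro p hp
    have hp' := Finset.HasAntidiagonal.mem_antidiagonal.1 hp
    obtain ⟨a, ha⟩ := hf p.1 (by omega)
    obtain ⟨b, hb⟩ := hg p.2 (by omega)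
    exact ⟨a * b, by rw [Nat.cast_mul, map_mul, ← ha, ← hb]; ring⟩
  choose! z hz using h1
  refine ⟨∑ p ∈ Finset.HasAntidiagonal.antidiagonal m, z p, ?_⟩
  rw [Finset.mul_sum, map_sum]
  exact Finset.sum_congr rfl fun p hp => hz p hp

theorem IntE_toE (n : ℕ) (f : PowerSeries ℤ) :
    IntE 1 n (PowerSeries.map (Int.castRingHom E) f) := by
  intro m _
  exact ⟨(coeff m f : ℤ), by simp⟩

theorem IntE_one (n : ℕ) : IntE 1 n (1 : PowerSeries E) := by
  have h := IntE_toE (E := E) n 1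
  rwa [map_one] at h

theorem IntE_pow {R n : ℕ} {f : PowerSeries E} (hf : IntE R n f) (k : ℕ) :
    IntE (R ^ k) n (f ^ k) := by
  induction k with
  | zero => simpa using IntE_one n
  | succ k ih => rw [pow_succ, pow_succ]; exact IntE_mul ih hf

theorem IntE_LvR (n W i : ℕ) : IntE 1 n (LvR E W i) := IntE_toE n _

private theorem SE3_hm [NumberField E] {r : ℕ} {h : Fin r → PowerSeries E} {C : ℝ} {κ : ℕ} {D : ℕ → ℕ}
    (H : HypE h C κ D) (N : ℕ) (g : Fin r → ℕ) : IntE ((D N) ^ (∑ s, g s)) N (Hm h g) := by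
  classical
  have hh : ∀ s, IntE (D N) N (h s) := by
    intro s k hk
    obtain ⟨z, hz0⟩ := H.den s k
    have hz : (D k : E) * coeff k (h s) = algebraMap (𝓞 E) E z := hz0
    obtain ⟨c, hc⟩ := SC_D D H.dvd hk
    refine ⟨(c : 𝓞 E) * z, ?_⟩
    rw [hc, Nat.cast_mul, map_mul, map_natCast, ← hz]
    ring
  have key : ∀ S : Finset (Fin r), IntE ((D N) ^ (∑ s ∈ S, g s)) N (∏ s ∈ S, h s ^ g s) := by
    intro S
    induction S using Finset.induction_on with
    | empty => simpa using IntE_one N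
    | insert a S ha ih =>
      rw [Finset.sum_insert ha, Finset.prod_insert ha, pow_add]
      exact IntE_mul (IntE_pow (hh a) _) ih
  exact key _

theorem gcR_int [NumberField E] {r : ℕ} {h : Fin r → PowerSeries E} {C : ℝ} {κ : ℕ} {D : ℕ → ℕ}
    (H : HypE h C κ D) (J W : ℕ) (t : (Fin r → ℕ) × ℕ) (ht : t ∈ Ix r J W) (N n j l : ℕ)
    (hn : n ≤ N) (hj : j ≤ N) :
    ∃ z : 𝓞 E, ((D N : E)) ^ J * gcR h W n j l t = algebraMap (𝓞 E) E z := by
  have hJ := (mem_Ix.mp ht).1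
  have h1 : ∀ be : Fin r → ℕ, be ∈ (subs t.1).filter (fun be => ∑ s, be s = l) →
      ∃ z : 𝓞 E, ((D N : E)) ^ J * ((-1) ^ l * (bc t.1 be : E) *
        (coeff j (Hm h be) * coeff n (LvR E W t.2 * Hm h (t.1 - be)))) =
          algebraMap (𝓞 E) E z := by
    intro be hbe
    have hb := (Finset.mem_filter.mp hbe).1
    have hs := sum_sub_subs hb
    obtain ⟨z1, hz1⟩ := SE3_hm H N be j hj
    obtain ⟨z2, hz2⟩ := IntE_mul (IntE_LvR N W t.2) (SE3_hm H N (t.1 - be)) n hn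
    refine ⟨(-1) ^ l * (bc t.1 be : 𝓞 E) * (z1 * z2), ?_⟩
    have e : ((D N : E)) ^ J = ((D N : E)) ^ (∑ s, (t.1 - be) s) * ((D N : E)) ^ (∑ s, be s) := by
      rw [← pow_add, hs, hJ]
    rw [e]
    simp only [map_mul, map_pow, map_neg, map_one, map_natCast]
    rw [← hz1, ← hz2]
    push_cast
    ring
  choose! z hz using h1
  refine ⟨∑ be ∈ (subs t.1).filter (fun be => ∑ s, be s = l), z be, ?_⟩
  unfold gcR
  rw [Finset.mul_sum, map_sum]
  exact Finset.sum_congr rfl fun be hbe => hz be hbe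

theorem ggR_int [NumberField E] {r : ℕ} {h : Fin r → PowerSeries E} {C : ℝ} {κ : ℕ} {D : ℕ → ℕ}
    (H : HypE h C κ D) (J W : ℕ) (x : (Fin r → ℕ) × ℕ → ℤ) (N n j l : ℕ)
    (hn : n ≤ N) (hj : j ≤ N) :
    ∃ z : 𝓞 E, ((D N : E)) ^ J * ggR h J W x n j l = algebraMap (𝓞 E) E z := by
  have h1 : ∀ t : (Fin r → ℕ) × ℕ, t ∈ Ix r J W →
      ∃ z : 𝓞 E, ((D N : E)) ^ J * gcR h W n j l t = algebraMap (𝓞 E) E z := fun t ht =>
    gcR_int H J W t ht N n j l hn hj
  choose! z hz using h1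
  refine ⟨∑ t ∈ Ix r J W, (x t : 𝓞 E) * z t, ?_⟩
  unfold ggR
  rw [Finset.mul_sum, map_sum]
  refine Finset.sum_congr rfl fun t ht => ?_
  rw [map_mul, map_intCast, ← hz t ht]
  ring

theorem ggR_zero {r : ℕ} (h : Fin r → PowerSeries E) (J W : ℕ) (x : (Fin r → ℕ) × ℕ → ℤ)
    (n : ℕ) : ggR h J W x n 0 0 = coeff n (AhR h J W x) := by
  unfold ggR AhR
  rw [map_sum]
  refine Finset.sum_congr rfl fun t _ => ?_
  rw [map_smul, smul_eq_mul]
  congr 1
  have hf : (subs t.1).filter (fun be => ∑ s, be s = 0) = {0} := by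
    ext be
    rw [Finset.mem_filter, mem_subs, Finset.mem_singleton]
    constructor
    · rintro ⟨_, h2⟩
      funext s
      exact (Finset.sum_eq_zero_iff.mp h2) s (Finset.mem_univ s)
    · rintro rfl
      exact ⟨fun s => Nat.zero_le _, by simp⟩
  unfold gcR
  rw [hf, Finset.sum_singleton]
  simp [bc, Hm]

theorem ggR_big {r : ℕ} (h : Fin r → PowerSeries E) (J W : ℕ) (x : (Fin r → ℕ) × ℕ → ℤ)
    (n j l : ℕ) (hl : J < l) : ggR h J W x n j l = 0 := by
  unfold ggR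
  refine Finset.sum_eq_zero fun t ht => ?_
  have hJ := (mem_Ix.mp ht).1
  have hf : (subs t.1).filter (fun be => ∑ s, be s = l) = ∅ := by
    refine Finset.filter_eq_empty_iff.mpr fun be hbe hs => ?_
    have h1 := sum_sub_subs hbe
    omega
  unfold gcR
  rw [hf, Finset.sum_empty, mul_zero]

/-- For `j = 0` only `l = 0` occurs, if the `h_s` have no constant term. -/
theorem ggR_z_zero {r : ℕ} {h : Fin r → PowerSeries E} (h0 : ∀ s, coeff 0 (h s) = 0) (J W : ℕ)
    (x : (Fin r → ℕ) × ℕ → ℤ) (n l : ℕ) (hl : 1 ≤ l) : ggR h J W x n 0 l = 0 := by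
  unfold ggR
  refine Finset.sum_eq_zero fun t _ => ?_
  have h1 : gcR h W n 0 l t = 0 := by
    unfold gcR
    refine Finset.sum_eq_zero fun be hbe => ?_
    have hs := (Finset.mem_filter.mp hbe).2
    obtain ⟨s, hs1⟩ : ∃ s, be s ≠ 0 := by
      by_contra hno
      push Not at hno
      simp [hno] at hs
      omega
    have h2 : coeff 0 (Hm h be) = 0 := by
      rw [coeff_zero_eq_constantCoeff_apply]
      unfold Hm
      rw [map_prod]
      refine Finset.prod_eq_zero (Finset.mem_univ s) ?_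
      rw [map_pow, ← coeff_zero_eq_constantCoeff_apply, h0 s, zero_pow hs1]
    rw [h2, zero_mul, mul_zero]
  rw [h1, mul_zero]

end

end H18G
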