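import Pool.Agent.Lib.H18G.SE1
import Pool.Agent.Lib.H18G.SE2
import Pool.Agent.Lib.H18G.SE3
import Pool.Agent.Lib.H53M.SG

/-!
# H18G, SE4: the auxiliary function over a number field (part (S) of Theorem D, general `E`)

The unknowns are integers, the conditions are in `E`, hence `[E : ℚ]` conditions over `ℚ` each.
-/

namespace H18G

open H53M H94M H36D PowerSeries Finset NumberField Module

/-- The choice of `X₀`. -/
private theorem SE4_large (c1 : ℝ) (hc1 : 0 < c1) (A B : ℝ) : ∃ X₀ : ℕ, ∀ X ≥ X₀,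
    1 ≤ X ∧ 1 ≤ c1 * (X : ℝ) ∧ A ≤ c1 * X ∧ B + Real.log (2 * c1 * X + 2) ≤ c1 * X := by
  have h1 : ∀ᶠ X : ℕ in Filter.atTop, 1 / c1 ≤ (X : ℝ) :=
    tendsto_natCast_atTop_atTop.eventually_ge_atTop _
  have h2 : ∀ᶠ X : ℕ in Filter.atTop, A / c1 ≤ (X : ℝ) :=
    tendsto_natCast_atTop_atTop.eventually_ge_atTop _
  have h3 : ∀ᶠ X : ℕ in Filter.atTop, (B + Real.log (2 * c1 + 2)) / (c1 / 2) ≤ (X : ℝ) :=
    tendsto_natCast_atTop_atTop.eventually_ge_atTop _
  have h4 := SG_W 0 c1 hc1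
  have h5 := Filter.eventually_ge_atTop 1
  obtain ⟨X₀, h⟩ := Filter.eventually_atTop.1
    (h1.and (h2.and (h3.and (h4.and (h5 : ∀ᶠ X : ℕ in Filter.atTop, 1 ≤ X)))))
  refine ⟨X₀, fun X hX => ?_⟩
  obtain ⟨a1, a2, a3, a4, a5⟩ := h X hX
  rw [div_le_iff₀ hc1] at a1 a2
  rw [div_le_iff₀ (by positivity)] at a3
  have hX0 : (0 : ℝ) ≤ X := Nat.cast_nonneg X
  refine ⟨a5, by linarith, by linarith, ?_⟩
  have e1 : Real.log (2 * c1 * X + 2) ≤ Real.log (2 * c1 + 2) + Real.log ((X : ℝ) + 1) := by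
    rw [← Real.log_mul (by positivity) (by positivity)]
    apply Real.log_le_log (by positivity)
    nlinarith
  have e2 : Real.log ((0 : ℝ) + 1) = 0 := by rw [zero_add, Real.log_one]
  rw [e2] at a4
  nlinarith

private theorem SE4_pow (J r : ℕ) (hJ : 1 ≤ J) (hr : 1 ≤ r) :
    (J : ℝ) ^ (r - 1) * ((J : ℝ) ^ 4 / (J : ℝ) ^ r) = (J : ℝ) ^ 3 := by
  obtain ⟨s, rfl⟩ : ∃ s, r = s + 1 := ⟨r - 1, by omega⟩
  have hJ0 : (J : ℝ) ≠ 0 := by
    have : J ≠ 0 := by omega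
    exact_mod_cast this
  rw [Nat.add_sub_cancel]
  field_simp
  ring

/-- **The auxiliary function over a number field.** -/
theorem auxE (E : Type*) [Field E] [NumberField E] (r : ℕ) (hr : 1 ≤ r) (C : ℝ) (κ CT : ℕ)
    (hCT : 1 ≤ CT) :
    ∃ C0 : ℝ, 1 ≤ C0 ∧ ∀ (h : Fin r → PowerSeries E) (D : ℕ → ℕ), HypE h C κ D →
      ∀ J K : ℕ, 1 ≤ J → CT * J ≤ K → ∃ η : ℝ, 0 < η ∧ ∃ X₀ : ℕ, ∀ X ≥ X₀,
        Real.log (D (K * X)) ≤ η * X → ∀ p : ℕ, p.Prime →
        ∃ (W : ℕ) (x : (Fin r → ℕ) × ℕ → ℤ), 1 ≤ W ∧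
          (W : ℝ) ≤ C0 * ((J : ℝ) ^ 4 / (J : ℝ) ^ r) * X ∧
          (∃ t ∈ Ix r J W, ¬ (p : ℤ) ∣ x t) ∧
          (∀ n j l : ℕ, n + j * X ≤ CT * J * X → ggR h J W x n j l = 0) ∧
          ∀ n j l : ℕ, n ≤ K * X → j ≤ K →
            ∃ z : 𝓞 E, ((D (K * X) : E)) ^ J * ggR h J W x n j l = algebraMap (𝓞 E) E z ∧
              ∀ y : ℝ, (CT : ℝ) * J ≤ y → (n : ℝ) ≤ y * X → (j : ℝ) ≤ y →
                ∀ σ : E →+* ℂ, ‖σ (algebraMap (𝓞 E) E z)‖ ≤
                  Real.exp (C0 * ((J : ℝ) ^ 4 / (J : ℝ) ^ r) *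
                    Real.log (2 + y * (J : ℝ) ^ r) * X) := by
  obtain ⟨C4, hC4, hg⟩ := gcR_bound r C κ
  obtain ⟨cE, hcE, hsieg⟩ := siegelE E
  have hdE : 1 ≤ finrank ℚ E := finrank_pos
  obtain ⟨dE, hdEe⟩ : ∃ dE : ℕ, dE = finrank ℚ E := ⟨_, rfl⟩
  rw [← hdEe] at hdE hsieg
  have hdEr : (1 : ℝ) ≤ dE := by exact_mod_cast hdE
  have hF : (1 : ℝ) ≤ ((r - 1).factorial : ℝ) := by
    exact_mod_cast Nat.factorial_pos (r - 1)
  have hCTr : (1 : ℝ) ≤ CT := by exact_mod_cast hCT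
  have hCF : (1 : ℝ) ≤ (CT : ℝ) ^ 2 * ((r - 1).factorial : ℝ) * dE :=
    one_le_mul_of_one_le_of_one_le
      (one_le_mul_of_one_le_of_one_le (one_le_pow₀ hCTr) hF) hdEr
  refine ⟨320 * C4 * ((CT : ℝ) ^ 2 * ((r - 1).factorial : ℝ) * dE), by nlinarith, ?_⟩
  intro h D H J K hJ hK
  have hJr : (1 : ℝ) ≤ J := by exact_mod_cast hJ
  have hJ0 : (0 : ℝ) < J := by linarith
  have hK1 : 1 ≤ K := le_trans (Nat.mul_pos hCT hJ) hK
  have hKr : (1 : ℝ) ≤ K := by exact_mod_cast hK1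
  obtain ⟨A, hA⟩ : ∃ A : ℝ, A = (J : ℝ) ^ 4 / (J : ℝ) ^ r := ⟨_, rfl⟩
  have hA0 : 0 < A := by rw [hA]; positivity
  have hAJ : 1 ≤ A * (J : ℝ) ^ r := by
    rw [hA, div_mul_cancel₀ _ (by positivity)]
    exact one_le_pow₀ hJr
  obtain ⟨CF, hCFe⟩ : ∃ CF : ℝ, CF = (CT : ℝ) ^ 2 * ((r - 1).factorial : ℝ) * dE := ⟨_, rfl⟩
  rw [← hCFe] at hCF
  rw [← hA, ← hCFe]
  obtain ⟨c1, hc1e⟩ : ∃ c1 : ℝ, c1 = 16 * CF * A := ⟨_, rfl⟩
  have hc1A : A ≤ c1 := by rw [hc1e]; nlinarith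
  have hc1 : 0 < c1 := by linarith
  obtain ⟨L, hL⟩ : ∃ L : ℝ → ℝ, ∀ y, L y = Real.log (2 + y * (J : ℝ) ^ r) := ⟨_, fun _ => rfl⟩
  have hL1 : ∀ y, 0 ≤ y → 1 ≤ 2 * L y := by
    intro y hy
    rw [hL]
    exact SA2_log _ (by positivity)
  have hlogcR : 0 ≤ Real.log cE := Real.log_nonneg hcE
  obtain ⟨X₀, hX₀⟩ := SE4_large c1 hc1 (J + C4 * J * Real.log (2 + K) + Real.log cE)
    (r * Real.log (J + 1))
  refine ⟨c1 / J, by positivity, X₀, fun X hX hDX p hp => ?_⟩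
  obtain ⟨hX1, h1c, hAc, hBc⟩ := hX₀ X hX
  have hXr : (1 : ℝ) ≤ X := by exact_mod_cast hX1
  obtain ⟨W, hW⟩ : ∃ W : ℕ, W = ⌈c1 * (X : ℝ)⌉₊ := ⟨_, rfl⟩
  have hW1 : c1 * (X : ℝ) ≤ W := by rw [hW]; exact Nat.le_ceil _
  have hW2 : (W : ℝ) < c1 * X + 1 := by
    rw [hW]; exact Nat.ceil_lt_add_one (by positivity)
  have hWpos : (1 : ℝ) ≤ W := by linarith
  have hWn : 1 ≤ W := by exact_mod_cast hWpos
  have hlogK : 0 ≤ Real.log (2 + (K : ℝ)) := Real.log_nonneg (by linarith)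
  have hlk : 0 ≤ C4 * J * Real.log (2 + (K : ℝ)) := by positivity
  -- the bound for the coefficients
  obtain ⟨B, hB⟩ : ∃ B : ℝ → ℝ, ∀ y, B y = Real.exp (C4 * ((W : ℝ) + J) * L y +
    C4 * J * Real.log (2 + (K : ℝ))) := ⟨_, fun _ => rfl⟩
  have hB1 : ∀ y, 0 ≤ y → 1 ≤ B y := by
    intro y hy
    rw [hB]
    apply Real.one_le_exp
    have := hL1 y hy
    have : 0 ≤ L y := by linarith
    positivity
  have hBm : ∀ y y', 0 ≤ y → y ≤ y' → B y ≤ B y' := by
    intro y y' hy hyy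
    rw [hB, hB]
    apply Real.exp_le_exp.2
    have h1 : L y ≤ L y' := by
      rw [hL, hL]
      apply Real.log_le_log (by positivity)
      have : y * (J : ℝ) ^ r ≤ y' * (J : ℝ) ^ r := mul_le_mul_of_nonneg_right hyy (by positivity)
      linarith
    have h2 : C4 * ((W : ℝ) + J) * L y ≤ C4 * ((W : ℝ) + J) * L y' :=
      mul_le_mul_of_nonneg_left h1 (by positivity)
    linarith
  have hgB : ∀ t ∈ Ix r J W, ∀ n j l : ℕ, j ≤ K → ∀ y : ℝ, 0 ≤ y → (n : ℝ) ≤ y * X →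
      ∀ σ : E →+* ℂ, ‖σ (gcR h W n j l t)‖ ≤ B y := by
    intro t ht n j l hj y hy hn' σ
    refine (hg E σ h (H.growth σ) J W hJ hWn t ht n j l).trans ?_
    rw [hB]
    apply Real.exp_le_exp.2
    have hj' : (j : ℝ) ≤ K := by exact_mod_cast hj
    have e1 : (n : ℝ) / W ≤ y * (J : ℝ) ^ r := by
      rw [div_le_iff₀ (by linarith)]
      have e2 : y * X ≤ y * (J : ℝ) ^ r * (c1 * X) := by
        have e3 : (1 : ℝ) ≤ (J : ℝ) ^ r * c1 := by
          have : A * (J : ℝ) ^ r ≤ c1 * (J : ℝ) ^ r :=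
            mul_le_mul_of_nonneg_right hc1A (by positivity)
          linarith
        have e4 : y * X * 1 ≤ y * X * ((J : ℝ) ^ r * c1) :=
          mul_le_mul_of_nonneg_left e3 (by positivity)
        linarith
      have e5 : y * (J : ℝ) ^ r * (c1 * X) ≤ y * (J : ℝ) ^ r * W :=
        mul_le_mul_of_nonneg_left hW1 (by positivity)
      linarith
    have e6 : Real.log (2 + (n : ℝ) / W) ≤ L y := by
      rw [hL]
      apply Real.log_le_log (by positivity)
      linarith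
    have e7 : Real.log (2 + (j : ℝ)) ≤ Real.log (2 + (K : ℝ)) :=
      Real.log_le_log (by positivity) (by linarith)
    have e8 : C4 * ((W : ℝ) + J) * Real.log (2 + (n : ℝ) / W) ≤ C4 * ((W : ℝ) + J) * L y :=
      mul_le_mul_of_nonneg_left e6 (by positivity)
    have e9 : C4 * J * Real.log (2 + (j : ℝ)) ≤ C4 * J * Real.log (2 + (K : ℝ)) :=
      mul_le_mul_of_nonneg_left e7 (by positivity)
    linarith
  -- the conditions
  obtain ⟨Q, hQ⟩ : ∃ Q : Finset (ℕ × ℕ × ℕ), Q = (range (CT * J * X + 1)) ×ˢ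
    ((range (CT * J + 1)) ×ˢ (range (J + 1))) := ⟨_, rfl⟩
  have hmemQ : ∀ c ∈ Q, c.1 ≤ CT * J * X ∧ c.2.1 ≤ CT * J ∧ c.2.2 ≤ J := by
    intro c hc
    rw [hQ, mem_product, mem_product, mem_range, mem_range, mem_range] at hc
    omega
  have hQcard : (Q.card : ℝ) ≤ 8 * (CT : ℝ) ^ 2 * (J : ℝ) ^ 3 * X := by
    rw [hQ, card_product, card_product, card_range, card_range, card_range]
    push_cast
    have a1 : (CT : ℝ) * J * X + 1 ≤ 2 * (CT * J * X) := by
      have : (1 : ℝ) ≤ CT * J * X :=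
        one_le_mul_of_one_le_of_one_le (one_le_mul_of_one_le_of_one_le hCTr hJr) hXr
      linarith
    have a2 : (CT : ℝ) * J + 1 ≤ 2 * (CT * J) := by
      have : (1 : ℝ) ≤ CT * J := one_le_mul_of_one_le_of_one_le hCTr hJr
      linarith
    have a3 : (J : ℝ) + 1 ≤ 2 * J := by linarith
    calc ((CT : ℝ) * J * X + 1) * (((CT : ℝ) * J + 1) * (J + 1))
        ≤ (2 * (CT * J * X)) * ((2 * (CT * J)) * (2 * J)) := by
          apply mul_le_mul a1 _ (by positivity) (by positivity)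
          exact mul_le_mul a2 a3 (by positivity) (by positivity)
      _ = 8 * (CT : ℝ) ^ 2 * (J : ℝ) ^ 3 * X := by ring
  have hIcard : 16 * (CT : ℝ) ^ 2 * (J : ℝ) ^ 3 * X * dE ≤ ((Ix r J W).card : ℝ) := by
    refine le_trans ?_ (card_Ix_ge r J W hr)
    have b1 : (J : ℝ) ^ (r - 1) ≤ ((J : ℝ) + 1) ^ (r - 1) :=
      pow_le_pow_left₀ hJ0.le (by linarith) _
    have b2 : (J : ℝ) ^ (r - 1) / ((r - 1).factorial : ℝ) * (c1 * X) ≤
        ((J : ℝ) + 1) ^ (r - 1) / ((r - 1).factorial : ℝ) * ((W : ℝ) + 1) := by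
      apply mul_le_mul _ (by linarith) (by positivity) (by positivity)
      exact div_le_div_of_nonneg_right b1 (by positivity)
    refine le_trans (le_of_eq ?_) b2
    have b3 := SE4_pow J r hJ hr
    rw [← hA] at b3
    rw [hc1e, hCFe]
    have hF0 : ((r - 1).factorial : ℝ) ≠ 0 := by positivity
    field_simp
    rw [← b3]
  have hQS : 2 * (dE * Q.card) ≤ (Ix r J W).card := by
    have h1 : (dE : ℝ) * (Q.card : ℝ) ≤ dE * (8 * (CT : ℝ) ^ 2 * (J : ℝ) ^ 3 * X) :=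
      mul_le_mul_of_nonneg_left hQcard (by linarith)
    have : (2 : ℝ) * ((dE : ℝ) * (Q.card : ℝ)) ≤ ((Ix r J W).card : ℝ) := by linarith
    exact_mod_cast this
  have hQ1 : 1 ≤ Q.card := by
    rw [hQ, card_product, card_product, card_range, card_range, card_range]
    exact Nat.mul_pos (by omega) (Nat.mul_pos (by omega) (by omega))
  have hCK : CT * J * X ≤ K * X := Nat.mul_le_mul_right X hK
  have hKX : K ≤ K * X := Nat.le_mul_of_pos_right K hX1
  obtain ⟨R, hR⟩ : ∃ R : ℕ, R = D (K * X) ^ J := ⟨_, rfl⟩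
  have hR0 : 0 < R := by rw [hR]; exact Nat.pow_pos (H.pos _)
  obtain ⟨x, hx1, hx2, hx3⟩ := hsieg (Ix r J W) Q hQ1 hQS
    (fun c t => gcR h W c.1 c.2.1 c.2.2 t) R hR0 (B ((CT : ℝ) * J)) (hB1 _ (by positivity))
    (fun c hc t ht => by
      obtain ⟨c1', c2', _⟩ := hmemQ c hc
      obtain ⟨z, hz⟩ := gcR_int H J W t ht (K * X) c.1 c.2.1 c.2.2 (by omega) (by omega)
      refine ⟨z, ?_⟩
      rw [hR]
      push_cast
      exact hz)
    (fun c hc t ht => by
      obtain ⟨c1', c2', _⟩ := hmemQ c hc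
      exact hgB t ht c.1 c.2.1 c.2.2 (by omega) _ (by positivity) (by exact_mod_cast c1')) p hp
  obtain ⟨U, hU⟩ : ∃ U : ℝ, U = ((Ix r J W).card : ℝ) := ⟨_, rfl⟩
  rw [← hU] at hx2
  have hR1 : (1 : ℝ) ≤ R := by exact_mod_cast hR0
  have hU0 : 0 < U := by
    have : (0 : ℝ) < 16 * (CT : ℝ) ^ 2 * (J : ℝ) ^ 3 * X * dE := by positivity
    rw [hU]
    linarith
  refine ⟨W, x, hWn, ?_, hx1, ?_, ?_⟩
  · have e1 : c1 * X + 1 ≤ 2 * (c1 * X) := by linarith
    have e2 : 2 * (c1 * X) ≤ 320 * C4 * CF * A * X := by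
      rw [hc1e]
      have e3 : 32 * (CF * A * X) ≤ 320 * C4 * (CF * A * X) :=
        mul_le_mul_of_nonneg_right (by linarith) (by positivity)
      linarith
    linarith
  · intro n j l hn
    by_cases hl : l ≤ J
    · have h2 : j * X ≤ CT * J * X := by omega
      have hj : j ≤ CT * J := Nat.le_of_mul_le_mul_right h2 hX1
      have hmem : ((n, j, l) : ℕ × ℕ × ℕ) ∈ Q := by
        rw [hQ, mem_product, mem_product, mem_range, mem_range, mem_range]
        simp only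
        omega
      exact hx3 _ hmem
    · exact ggR_big h J W x n j l (by omega)
  · intro n j l hn hj
    obtain ⟨z, hz⟩ := ggR_int H J W x (K * X) n j l hn (by omega)
    refine ⟨z, hz, fun y hy hny hjy σ => ?_⟩
    have hy0 : 0 ≤ y := le_trans (by positivity) hy
    have hgg : ‖σ (ggR h J W x n j l)‖ ≤ U * ((U * (R * (cE * B y))) * B y) := by
      unfold ggR
      rw [map_sum]
      refine (norm_sum_le _ _).trans ?_
      have h1 : ∀ t ∈ Ix r J W, ‖σ ((x t : E) * gcR h W n j l t)‖ ≤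
          (U * (R * (cE * B y))) * B y := by
        intro t ht
        rw [map_mul, map_intCast, norm_mul, Complex.norm_intCast]
        have h2 : |(x t : ℝ)| ≤ U * (R * (cE * B y)) := by
          refine (hx2 t).trans ?_
          have h3 := hBm _ _ (by positivity) hy
          have h4 : cE * B ((CT : ℝ) * J) ≤ cE * B y := mul_le_mul_of_nonneg_left h3 (by linarith)
          exact mul_le_mul_of_nonneg_left (mul_le_mul_of_nonneg_left h4 (by linarith)) hU0.le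
        have h5 := hB1 y hy0
        exact mul_le_mul h2 (hgB t ht n j l hj y hy0 hny σ) (norm_nonneg _) (by positivity)
      refine (sum_le_sum h1).trans (le_of_eq ?_)
      rw [sum_const, nsmul_eq_mul, ← hU]
    have hzb : ‖σ (algebraMap (𝓞 E) E z)‖ ≤ cE * (U * (R * B y)) ^ 2 := by
      rw [← hz, map_mul, norm_mul, map_pow, map_natCast, norm_pow, Complex.norm_natCast]
      have hRD : (D (K * X) : ℝ) ^ J = R := by
        rw [hR]
        push_cast
        rfl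
      rw [hRD]
      calc (R : ℝ) * ‖σ (ggR h J W x n j l)‖ ≤ R * (U * ((U * (R * (cE * B y))) * B y)) :=
            mul_le_mul_of_nonneg_left hgg (by linarith)
        _ = cE * (U * (R * B y)) ^ 2 := by ring
    refine hzb.trans ?_
    -- logarithms
    have hUexp : U ≤ Real.exp (c1 * X) := by
      have h1 : U ≤ ((J : ℝ) + 1) ^ r * ((W : ℝ) + 1) := by
        rw [hU]
        exact_mod_cast card_Ix_le r J W
      have h2 : (W : ℝ) + 1 ≤ 2 * c1 * X + 2 := by nlinarith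
      have h3 : ((J : ℝ) + 1) ^ r * ((W : ℝ) + 1) ≤ ((J : ℝ) + 1) ^ r * (2 * c1 * X + 2) :=
        mul_le_mul_of_nonneg_left h2 (by positivity)
      have h4 : ((J : ℝ) + 1) ^ r * (2 * c1 * X + 2) =
          Real.exp (r * Real.log (J + 1) + Real.log (2 * c1 * X + 2)) := by
        rw [Real.exp_add, Real.exp_log (by positivity), Real.exp_nat_mul,
          Real.exp_log (by positivity)]
      rw [h4] at h3
      exact h1.trans (h3.trans (Real.exp_le_exp.2 hBc))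
    have hRexp : (R : ℝ) ≤ Real.exp (c1 * X) := by
      have h2 : (0 : ℝ) < D (K * X) := by exact_mod_cast H.pos _
      have h3 : (R : ℝ) = Real.exp (J * Real.log (D (K * X))) := by
        rw [Real.exp_nat_mul, Real.exp_log h2, hR]
        push_cast
        rfl
      rw [h3]
      apply Real.exp_le_exp.2
      calc (J : ℝ) * Real.log (D (K * X)) ≤ J * (c1 / J * X) :=
            mul_le_mul_of_nonneg_left hDX hJ0.le
        _ = c1 * X := by field_simp
    have hcEexp : cE ≤ Real.exp (c1 * X) := by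
      rw [← Real.log_le_iff_le_exp (by linarith)]
      linarith
    have hLy := hL1 y hy0
    have hBexp : B y ≤ Real.exp (3 * C4 * (c1 * X) * L y + c1 * X) := by
      rw [hB]
      apply Real.exp_le_exp.2
      have h1 : (W : ℝ) + J ≤ 3 * (c1 * X) := by linarith
      have h2 : C4 * ((W : ℝ) + J) * L y ≤ C4 * (3 * (c1 * X)) * L y := by
        apply mul_le_mul_of_nonneg_right _ (by linarith)
        exact mul_le_mul_of_nonneg_left h1 (by linarith)
      have h3 : C4 * J * Real.log (2 + (K : ℝ)) ≤ c1 * X := by linarith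
      linarith
    have hBy := hB1 y hy0
    have hprod : U * (R * B y) ≤
        Real.exp (c1 * X + (c1 * X + (3 * C4 * (c1 * X) * L y + c1 * X))) := by
      rw [Real.exp_add, Real.exp_add]
      apply mul_le_mul hUexp _ (by positivity) (Real.exp_pos _).le
      exact mul_le_mul hRexp hBexp (by linarith) (Real.exp_pos _).le
    have hsq : (U * (R * B y)) ^ 2 ≤
        Real.exp (c1 * X + (c1 * X + (3 * C4 * (c1 * X) * L y + c1 * X))) ^ 2 :=
      pow_le_pow_left₀ (by positivity) hprod 2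
    refine (mul_le_mul hcEexp hsq (by positivity) (Real.exp_pos _).le).trans ?_
    rw [← Real.exp_nat_mul, ← Real.exp_add]
    apply Real.exp_le_exp.2
    rw [← hL]
    have hcX : 0 ≤ c1 * X := by positivity
    have h1 : c1 * X ≤ 2 * (C4 * (c1 * X) * L y) := by
      have h2 : c1 * X * 1 ≤ c1 * X * (2 * L y) := mul_le_mul_of_nonneg_left hLy hcX
      have h3 : 1 * (c1 * X * (2 * L y)) ≤ C4 * (c1 * X * (2 * L y)) :=
        mul_le_mul_of_nonneg_right hC4 (by nlinarith)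
      linarith
    have h4 : 320 * C4 * CF * A * L y * X = 20 * (C4 * (c1 * X) * L y) := by
      rw [hc1e]
      ring
    rw [h4]
    push_cast
    linarith

end H18G
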