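import Pool.Agent.Lib.H18G.SP1

/-!
# H18G, SP2 (helper2): there are many split primes in `(X, 12 X]`
-/

namespace H18G.SP

open NumberField IsDedekindDomain CFT CFTY CFTZ CFTC Filter Topology Finset

section

variable (L : Type) [Field L] [NumberField L]

theorem card_interval [IsGalois ℚ L] (X : ℕ) (S : Finset ℕ)
    (hS : ∀ W : Pr L, X < Nm W → Nm W ≤ 12 * X → (Nm W).Prime → Nm W ∈ S) :
    (BX L (12 * X)).card ≤ (BX L X).card + Module.finrank ℚ L * (S.card + (Nat.sqrt (12 * X) + 1)) := by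
  classical
  obtain ⟨D, hD⟩ : ∃ D, D = (BX L (12 * X)).filter fun W => X < Nm W := ⟨_, rfl⟩
  have h1 : BX L (12 * X) ⊆ BX L X ∪ D := by
    intro W hW
    rw [mem_union, hD, mem_filter, mem_BX, mem_BX]
    rw [mem_BX] at hW
    by_cases h : Nm W ≤ X
    · exact Or.inl h
    · exact Or.inr ⟨hW, by omega⟩
  have h2 : D.card ≤ Module.finrank ℚ L * (D.image fun W => Nm (below ℚ W)).card := by
    refine Finset.card_le_mul_card_image D _ fun q hq => ?_
    obtain ⟨W0, hW0, hq0⟩ := mem_image.1 hq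
    refine le_trans (card_le_card fun W hW => ?_) (D5_card_le (K := ℚ) (L := L) (below ℚ W0))
    rw [mem_filter] at hW
    refine (D5_mem _ W).2 ?_
    have h3 : Nm (below ℚ W) = Nm (below ℚ W0) := by rw [hW.2, hq0]
    exact rat_inj h3
  have h3 : (D.image fun W => Nm (below ℚ W)) ⊆ S ∪ Finset.range (Nat.sqrt (12 * X) + 1) := by
    intro q hq
    obtain ⟨W, hW, rfl⟩ := mem_image.1 hq
    rw [hD, mem_filter, mem_BX] at hW
    obtain ⟨h4, h5⟩ := hW
    have hpr := rat_Nm_prime (below ℚ W)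
    have h6 : Nm W = Nm (below ℚ W) ^ H55R.fs ℚ L (below ℚ W) := D5_norm (K := ℚ) (L := L) (below ℚ W) W rfl
    have h7 : 1 ≤ H55R.fs ℚ L (below ℚ W) := H55R.fs_pos _
    rw [mem_union, mem_range]
    rcases Nat.lt_or_ge 1 (H55R.fs ℚ L (below ℚ W)) with h8 | h8
    · right
      have h9 : Nm (below ℚ W) ^ 2 ≤ Nm (below ℚ W) ^ H55R.fs ℚ L (below ℚ W) := Nat.pow_le_pow_right hpr.pos h8
      rw [← h6] at h9
      have h10 := Nat.le_sqrt'.2 (h9.trans h4)
      omega
    · left
      have h9 : H55R.fs ℚ L (below ℚ W) = 1 := le_antisymm h8 h7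
      rw [h9, pow_one] at h6
      rw [← h6] at hpr ⊢
      exact hS W h5 h4 hpr
  have h4 := card_le_card h1
  have h5 := h4.trans (card_union_le _ _)
  have h6 := (card_le_card h3).trans (card_union_le _ _)
  rw [card_range] at h6
  have h7 := Nat.mul_le_mul_left (Module.finrank ℚ L) h6
  omega

theorem count_interval [IsGalois ℚ L] : ∃ X₀ : ℕ, ∀ X ≥ X₀, ∀ S : Finset ℕ,
    (∀ W : Pr L, X < Nm W → Nm W ≤ 12 * X → (Nm W).Prime → Nm W ∈ S) →
    (X : ℝ) ≤ Module.finrank ℚ L * S.card * Real.log X := by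
  obtain ⟨n, hn⟩ : ∃ n, n = Module.finrank ℚ L := ⟨_, rfl⟩
  rw [← hn]
  have hP := Pool.Agent.Lib.PNT.primeCounting_nat_tendsto
  have hpi : ∀ᶠ x : ℕ in atTop, (Nat.primeCounting x : ℝ) ≠ 0 :=
    (c10_pi.eventually_gt_atTop 0).mono fun x hx => hx.ne'
  have hT : Tendsto (fun x : ℕ => ((BX L x).card : ℝ) * Real.log x / x) atTop (𝓝 1) := by
    have h1 := (c10_pit L).mul hP
    rw [one_mul] at h1
    refine h1.congr' ?_
    filter_upwards [hpi] with x hx
    field_simp
  have hR : Tendsto (fun x : ℕ => (n : ℝ) * ((Nat.sqrt x : ℝ) + 1) * Real.log x / x) atTop (𝓝 0) := by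
    have h1 : Tendsto (fun x : ℕ => ((Nat.sqrt x : ℝ) + 1) / (Nat.primeCounting x : ℝ)) atTop (𝓝 0) := by
      have h2 := c10_sqrt.add ((tendsto_const_nhds (x := (1 : ℝ))).div_atTop c10_pi)
      rw [add_zero] at h2
      refine h2.congr fun x => ?_
      rw [add_div]
    have h3 := (h1.mul hP).const_mul (n : ℝ)
    rw [zero_mul, mul_zero] at h3
    refine h3.congr' ?_
    filter_upwards [hpi] with x hx
    field_simp
  have hU := hT.sub hR
  rw [sub_zero] at hU
  have h12 : Tendsto (fun X : ℕ => 12 * X) atTop atTop := tendsto_id.const_mul_atTop' (by norm_num)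
  have e1 := (hU.comp h12).eventually (lt_mem_nhds (show (3 / 4 : ℝ) < 1 by norm_num))
  have e2 := hT.eventually (gt_mem_nhds (show (1 : ℝ) < 5 / 4 by norm_num))
  obtain ⟨X₀, hX₀⟩ := eventually_atTop.1 (e1.and (e2.and (eventually_ge_atTop 12)))
  refine ⟨X₀, fun X hX S hS => ?_⟩
  obtain ⟨h1, h2, h3⟩ := hX₀ X hX
  have hc := card_interval L X S hS
  rw [← hn] at hc
  have hc' : ((BX L (12 * X)).card : ℝ) ≤ (BX L X).card + n * (S.card + ((Nat.sqrt (12 * X) : ℝ) + 1)) := by
    exact_mod_cast hc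
  have hX0 : (0 : ℝ) < X := by
    have : 0 < X := by omega
    exact_mod_cast this
  simp only [Function.comp] at h1
  have hl : 0 < Real.log X := Real.log_pos (by exact_mod_cast (by omega : 1 < X))
  have hl2 : Real.log ((12 * X : ℕ) : ℝ) ≤ 2 * Real.log X := by
    push_cast
    rw [Real.log_mul (by norm_num) hX0.ne', two_mul]
    have : Real.log 12 ≤ Real.log X := Real.log_le_log (by norm_num) (by exact_mod_cast h3)
    linarith
  have hl0 : 0 ≤ Real.log ((12 * X : ℕ) : ℝ) := Real.log_nonneg (by exact_mod_cast (by omega : 1 ≤ 12 * X))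
  rw [← sub_div, lt_div_iff₀ (by positivity), ← sub_mul] at h1
  rw [div_lt_iff₀ hX0] at h2
  push_cast at h1
  obtain ⟨a, ha⟩ : ∃ a : ℝ, a = ((BX L (12 * X)).card : ℝ) - n * ((Nat.sqrt (12 * X) : ℝ) + 1) := ⟨_, rfl⟩
  rw [← ha] at h1
  obtain ⟨l, hl'⟩ : ∃ l : ℝ, l = Real.log (12 * (X : ℝ)) := ⟨_, rfl⟩
  push_cast at hl2 hl0
  rw [← hl'] at h1 hl2 hl0
  have ha0 : 0 < a := by
    by_contra h
    push Not at h
    have := mul_nonneg_of_nonpos_of_nonpos h (neg_nonpos.2 hl0)
    nlinarith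
  have h4 : a * l ≤ a * (2 * Real.log X) := mul_le_mul_of_nonneg_left hl2 ha0.le
  have h5 : a ≤ (BX L X).card + n * S.card := by
    rw [ha]
    linarith
  have h6 : a * Real.log X ≤ ((BX L X).card + n * S.card) * Real.log X := mul_le_mul_of_nonneg_right h5 hl.le
  nlinarith

end

private theorem exists_gal_fin (E : Type*) [Field E] (M : Type) [Field M] [CharZero M] [hA : Algebra ℚ M]
    [FiniteDimensional ℚ M] [Normal ℚ M] (f : E →+* M) :
    ∃ (L : Type) (_ : Field L) (_ : NumberField L) (_ : IsGalois ℚ L), Nonempty (E →+* L) := by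
  have hal : hA = DivisionRing.toRatAlgebra := Subsingleton.elim _ _
  subst hal
  have hnf : NumberField M := { to_charZero := inferInstance, to_finiteDimensional := inferInstance }
  have hgal : IsGalois ℚ M := { to_isSeparable := inferInstance, to_normal := inferInstance }
  exact ⟨M, inferInstance, hnf, hgal, ⟨f⟩⟩

private theorem exists_gal_aux (E : Type*) [Field E] [Algebra ℚ E] [FiniteDimensional ℚ E] (A : Type) [Field A]
    [CharZero A] [Algebra ℚ A] [IsAlgClosure ℚ A] :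
    ∃ (L : Type) (_ : Field L) (_ : NumberField L) (_ : IsGalois ℚ L), Nonempty (E →+* L) := by
  have hAC : IsAlgClosed A := IsAlgClosure.isAlgClosed ℚ
  have hN : Normal ℚ A := IsAlgClosure.normal ℚ A
  obtain ⟨g⟩ : Nonempty (E →ₐ[ℚ] A) := ⟨IsAlgClosed.lift⟩
  have hfin := normalClosure.is_finiteDimensional ℚ E A
  have hnor := normalClosure.normal ℚ E A
  exact @exists_gal_fin E _ (IntermediateField.normalClosure ℚ E A) _ inferInstance
    (IntermediateField.algebra' (IntermediateField.normalClosure ℚ E A)) hfin hnor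
    (g.codRestrict (IntermediateField.normalClosure ℚ E A).toSubalgebra fun x =>
      (AlgHom.fieldRange_le_normalClosure g) ⟨x, rfl⟩).toRingHom

/-- The Galois closure. -/
theorem exists_gal (E : Type*) [Field E] [NumberField E] :
    ∃ (L : Type) (_ : Field L) (_ : NumberField L) (_ : IsGalois ℚ L), Nonempty (E →+* L) := by
  have h := @exists_gal_aux E _ _ _ (AlgebraicClosure ℚ) _ _ (AlgebraicClosure.instAlgebra ℚ)
  exact h

/-- **Many split primes.** -/
theorem spl_count (E : Type*) [Field E] [NumberField E] : ∃ c : ℝ, 0 < c ∧ ∃ X₀ : ℕ, ∀ X ≥ X₀, ∀ S : Finset ℕ,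
    (∀ p : ℕ, X < p → p ≤ 12 * X → Spl E p → p ∈ S) → c * X ≤ S.card * Real.log X := by
  obtain ⟨L, _, _, _, ⟨j⟩⟩ := exists_gal E
  obtain ⟨X₀, hX₀⟩ := count_interval L
  have hn : 0 < (Module.finrank ℚ L : ℝ) := by exact_mod_cast (Module.finrank_pos (R := ℚ) (M := L))
  refine ⟨(Module.finrank ℚ L : ℝ)⁻¹, inv_pos.2 hn, X₀, fun X hX S hS => ?_⟩
  have h1 := hX₀ X hX S fun W h1 h2 h3 => hS _ h1 h2 (spl_of_galois j h3 W rfl)
  rw [inv_mul_le_iff₀ hn]
  linarith

end H18G.SP
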