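import Pool.Agent.Lib.H18G.M1
import Pool.Agent.Lib.H18G.F1E
import Pool.Agent.Lib.H18G.SE4
import Pool.Agent.Lib.H18G.EG3
import Pool.Agent.Lib.H18G.SP2

/-!
# H18G, F5E: one scale over a number field, from a zero estimate
-/

namespace H18G

open H53M H94M H36D PowerSeries NumberField

/-- The zero estimate. -/
def ZEE {E : Type*} [Field E] [NumberField E] (h : Fin 12 → PowerSeries E) : Prop :=
  ∃ C7 : ℕ, ∀ J₀ : ℕ, ∃ J : ℕ, J₀ ≤ J ∧ ∃ B : ℕ,
    ∀ (W : ℕ) (x : (Fin 12 → ℕ) × ℕ → ℤ), (∃ t ∈ Ix 12 J W, x t ≠ 0) →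
      ∃ n : ℕ, n ≤ C7 * J ^ 14 * W + B ∧ ggR h J W x n 0 0 ≠ 0

private theorem F5E_zero {R : Type*} [CommRing R] {r : ℕ} (h : Fin r → PowerSeries R)
    (h0 : ∀ σ, coeff 0 (h σ) = 0) (J W : ℕ) (x : (Fin r → ℕ) × ℕ → ℤ) (n l : ℕ) (hl : 1 ≤ l) :
    ggR h J W x n 0 l = 0 := by
  unfold ggR
  refine Finset.sum_eq_zero fun t _ => ?_
  have h1 : gcR h W n 0 l t = 0 := by
    unfold gcR
    refine Finset.sum_eq_zero fun be hbe => ?_
    have hs : ∑ s, be s = l := (Finset.mem_filter.1 hbe).2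
    have h2 : coeff 0 (Hm h be) = 0 := by
      obtain ⟨s, hs0⟩ : ∃ s, be s ≠ 0 := by
        by_contra hc
        push Not at hc
        have : ∑ s, be s = 0 := Finset.sum_eq_zero fun s _ => hc s
        omega
      unfold Hm
      rw [coeff_zero_eq_constantCoeff_apply, map_prod]
      refine Finset.prod_eq_zero (Finset.mem_univ s) ?_
      rw [map_pow, ← coeff_zero_eq_constantCoeff_apply, h0 s, zero_pow hs0]
    rw [h2]
    ring
  rw [h1, mul_zero]

private theorem F5E_log (Exc : ℕ → Prop) [DecidablePred Exc] (n : ℕ) :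
    Real.log (DG Exc 1 1 n) ≤
      (((Finset.range (n + 2)).filter fun p => p.Prime ∧ Exc p).card : ℝ) *
        Real.log ((n : ℝ) + 1) := by
  have h1 := log_DG_le Exc 1 1 n le_rfl
  rw [pow_one, one_mul] at h1
  push_cast at h1
  exact h1

/-- The bound for `T`. -/
private theorem F5E_T (μ v s0 J W X p : ℕ) (hp : p ≤ 12 * X) (hW : W ≤ J * X) :
    μ * (12 * W + J * (p * v + (p - 1))) / 12 + s0 ≤ μ * (v + 2) * J * X + s0 := by
  refine Nat.add_le_add_right ?_ _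
  have h1 : p * v + (p - 1) ≤ 12 * X * (v + 1) := by
    calc p * v + (p - 1) ≤ p * v + p := by omega
      _ = p * (v + 1) := by ring
      _ ≤ 12 * X * (v + 1) := Nat.mul_le_mul_right _ hp
  calc μ * (12 * W + J * (p * v + (p - 1))) / 12
      ≤ μ * (12 * (J * X) + J * (12 * X * (v + 1))) / 12 :=
        Nat.div_le_div_right (Nat.mul_le_mul_left _ (Nat.add_le_add (Nat.mul_le_mul_left _ hW)
          (Nat.mul_le_mul_left _ h1)))
    _ = μ * (v + 2) * J * X := by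
        rw [show μ * (12 * (J * X) + J * (12 * X * (v + 1))) = μ * (v + 2) * J * X * 12 by ring]
        exact Nat.mul_div_cancel _ (by norm_num)

variable {E : Type*} [Field E] [NumberField E]

/-- The congruences modulo the places of degree one. -/
theorem dat_congrE {r v μ s : ℕ} {h : Fin r → PowerSeries E} {b : ℕ → 𝓞 E} {Exc : ℕ → Prop}
    [DecidablePred Exc] (hD : DatE E r v μ s h b Exc) (p : ℕ) [Fact p.Prime] (hE : ¬ Exc p)
    (φ : 𝓞 E →+* ZMod p) (J W X T : ℕ) (hX : X ≤ p)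
    (hT : μ * (12 * W + J * (p * v + (p - 1))) / 12 + s ≤ T)
    (x : (Fin r → ℕ) × ℕ → ℤ) (hx : ∀ n j l : ℕ, n + j * X ≤ T → ggR h J W x n j l = 0)
    (D m : ℕ) (G : ℕ → ℕ → ℕ → 𝓞 E)
    (hG : ∀ j l : ℕ, j * p ≤ m → l ≤ J →
      (D : E) * ggR h J W x (m - j * p) j l = G (m - j * p) j l) :
    ∑ j ∈ Finset.range (m / p + 1), ∑ l ∈ Finset.range (J + 1), G (m - j * p) j l * b p ^ l ∈
      RingHom.ker φ := by
  obtain ⟨g, hg, M, hM, hGm⟩ := hD.fam p hE φ
  refine congr_of_van φ hg J W x (NeZero.ne p) (b p) ?_ D m G hG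
  exact van hM g J W X T x (NeZero.ne p) (φ (b p)) (p * v + (p - 1)) hGm
    (fun n j l hn => Red_gg_zero φ hg J W x n j l (hx n j l hn)) hX hT

theorem scaleE {v μ s : ℕ} {h : Fin 12 → PowerSeries E} {b : ℕ → 𝓞 E} {Exc : ℕ → Prop}
    [DecidablePred Exc] (hD : DatE E 12 v μ s h b Exc) (hze : ZEE h) :
    ∃ (K : ℕ) (δ : ℝ) (X₀ : ℕ), 1 ≤ K ∧ 0 < δ ∧ ∀ X : ℕ, X₀ ≤ X → δ * (X : ℝ) <
      (((Finset.range (K * X + 2)).filter fun p : ℕ => p.Prime ∧ Exc p).card : ℝ) *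
        Real.log ((K : ℝ) * X + 1) := by
  classical
  obtain ⟨C, κ, hgr⟩ := hD.growth
  have hH : HypE h C κ (DG Exc 1 1) :=
    ⟨hgr, hD.zero, DG_pos Exc 1 1, DG_dvd Exc 1 1, hD.den⟩
  obtain ⟨C7, hJ⟩ := hze
  obtain ⟨CT, hCT⟩ : ∃ CT, CT = μ * (v + 2) + s := ⟨_, rfl⟩
  have hCT1 : 1 ≤ CT := by
    have h1 : 1 ≤ μ * (v + 2) := Nat.mul_pos hD.mu_pos (by omega)
    omega
  obtain ⟨C0, hC0, hC⟩ := auxE E 12 (by norm_num) C κ CT hCT1
  obtain ⟨C6, hC6⟩ : ∃ C6 : ℕ, C6 = ⌈(C7 : ℝ) * C0⌉₊ + 1 + CT + 12 := ⟨_, rfl⟩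
  obtain ⟨c, hc, Xs, hspl⟩ := SP.spl_count E
  obtain ⟨J₀, hnum⟩ := numeric_JE C0 hC0 C6 (Module.finrank ℚ E) (c / 2) (by positivity)
  obtain ⟨J, hJJ, B, hze'⟩ := hJ (max J₀ 1)
  have hJ0 : J₀ ≤ J := le_trans (le_max_left _ _) hJJ
  have hJ1 : 1 ≤ J := le_trans (le_max_right _ _) hJJ
  obtain ⟨n1, n2⟩ := hnum J hJ0
  obtain ⟨K, hK⟩ : ∃ K, K = C6 * J ^ 6 := ⟨_, rfl⟩
  rw [← hK] at n1
  have hJ6 : 1 ≤ J ^ 6 := Nat.one_le_pow _ _ hJ1
  have hKC : C6 ≤ K := by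
    rw [hK]
    exact Nat.le_mul_of_pos_right _ hJ6
  have hK12 : 12 ≤ K := by omega
  have hCTJ : CT * J ≤ K := by
    rw [hK]
    exact Nat.mul_le_mul (by omega) (Nat.le_self_pow (by norm_num) J)
  obtain ⟨η, hη, X₁, h1⟩ := hC h (DG Exc 1 1) hH J K hJ1 hCTJ
  obtain ⟨ε, hε⟩ : ∃ ε : ℝ, ε = C0 * ((J : ℝ) ^ 4 / (J : ℝ) ^ 12) *
      Real.log (2 + (K : ℝ) * (J : ℝ) ^ 12) := ⟨_, rfl⟩
  obtain ⟨X₂, h2⟩ := EG3_false (E := E) J K (c / 2) ε (by positivity) (by rw [hε]; exact n1)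
  obtain ⟨δ, hδ⟩ : ∃ δ : ℝ, δ = min η (c / 2) := ⟨_, rfl⟩
  have hδ0 : 0 < δ := by
    rw [hδ]
    exact lt_min hη (by positivity)
  refine ⟨K, δ, max (max X₁ X₂) (max (max 6 B) Xs), by omega, hδ0, fun X hX => ?_⟩
  by_contra hcon
  rw [not_lt] at hcon
  have hX1 : X₁ ≤ X := le_trans (le_trans (le_max_left _ _) (le_max_left _ _)) hX
  have hX2 : X₂ ≤ X := le_trans (le_trans (le_max_right _ _) (le_max_left _ _)) hX
  have hX3 : 6 ≤ X := le_trans (le_trans (le_trans (le_max_left _ _) (le_max_left _ _))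
    (le_max_right _ _)) hX
  have hX4 : B ≤ X := le_trans (le_trans (le_trans (le_max_right _ _) (le_max_left _ _))
    (le_max_right _ _)) hX
  have hX5 : Xs ≤ X := le_trans (le_trans (le_max_right _ _) (le_max_right _ _)) hX
  have hX0 : (0 : ℝ) ≤ X := Nat.cast_nonneg X
  have hXr : (6 : ℝ) ≤ X := by exact_mod_cast hX3
  have hKr : (12 : ℝ) ≤ K := by exact_mod_cast hK12
  obtain ⟨D, hDdef⟩ : ∃ D : ℕ → ℕ, D = DG Exc 1 1 := ⟨_, rfl⟩
  rw [← hDdef] at h1
  have hlogD : Real.log (D (K * X)) ≤ η * X := by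
    rw [hDdef]
    refine (F5E_log Exc (K * X)).trans ?_
    push_cast
    refine hcon.trans ?_
    exact mul_le_mul_of_nonneg_right (by rw [hδ]; exact min_le_left _ _) hX0
  have hlog0 : 0 < Real.log (X : ℝ) := Real.log_pos (by linarith)
  have hcount : (((Finset.range (12 * X + 1)).filter fun p : ℕ => p.Prime ∧ Exc p).card : ℝ) *
      Real.log X ≤ c / 2 * X := by
    have a1 : (((Finset.range (12 * X + 1)).filter fun p : ℕ => p.Prime ∧ Exc p).card : ℝ) ≤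
        (((Finset.range (K * X + 2)).filter fun p : ℕ => p.Prime ∧ Exc p).card : ℝ) := by
      have a2 : 12 * X ≤ K * X := Nat.mul_le_mul_right _ hK12
      exact_mod_cast Finset.card_le_card (Finset.filter_subset_filter _
        (Finset.range_subset_range.2 (by omega)))
    have a3 : Real.log X ≤ Real.log ((K : ℝ) * X + 1) := by
      apply Real.log_le_log (by linarith)
      nlinarith
    calc _ ≤ (((Finset.range (K * X + 2)).filter fun p : ℕ => p.Prime ∧ Exc p).card : ℝ) *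
          Real.log ((K : ℝ) * X + 1) := mul_le_mul a1 a3 hlog0.le (Nat.cast_nonneg _)
      _ ≤ δ * X := hcon
      _ ≤ c / 2 * X := mul_le_mul_of_nonneg_right (by rw [hδ]; exact min_le_right _ _) hX0
  obtain ⟨W, x, hW1, hWC, hxq, hx0, hxz⟩ := h1 X hX1 hlogD 2 Nat.prime_two
  have hDpos : 0 < D (K * X) := by
    rw [hDdef]
    exact DG_pos Exc 1 1 _
  have hWJ : W ≤ J * X := by
    have a1 : (W : ℝ) ≤ ((J * X : ℕ) : ℝ) := by
      refine hWC.trans ?_
      push_cast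
      exact mul_le_mul_of_nonneg_right n2 hX0
    exact_mod_cast a1
  -- the algebraic integers
  have hGex : ∃ G : ℕ → ℕ → ℕ → 𝓞 E, ∀ n j l : ℕ, n ≤ K * X → j ≤ K →
      ((D (K * X) : E)) ^ J * ggR h J W x n j l = G n j l ∧
        ∀ τ : E →+* ℂ, ‖τ (G n j l : E)‖ ≤ Real.exp (ε * X) := by
    have a1 : ∀ n j l : ℕ, ∃ z : 𝓞 E, n ≤ K * X → j ≤ K →
        ((D (K * X) : E)) ^ J * ggR h J W x n j l = z ∧
          ∀ τ : E →+* ℂ, ‖τ (z : E)‖ ≤ Real.exp (ε * X) := by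
      intro n j l
      by_cases hn : n ≤ K * X
      · by_cases hj : j ≤ K
        · obtain ⟨z, hz1, hz2⟩ := hxz n j l hn hj
          refine ⟨z, fun _ _ => ⟨hz1, ?_⟩⟩
          rw [hε]
          have b1 : (CT : ℝ) * J ≤ (K : ℝ) := by exact_mod_cast hCTJ
          have b2 : (n : ℝ) ≤ (K : ℝ) * X := by exact_mod_cast hn
          have b3 : (j : ℝ) ≤ (K : ℝ) := by exact_mod_cast hj
          exact hz2 K b1 b2 b3
        · exact ⟨0, fun _ h => absurd h hj⟩
      · exact ⟨0, fun h => absurd h hn⟩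
    choose G hG using a1
    exact ⟨G, fun n j l hn hj => hG n j l hn hj⟩
  obtain ⟨G, hG⟩ := hGex
  have hε0 : 0 ≤ ε := by
    rw [hε]
    refine mul_nonneg (mul_nonneg (by linarith) (by positivity)) (Real.log_nonneg ?_)
    have : (0 : ℝ) ≤ (K : ℝ) * (J : ℝ) ^ 12 := by positivity
    linarith
  have hexp1 : 1 ≤ Real.exp (ε * X) := Real.one_le_exp (mul_nonneg hε0 hX0)
  -- the primes
  obtain ⟨P, hP⟩ : ∃ P : Finset ℕ, P = (Finset.Ioc X (12 * X)).filter
    fun p => SP.Spl E p ∧ ¬ Exc p := ⟨_, rfl⟩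
  have hPmem : ∀ p ∈ P, X < p ∧ p ≤ 12 * X ∧ SP.Spl E p ∧ ¬ Exc p := by
    intro p hp
    rw [hP, Finset.mem_filter, Finset.mem_Ioc] at hp
    exact ⟨hp.1.1, hp.1.2, hp.2.1, hp.2.2⟩
  have hI : ∀ p : ℕ, ∃ I : Ideal (𝓞 E), p ∈ P → (I.IsPrime ∧ (p : 𝓞 E) ∈ I) ∧
      ∀ m ≤ K * X, ∑ j ∈ Finset.range (m / p + 1), ∑ l ∈ Finset.range (J + 1),
        G (m - j * p) j l * b p ^ l ∈ I := by
    intro p
    by_cases hp : p ∈ P
    · obtain ⟨q1, q2, q3, q4⟩ := hPmem p hp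
      have : Fact p.Prime := ⟨q3.1⟩
      obtain ⟨φ⟩ := SP.spl_exists q3
      refine ⟨RingHom.ker φ, fun _ => ⟨⟨RingHom.ker_isPrime φ, ?_⟩, fun m hm => ?_⟩⟩
      · rw [RingHom.mem_ker, map_natCast]
        exact ZMod.natCast_self p
      · have hTb := F5E_T μ v s J W X p q2 hWJ
        refine dat_congrE hD p q4 φ J W X (μ * (v + 2) * J * X + s) q1.le hTb x ?_
          ((D (K * X)) ^ J) m G ?_
        · intro n j l hnj
          refine hx0 n j l (hnj.trans ?_)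
          have hJX : 1 ≤ J * X := Nat.mul_pos hJ1 (by omega)
          calc μ * (v + 2) * J * X + s = μ * (v + 2) * (J * X) + s * 1 := by ring
            _ ≤ μ * (v + 2) * (J * X) + s * (J * X) :=
              Nat.add_le_add_left (Nat.mul_le_mul_left _ hJX) _
            _ = CT * J * X := by rw [hCT]; ring
        · intro j l hjm _
          have hj : j ≤ K := by
            by_contra hc'
            rw [not_le] at hc'
            have a1 : (K + 1) * X ≤ j * p := Nat.mul_le_mul hc' q1.le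
            have a2 : (K + 1) * X = K * X + X := by ring
            omega
          have a3 := (hG (m - j * p) j l (by omega) hj).1
          rw [← a3]
          push_cast
          ring
    · exact ⟨⊥, fun h => absurd h hp⟩
  choose I hI using hI
  refine h2 X hX2 (K * X) (Real.exp (ε * X)) G P I b le_rfl hexp1 (by rw [Real.log_exp]) ?_ ?_ ?_
    ?_ ?_ ?_ ?_
  · intro n hn j hj l _ τ
    exact (hG n j l hn hj).2 τ
  · intro p hp
    obtain ⟨q1, q2, q3, q4⟩ := hPmem p hp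
    exact ⟨q3.1, q1⟩
  · intro p hp
    exact (hI p hp).1
  · intro p hp m hm
    exact (hI p hp).2 m hm
  · obtain ⟨n, hn, hgn⟩ := hze' W x (by
      obtain ⟨t, ht, hxt⟩ := hxq
      refine ⟨t, ht, fun h0 => hxt ?_⟩
      rw [h0]
      exact dvd_zero _)
    have hnK : n ≤ K * X := by
      have hJr : (1 : ℝ) ≤ J := by exact_mod_cast hJ1
      have hJp : (0 : ℝ) < J := by linarith
      have a1 : (n : ℝ) ≤ (C7 : ℝ) * (J : ℝ) ^ 14 * W + B := by exact_mod_cast hn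
      have a2 : (C7 : ℝ) * (J : ℝ) ^ 14 * W ≤ (C7 : ℝ) * C0 * (J : ℝ) ^ 6 * X := by
        calc (C7 : ℝ) * (J : ℝ) ^ 14 * W
            ≤ (C7 : ℝ) * (J : ℝ) ^ 14 * (C0 * ((J : ℝ) ^ 4 / (J : ℝ) ^ 12) * X) :=
              mul_le_mul_of_nonneg_left hWC (by positivity)
          _ = (C7 : ℝ) * C0 * (J : ℝ) ^ 6 * X := by
              field_simp
      have a3 : (C7 : ℝ) * C0 + 1 ≤ C6 := by
        have a4 := Nat.le_ceil ((C7 : ℝ) * C0)
        rw [hC6]
        push_cast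
        have : (0 : ℝ) ≤ CT := Nat.cast_nonneg _
        linarith
      have a5 : (B : ℝ) ≤ X := by exact_mod_cast hX4
      have a6 : (1 : ℝ) ≤ (J : ℝ) ^ 6 := one_le_pow₀ hJr
      have a7 : (n : ℝ) ≤ ((K * X : ℕ) : ℝ) := by
        push_cast
        rw [hK]
        push_cast
        have a8 : (B : ℝ) ≤ (J : ℝ) ^ 6 * X := by nlinarith
        have a9 : ((C7 : ℝ) * C0 + 1) * ((J : ℝ) ^ 6 * X) ≤ C6 * ((J : ℝ) ^ 6 * X) :=
          mul_le_mul_of_nonneg_right a3 (by positivity)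
        nlinarith
      exact_mod_cast a7
    refine ⟨n, hnK, ?_⟩
    have a1 := (hG n 0 0 hnK (Nat.zero_le _)).1
    intro hc'
    rw [hc'] at a1
    have a1' : ((D (K * X) : E)) ^ J * ggR h J W x n 0 0 = 0 := by
      rw [a1]
      exact map_zero (algebraMap (𝓞 E) E)
    rcases mul_eq_zero.1 a1' with a2 | a2
    · have a3 := (pow_eq_zero_iff (by omega : J ≠ 0)).1 a2
      have a4 : D (K * X) = 0 := by exact_mod_cast a3
      omega
    · exact hgn a2
  · intro n hn l hl1 _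
    have a1 := (hG n 0 l hn (Nat.zero_le _)).1
    rw [F5E_zero h hD.zero J W x n l hl1, mul_zero] at a1
    apply RingOfIntegers.ext
    rw [← a1]
    exact (map_zero (algebraMap (𝓞 E) E)).symm
  · -- the number of primes
    have a1 := hspl X hX5 (P ∪ ((Finset.range (12 * X + 1)).filter fun p : ℕ => p.Prime ∧ Exc p))
      (fun p hp hp' hsp => by
        rw [Finset.mem_union, hP, Finset.mem_filter, Finset.mem_Ioc, Finset.mem_filter,
          Finset.mem_range]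
        by_cases hEp : Exc p
        · exact Or.inr ⟨by omega, hsp.1, hEp⟩
        · exact Or.inl ⟨⟨hp, hp'⟩, hsp, hEp⟩)
    have a2 : ((P ∪ ((Finset.range (12 * X + 1)).filter fun p : ℕ => p.Prime ∧ Exc p)).card : ℝ) ≤
        (P.card : ℝ) +
          (((Finset.range (12 * X + 1)).filter fun p : ℕ => p.Prime ∧ Exc p).card : ℝ) := by
      exact_mod_cast Finset.card_union_le _ _
    have a3 := mul_le_mul_of_nonneg_right a2 hlog0.le
    rw [div_le_iff₀ hlog0]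
    linarith

end H18G
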