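import Pool.Agent.Lib.H18G.T1

/-!
# H18G, T2: at a prime which splits completely some reduction map does not kill `β` if `p ∤ β`;
small slopes and divisibility by `p²`
-/

set_option autoImplicit false

namespace H18G

open NumberField

/-- A prime not dividing the discriminant generates a squarefree ideal. -/
private theorem t2_sqf {E : Type*} [Field E] [NumberField E] {p : ℕ} (hp : p.Prime)
    (hd : ¬ (p : ℤ) ∣ discr E) : Squarefree (Ideal.span {(p : 𝓞 E)}) := by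
  have hpZ : Prime (p : ℤ) := Nat.prime_iff_prime_int.1 hp
  have h1 := (NumberField.not_dvd_discr_iff_forall_mem E (𝓞 E) hpZ).1 hd
  intro J hJ
  by_contra hu
  have hJ1 : J ≠ ⊤ := fun h => hu (Ideal.isUnit_iff.2 h)
  obtain ⟨P, hPm, hJP⟩ := Ideal.exists_le_maximal J hJ1
  have hPp : P.IsPrime := hPm.isPrime
  have hPJ : P ∣ J := Ideal.dvd_iff_le.2 hJP
  have hPI : P ^ 2 ∣ Ideal.span {(p : 𝓞 E)} := by
    rw [pow_two]
    exact (mul_dvd_mul hPJ hPJ).trans hJ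
  have hpP : (p : 𝓞 E) ∈ P := by
    have h3 : Ideal.span {(p : 𝓞 E)} ≤ P ^ 2 := Ideal.dvd_iff_le.1 hPI
    exact Ideal.pow_le_self (by norm_num) (h3 (Ideal.mem_span_singleton_self _))
  have hun := h1 P hPp (by exact_mod_cast hpP)
  have hun2 : ¬ P ∣ differentIdeal ℤ (𝓞 E) := not_dvd_differentIdeal_iff.2 hun
  apply hun2
  have hmax : (Ideal.span {(p : ℤ)}).IsMaximal :=
    PrincipalIdealRing.isMaximal_of_irreducible hpZ.irreducible
  have hmap : (Ideal.span {(p : ℤ)}).map (algebraMap ℤ (𝓞 E)) = Ideal.span {(p : 𝓞 E)} := by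
    rw [Ideal.map_span, Set.image_singleton]
    simp
  have h4 := pow_sub_one_dvd_differentIdeal ℤ (p := Ideal.span {(p : ℤ)}) P 2
    (by
      intro h
      exact hpZ.ne_zero (Ideal.span_singleton_eq_bot.1 h)) (by rw [hmap]; exact hPI)
  simpa using h4

/-- If `p` is unramified and does not divide `β`, then `β` is not in some prime ideal above `p`. -/
theorem exists_prime_notMem {E : Type*} [Field E] [NumberField E] {p : ℕ} (hp : p.Prime)
    (hd : ¬ (p : ℤ) ∣ discr E) (β : 𝓞 E) (hβ : ¬ (p : 𝓞 E) ∣ β) :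
    ∃ P : Ideal (𝓞 E), P.IsPrime ∧ (p : 𝓞 E) ∈ P ∧ β ∉ P := by
  by_contra hno
  push Not at hno
  apply hβ
  have hp0 : (p : 𝓞 E) ≠ 0 := by exact_mod_cast hp.ne_zero
  have hI0 : (Ideal.span {(p : 𝓞 E)}) ≠ 0 := by
    intro h
    exact hp0 (Ideal.span_singleton_eq_bot.1 h)
  have h1 : β ∈ (Ideal.span {(p : 𝓞 E)}).radical := by
    rw [Ideal.radical_eq_sInf, Ideal.mem_sInf]
    rintro J ⟨hJ1, hJ2⟩
    exact hno J hJ2 (hJ1 (Ideal.mem_span_singleton_self _))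
  obtain ⟨n, hn⟩ := h1
  have hrad := (isRadical_iff_squarefree_of_ne_zero hI0).2 (t2_sqf hp hd)
  have h5 : Ideal.span {(p : 𝓞 E)} ∣ (Ideal.span {β}) ^ n := by
    rw [Ideal.dvd_iff_le, Ideal.span_singleton_pow, Ideal.span_singleton_le_iff_mem]
    exact hn
  have h6 := hrad n _ h5
  rw [Ideal.dvd_iff_le, Ideal.span_singleton_le_iff_mem] at h6
  exact Ideal.mem_span_singleton.1 h6

/-- At a prime which splits completely some reduction map does not kill `β` if `p ∤ β`. -/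
theorem Spl.hom_ne_zero {E : Type} [Field E] [NumberField E] {p : ℕ} [Fact p.Prime]
    (h : Spl E p) (hd : ¬ (p : ℤ) ∣ discr E) (β : 𝓞 E) (hβ : ¬ (p : 𝓞 E) ∣ β) :
    ∃ φ : 𝓞 E →+* ZMod p, φ β ≠ 0 := by
  obtain ⟨P, hP, hpP, hβP⟩ := exists_prime_notMem (Fact.out : p.Prime) hd β hβ
  obtain ⟨φ, hφ⟩ := h.hom P hP hpP
  exact ⟨φ, fun h0 => hβP ((hφ β).1 h0)⟩

/-- The absolute value of an algebraic integer is at most one. -/
theorem t2_norm_le_one {E : Type*} [Field E] [NumberField E] {p : ℕ} [Fact p.Prime]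
    (τ : E →+* PadicAlgCl p) (x : 𝓞 E) : ‖τ (x : E)‖ ≤ 1 := by
  have hint : IsIntegral ℤ (x : E) := x.isIntegral_coe
  obtain ⟨P, hPm, hP⟩ := hint
  by_contra hlt
  push Not at hlt
  have hP2 : P.eval₂ (Int.castRingHom (PadicAlgCl p)) (τ (x : E)) = 0 := by
    have h1 := congrArg τ hP
    rw [map_zero, Polynomial.hom_eval₂] at h1
    have h2 : τ.comp (algebraMap ℤ E) = Int.castRingHom (PadicAlgCl p) :=
      RingHom.ext_int _ _
    rwa [h2] at h1
  set z := τ (x : E) with hz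
  have hz0 : 0 < ‖z‖ := by linarith
  have hint' : ∀ c : ℤ, ‖((c : ℤ) : PadicAlgCl p)‖ ≤ 1 := by
    intro c
    have h1 : ((c : ℚ_[p]) : PadicAlgCl p) = (c : PadicAlgCl p) :=
      map_intCast (algebraMap ℚ_[p] (PadicAlgCl p)) c
    rw [← h1, PadicAlgCl.norm_extends]
    exact Padic.norm_int_le_one c
  have hn0 : P.natDegree ≠ 0 := by
    intro h0
    have h1 : P = 1 := by
      rw [Polynomial.eq_C_of_natDegree_eq_zero h0]
      have h2 := hPm.coeff_natDegree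
      rw [h0] at h2
      rw [h2, map_one]
    rw [h1, Polynomial.eval₂_one] at hP2
    exact one_ne_zero hP2
  rw [Polynomial.eval₂_eq_sum_range, Finset.sum_range_succ, hPm.coeff_natDegree, map_one,
    one_mul] at hP2
  have h3 : ‖z‖ ^ P.natDegree ≤ ‖z‖ ^ (P.natDegree - 1) := by
    have h4 : z ^ P.natDegree = -∑ i ∈ Finset.range P.natDegree,
        (Int.castRingHom (PadicAlgCl p)) (P.coeff i) * z ^ i := by
      linear_combination hP2
    rw [← norm_pow, h4, norm_neg]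
    obtain ⟨i, hi, hle⟩ := IsUltrametricDist.exists_norm_finsetSum_le_of_nonempty
      (Finset.nonempty_range_iff.2 hn0) (fun i => (Int.castRingHom (PadicAlgCl p)) (P.coeff i) * z ^ i)
    refine hle.trans ?_
    rw [norm_mul, norm_pow]
    have h5 := hint' (P.coeff i)
    have h6 : ‖z‖ ^ i ≤ ‖z‖ ^ (P.natDegree - 1) :=
      pow_le_pow_right₀ hlt.le (by
        have := Finset.mem_range.1 hi
        omega)
    have h7 : 0 ≤ ‖z‖ ^ i := pow_nonneg hz0.le _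
    calc ‖(Int.castRingHom (PadicAlgCl p)) (P.coeff i)‖ * ‖z‖ ^ i ≤ 1 * ‖z‖ ^ i :=
          mul_le_mul_of_nonneg_right h5 h7
      _ ≤ _ := by rw [one_mul]; exact h6
  have h8 : ‖z‖ ^ (P.natDegree - 1) < ‖z‖ ^ P.natDegree :=
    pow_lt_pow_right₀ hlt (by omega)
  linarith

/-- If the smallest slope at some embedding is at most one, then `p²` does not divide `a`. -/
theorem not_sq_dvd_of_small {E : Type*} [Field E] [NumberField E] {p : ℕ} [Fact p.Prime]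
    {k : ℕ} (hk : 4 ≤ k) (a c : 𝓞 E) (τ : E →+* PadicAlgCl p) (x y : PadicAlgCl p)
    (h1 : x + y = τ (a : E)) (h2 : x * y = τ (c : E) * (p : PadicAlgCl p) ^ (k - 1))
    (h3 : (p : ℝ)⁻¹ ≤ ‖x‖) : ¬ (p : 𝓞 E) ^ 2 ∣ a := by
  have hp : p.Prime := Fact.out
  have hp1 : (1 : ℝ) < p := by exact_mod_cast hp.one_lt
  have hp0 : (0 : ℝ) < p := by linarith
  rintro ⟨b, hb⟩
  have hnp : ‖(p : PadicAlgCl p)‖ = (p : ℝ)⁻¹ := by
    have h4 : ((p : ℚ_[p]) : PadicAlgCl p) = (p : PadicAlgCl p) :=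
      map_natCast (algebraMap ℚ_[p] (PadicAlgCl p)) p
    rw [← h4, PadicAlgCl.norm_extends]
    exact Padic.norm_p
  have hi0 : (0 : ℝ) < (p : ℝ)⁻¹ := inv_pos.2 hp0
  have hi1 : (p : ℝ)⁻¹ < 1 := inv_lt_one_of_one_lt₀ hp1
  have hx0 : 0 < ‖x‖ := lt_of_lt_of_le hi0 h3
  have ha : ‖τ (a : E)‖ ≤ (p : ℝ)⁻¹ ^ 2 := by
    have e : ((a : 𝓞 E) : E) = (p : E) ^ 2 * (b : E) := by
      rw [hb]
      push_cast
      ring
    rw [e, map_mul, map_pow, map_natCast, norm_mul, norm_pow, hnp]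
    have h5 := t2_norm_le_one τ b
    have h6 : 0 ≤ (p : ℝ)⁻¹ ^ 2 := by positivity
    nlinarith
  have hy : ‖y‖ ≤ (p : ℝ)⁻¹ ^ 2 := by
    have h5 : ‖x‖ * ‖y‖ = ‖τ (c : E)‖ * (p : ℝ)⁻¹ ^ (k - 1) := by
      rw [← norm_mul, h2, norm_mul, norm_pow, hnp]
    have h6 := t2_norm_le_one τ c
    have h7 : ‖τ (c : E)‖ * (p : ℝ)⁻¹ ^ (k - 1) ≤ (p : ℝ)⁻¹ ^ 3 := by
      have h8 : (p : ℝ)⁻¹ ^ (k - 1) ≤ (p : ℝ)⁻¹ ^ 3 :=
        pow_le_pow_of_le_one hi0.le hi1.le (by omega)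
      have h9 : 0 ≤ (p : ℝ)⁻¹ ^ (k - 1) := by positivity
      nlinarith [norm_nonneg (τ (c : E))]
    have h8 : (p : ℝ)⁻¹ * ‖y‖ ≤ (p : ℝ)⁻¹ ^ 3 := by
      refine le_trans ?_ (h5.le.trans h7)
      exact mul_le_mul_of_nonneg_right h3 (norm_nonneg y)
    have h9 : (p : ℝ)⁻¹ * ‖y‖ ≤ (p : ℝ)⁻¹ * (p : ℝ)⁻¹ ^ 2 := by
      refine h8.trans (le_of_eq ?_)
      ring
    exact le_of_mul_le_mul_left h9 hi0
  have hx : ‖x‖ ≤ (p : ℝ)⁻¹ ^ 2 := by
    have e : x = τ (a : E) - y := by rw [← h1]; ring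
    rw [e, sub_eq_add_neg]
    refine (IsUltrametricDist.norm_add_le_max _ _).trans (max_le ha ?_)
    rw [norm_neg]
    exact hy
  have h10 : (p : ℝ)⁻¹ ^ 2 < (p : ℝ)⁻¹ := by nlinarith
  linarith

end H18G
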