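import Pool.Agent.Lib.H18G.SP2
import Pool.Agent.Lib.H18G.T2
import Pool.Agent.Lib.H6V.L1

/-!
# H18G, SP3 (helper2): ordinary primes and divisibility, the count of good split primes
-/

namespace H18G.SP

open NumberField Finset

private theorem norm_natp (p : ℕ) [Fact p.Prime] : ‖(p : PadicAlgCl p)‖ = (p : ℝ)⁻¹ := by
  have h1 : ((p : ℚ_[p]) : PadicAlgCl p) = (p : PadicAlgCl p) := by
    exact map_natCast (algebraMap ℚ_[p] (PadicAlgCl p)) p
  rw [← h1, PadicAlgCl.norm_extends, Padic.norm_p]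

/-- For an unramified prime: `p ∤ a` if and only if the polynomial `X² - τ(a) X + τ(c) p^(k-1)` has a unit root at some place. -/
theorem not_dvd_iff {E : Type*} [Field E] [NumberField E] (k p : ℕ) (hk : 2 ≤ k) [Fact p.Prime]
    (hd : ¬ (p : ℤ) ∣ discr E) (a c : 𝓞 E) (hc : IsUnit c) :
    ¬ (p : 𝓞 E) ∣ a ↔ ∃ (τ : E →+* PadicAlgCl p) (x y : PadicAlgCl p),
      x + y = τ (a : E) ∧ x * y = τ (c : E) * (p : PadicAlgCl p) ^ (k - 1) ∧
        ‖x‖ = 1 ∧ ‖y‖ = (p : ℝ) ^ (-((k : ℤ) - 1)) := by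
  constructor
  · intro h
    exact (H6V.ord_or_dvd k p hk hd a c hc).resolve_left h
  · rintro ⟨τ, x, y, h1, -, h3, h4⟩ ⟨b, hb⟩
    have hp : p.Prime := Fact.out
    have hp1 : (1 : ℝ) < p := by exact_mod_cast hp.one_lt
    have h5 : ‖τ (a : E)‖ ≤ (p : ℝ)⁻¹ := by
      have h6 : (a : E) = (p : E) * (b : E) := by
        rw [hb]
        push_cast
        rfl
      rw [h6, map_mul, norm_mul, map_natCast, norm_natp]
      exact mul_le_of_le_one_right (by positivity) (t2_norm_le_one τ b)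
    have h6 : (p : ℝ)⁻¹ < 1 := inv_lt_one_of_one_lt₀ hp1
    have h7 : ‖y‖ < 1 := by
      rw [h4, zpow_neg]
      exact inv_lt_one_of_one_lt₀ (one_lt_zpow₀ hp1 (by omega))
    have h8 : x = τ (a : E) + (-y) := by
      rw [← h1]
      ring
    have h9 : ‖x‖ ≤ max ‖τ (a : E)‖ ‖-y‖ := by
      conv_lhs => rw [h8]
      exact IsUltrametricDist.norm_add_le_max _ _
    rw [h3, norm_neg] at h9
    rcases le_max_iff.1 h9 with h | h
    · linarith
    · linarith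

/-- For an unramified prime: `p ∤ a` if and only if `a` is a unit at some place. -/
theorem not_dvd_iff_ideal {E : Type*} [Field E] [NumberField E] {p : ℕ} (hp : p.Prime)
    (hd : ¬ (p : ℤ) ∣ discr E) (a : 𝓞 E) :
    ¬ (p : 𝓞 E) ∣ a ↔ ∃ P : Ideal (𝓞 E), P.IsPrime ∧ (p : 𝓞 E) ∈ P ∧ a ∉ P := by
  constructor
  · exact exists_prime_notMem hp hd a
  · rintro ⟨P, -, h2, h3⟩ ⟨b, hb⟩
    apply h3
    rw [hb]
    exact P.mul_mem_right _ h2

/-- Large primes do not divide the discriminant. -/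
theorem not_dvd_discr {E : Type*} [Field E] [NumberField E] {p : ℕ} (h : (discr E).natAbs < p) :
    ¬ (p : ℤ) ∣ discr E := by
  intro h1
  have h5 := Int.natAbs_dvd_natAbs.2 h1
  rw [Int.natAbs_natCast] at h5
  have h6 : (discr E).natAbs ≠ 0 := Int.natAbs_ne_zero.2 (NumberField.discr_ne_zero E)
  have := Nat.le_of_dvd (Nat.pos_of_ne_zero h6) h5
  omega

/-- **The count of good split primes in `(X, 12 X]`**: if there are few exceptional primes up to `K X`. -/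
theorem good_count (E : Type*) [Field E] [NumberField E] : ∃ c : ℝ, 0 < c ∧ ∃ X₀ : ℕ, ∀ X ≥ X₀,
    ∀ (K : ℕ) (Exc : ℕ → Prop), 12 ≤ K →
      (Set.ncard {p : ℕ | p ≤ K * X ∧ p.Prime ∧ Exc p} : ℝ) * Real.log X ≤ c * X →
      ∀ S : Finset ℕ, (∀ p : ℕ, X < p → p ≤ 12 * X → Spl E p → ¬ Exc p → p ∈ S) →
        c * X / Real.log X ≤ S.card := by
  classical
  obtain ⟨c, hc, X₀, hX₀⟩ := spl_count E
  refine ⟨c / 2, by positivity, max X₀ 2, fun X hX K Exc hK hE S hS => ?_⟩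
  have hX2 : 2 ≤ X := (le_max_right _ _).trans hX
  have hl : 0 < Real.log X := Real.log_pos (by exact_mod_cast (by omega : 1 < X))
  have hfin : {p : ℕ | p ≤ K * X ∧ p.Prime ∧ Exc p}.Finite :=
    (Set.finite_Iic (K * X)).subset fun p hp => hp.1
  have h1 := hX₀ X ((le_max_left _ _).trans hX) (S ∪ hfin.toFinset) (by
    intro p h2 h3 h4
    rw [mem_union]
    by_cases h5 : Exc p
    · right
      rw [Set.Finite.mem_toFinset]
      exact ⟨h3.trans (Nat.mul_le_mul_right X hK), h4.1, h5⟩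
    · exact Or.inl (hS p h2 h3 h4 h5))
  have h2 : ((S ∪ hfin.toFinset).card : ℝ) ≤
      S.card + (Set.ncard {p : ℕ | p ≤ K * X ∧ p.Prime ∧ Exc p} : ℝ) := by
    rw [Set.ncard_eq_toFinset_card _ hfin]
    exact_mod_cast card_union_le _ _
  have h3 := mul_le_mul_of_nonneg_right h2 hl.le
  rw [div_le_iff₀ hl]
  linarith

/-- The good split primes as a finset. -/
theorem good_finset (E : Type*) [Field E] [NumberField E] : ∃ c : ℝ, 0 < c ∧ ∃ X₀ : ℕ, ∀ X ≥ X₀,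
    ∀ (K : ℕ) (Exc : ℕ → Prop), 12 ≤ K →
      (Set.ncard {p : ℕ | p ≤ K * X ∧ p.Prime ∧ Exc p} : ℝ) * Real.log X ≤ c * X →
      ∃ S : Finset ℕ, (∀ p ∈ S, p.Prime ∧ X < p ∧ p ≤ 12 * X ∧ ¬ Exc p ∧ Nonempty (𝓞 E →+* ZMod p)) ∧
        c * X / Real.log X ≤ S.card := by
  classical
  obtain ⟨c, hc, X₀, hX₀⟩ := good_count E
  refine ⟨c, hc, X₀, fun X hX K Exc hK hE =>
    ⟨(Finset.Ioc X (12 * X)).filter fun p => Spl E p ∧ ¬ Exc p, ?_, ?_⟩⟩
  · intro p hp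
    rw [mem_filter, mem_Ioc] at hp
    exact ⟨hp.2.1.1, hp.1.1, hp.1.2, hp.2.2, spl_exists hp.2.1⟩
  · refine hX₀ X hX K Exc hK hE _ fun p h1 h2 h3 h4 => ?_
    rw [mem_filter, mem_Ioc]
    exact ⟨⟨h1, h2⟩, h3, h4⟩

/-- From all scales to positive lower density: if the number of exceptional primes up to `K X` is not small at any large scale. -/
theorem lower_of_scales (Exc : ℕ → Prop) (K : ℕ) (hK : 1 ≤ K) (δ : ℝ) (hδ : 0 < δ) (X₀ : ℕ)
    (h : ∀ X ≥ X₀, δ * X < (Set.ncard {p : ℕ | p ≤ K * X ∧ p.Prime ∧ Exc p} : ℝ) * Real.log X) :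
    ∃ c : ℝ, 0 < c ∧ ∀ᶠ Y : ℕ in Filter.atTop, c * (Nat.primeCounting Y : ℝ) ≤
      (Set.ncard {p : ℕ | p ≤ Y ∧ p.Prime ∧ Exc p} : ℝ) := by
  have hP := Pool.Agent.Lib.PNT.primeCounting_nat_tendsto
  have hKr : (1 : ℝ) ≤ K := by exact_mod_cast hK
  refine ⟨δ / (4 * K), by positivity, ?_⟩
  have e1 := hP.eventually (gt_mem_nhds (show (1 : ℝ) < 2 by norm_num))
  filter_upwards [e1, Filter.eventually_ge_atTop (K * (X₀ + 2))] with Y h1 h2
  have hY0 : 0 < Y := lt_of_lt_of_le (by positivity) h2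
  obtain ⟨X, hX⟩ : ∃ X, X = Y / K := ⟨_, rfl⟩
  have h3 : X₀ + 2 ≤ X := by
    rw [hX, Nat.le_div_iff_mul_le (by omega)]
    rw [mul_comm]
    exact h2
  have h4 : K * X ≤ Y := by
    rw [hX]
    exact Nat.mul_div_le Y K
  have h5 : Y < K * (X + 1) := by
    rw [hX]
    exact Nat.lt_mul_div_succ Y (by omega)
  have h6 := h X (by omega)
  have hfin : {p : ℕ | p ≤ Y ∧ p.Prime ∧ Exc p}.Finite := (Set.finite_Iic Y).subset fun p hp => hp.1
  have h7 : (Set.ncard {p : ℕ | p ≤ K * X ∧ p.Prime ∧ Exc p} : ℝ) ≤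
      (Set.ncard {p : ℕ | p ≤ Y ∧ p.Prime ∧ Exc p} : ℝ) := by
    have hsub : {p : ℕ | p ≤ K * X ∧ p.Prime ∧ Exc p} ⊆ {p : ℕ | p ≤ Y ∧ p.Prime ∧ Exc p} :=
      fun p hp => ⟨hp.1.trans h4, hp.2⟩
    exact_mod_cast Set.ncard_le_ncard hsub hfin
  have hX1 : (1 : ℝ) < X := by exact_mod_cast (by omega : 1 < X)
  have hlX : 0 < Real.log X := Real.log_pos hX1
  have hXY : (X : ℝ) ≤ Y := by
    have : X ≤ Y := le_trans (Nat.le_mul_of_pos_left X (by omega)) h4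
    exact_mod_cast this
  have hlY : Real.log X ≤ Real.log Y := Real.log_le_log (by linarith) hXY
  have h8 : (Y : ℝ) ≤ K * (2 * X) := by
    have : (Y : ℝ) < K * (X + 1) := by exact_mod_cast h5
    nlinarith
  have hYr : (0 : ℝ) < Y := by exact_mod_cast hY0
  rw [div_lt_iff₀ hYr] at h1
  obtain ⟨e, he⟩ : ∃ e : ℝ, e = (Set.ncard {p : ℕ | p ≤ Y ∧ p.Prime ∧ Exc p} : ℝ) := ⟨_, rfl⟩
  obtain ⟨e', he'⟩ : ∃ e : ℝ, e = (Set.ncard {p : ℕ | p ≤ K * X ∧ p.Prime ∧ Exc p} : ℝ) := ⟨_, rfl⟩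
  rw [← he'] at h6 h7
  rw [← he] at h7 ⊢
  have he0 : 0 ≤ e := by
    rw [he]
    positivity
  have h9 : δ * X < e * Real.log Y := by
    have := mul_le_mul h7 hlY hlX.le he0
    linarith
  have h10 : (Nat.primeCounting Y : ℝ) * Real.log Y < 4 * K * X := by
    linarith
  have hlY0 : 0 < Real.log Y := lt_of_lt_of_le hlX hlY
  rw [div_mul_eq_mul_div, div_le_iff₀ (by positivity)]
  have h11 : δ * ((Nat.primeCounting Y : ℝ) * Real.log Y) ≤ δ * (4 * K * X) := by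
    exact mul_le_mul_of_nonneg_left h10.le hδ.le
  have h12 : (δ * (Nat.primeCounting Y : ℝ)) * Real.log Y ≤ (e * (4 * K)) * Real.log Y := by
    have h13 : (4 * K) * (δ * X) ≤ (4 * K) * (e * Real.log Y) :=
      mul_le_mul_of_nonneg_left h9.le (by positivity)
    linarith
  exact le_of_mul_le_mul_right h12 hlY0

end H18G.SP
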