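import Pool.Agent.Lib.H18G.Defs
import Pool.Agent.Lib.H18G.SP3
import Pool.Agent.Lib.H6D.F2
import Pool.Agent.Lib.H6V.Defs

/-!
# H18G, F7E (helper2): the density of the ordinary primes over `E`, from the data and one scale
-/

namespace H18G

open NumberField Filter Topology PowerSeries

theorem density_core (N k : ℕ) (hN : N ≠ 0) (hk : 4 ≤ k) (E : Type*) [Field E] [NumberField E]
    (a χ : ℕ → 𝓞 E) (hχ : ∀ p : ℕ, p.Prime → ¬ p ∣ N → IsUnit (χ p))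
    {r v μ s₀ : ℕ} {h : Fin r → PowerSeries E}
    (hdat : ∃ B : ℕ, ∀ b : ℕ → 𝓞 E, (∀ p : ℕ, p.Prime → (p : 𝓞 E) ∣ a p → a p = p * b p) →
      ∀ (Exc : ℕ → Prop) [DecidablePred Exc],
      (∀ p : ℕ, p.Prime → ¬ Exc p → (p : 𝓞 E) ∣ a p ∧ B < p) → DatE E r v μ s₀ h b Exc)
    (hsc : ∀ (b : ℕ → 𝓞 E) (Exc : ℕ → Prop) [DecidablePred Exc], DatE E r v μ s₀ h b Exc →
      ∃ (K : ℕ) (δ : ℝ) (X₀ : ℕ), 1 ≤ K ∧ 0 < δ ∧ ∀ X : ℕ, X₀ ≤ X → δ * (X : ℝ) <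
        (((Finset.range (K * X + 2)).filter fun p : ℕ => p.Prime ∧ Exc p).card : ℝ) *
          Real.log ((K : ℝ) * X + 1)) :
    ∃ c : ℝ, 0 < c ∧ ∀ᶠ X : ℕ in atTop, c * (Nat.primeCounting X : ℝ) ≤
      (Set.ncard {p : ℕ | p ≤ X ∧ p.Prime ∧ (¬ p ∣ N ∧ ∃ (_ : Fact p.Prime)
        (τ : E →+* PadicAlgCl p) (x y : PadicAlgCl p),
        x + y = τ (a p : E) ∧ x * y = τ (χ p : E) * (p : PadicAlgCl p) ^ (k - 1) ∧
          ‖x‖ = 1 ∧ ‖y‖ = (p : ℝ) ^ (-((k : ℤ) - 1)))} : ℝ) := by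
  classical
  obtain ⟨B, hB⟩ := hdat
  obtain ⟨b, hb⟩ : ∃ b : ℕ → 𝓞 E, ∀ p : ℕ, p.Prime → (p : 𝓞 E) ∣ a p → a p = p * b p := by
    refine ⟨fun p => if h : (p : 𝓞 E) ∣ a p then h.choose else 0, fun p _ hp => ?_⟩
    simp only [dif_pos hp]
    exact hp.choose_spec
  obtain ⟨M, hM⟩ : ∃ M : ℕ, M = B + N + (discr E).natAbs := ⟨_, rfl⟩
  have hD := hB b hb (fun p => ¬ (p : 𝓞 E) ∣ a p ∨ p ≤ M) (by
    intro p _ hE
    rw [not_or, not_not, not_le] at hE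
    exact ⟨hE.1, by omega⟩)
  obtain ⟨K, δ, X₀, hK, hδ, hX⟩ := hsc b _ hD
  refine H6D.dens_of_scale (fun p => ¬ p ∣ N ∧ ∃ (_ : Fact p.Prime)
        (τ : E →+* PadicAlgCl p) (x y : PadicAlgCl p),
        x + y = τ (a p : E) ∧ x * y = τ (χ p : E) * (p : PadicAlgCl p) ^ (k - 1) ∧
          ‖x‖ = 1 ∧ ‖y‖ = (p : ℝ) ^ (-((k : ℤ) - 1))) M K hK δ hδ X₀ fun X hX0 => ?_
  refine (hX X hX0).trans_le ?_
  refine mul_le_mul_of_nonneg_right ?_ (Real.log_nonneg (by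
    have : (0 : ℝ) ≤ (K : ℝ) * X := by positivity
    linarith))
  have hsub : ((Finset.range (K * X + 2)).filter fun p : ℕ => p.Prime ∧ (¬ (p : 𝓞 E) ∣ a p ∨ p ≤ M)) ⊆
      ((Finset.range (K * X + 2)).filter fun p : ℕ => p.Prime ∧ ((¬ p ∣ N ∧ ∃ (_ : Fact p.Prime)
        (τ : E →+* PadicAlgCl p) (x y : PadicAlgCl p),
        x + y = τ (a p : E) ∧ x * y = τ (χ p : E) * (p : PadicAlgCl p) ^ (k - 1) ∧
          ‖x‖ = 1 ∧ ‖y‖ = (p : ℝ) ^ (-((k : ℤ) - 1))) ∨ p ≤ M)) := by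
    intro p hp
    rw [Finset.mem_filter] at hp ⊢
    obtain ⟨hp1, hp2, hp3⟩ := hp
    refine ⟨hp1, hp2, ?_⟩
    rcases Nat.lt_or_ge M p with h4 | h4
    · left
      have hpN : ¬ p ∣ N := fun h => by
        have := Nat.le_of_dvd (Nat.pos_of_ne_zero hN) h
        omega
      have hpf : Fact p.Prime := ⟨hp2⟩
      exact ⟨hpN, hpf, (SP.not_dvd_iff k p (by omega) (SP.not_dvd_discr (by omega)) (a p) (χ p)
        (hχ p hp2 hpN)).1 (hp3.resolve_right (not_le.2 h4))⟩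
    · exact Or.inr h4
  exact_mod_cast Finset.card_le_card hsub

end H18G
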