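import Mathlib

/-!
# H18G, T4: dual bases for the trace form

There are `D ≥ 1` and `u_i, w_i` in the ring of integers with `D x = Σ_i Tr (u_i x) w_i`.
-/

namespace H18G

open NumberField Module

theorem t4_dual (E : Type*) [Field E] [NumberField E] :
    ∃ (D n : ℕ) (u w : Fin n → 𝓞 E), 0 < D ∧
      ∀ x : 𝓞 E, (D : 𝓞 E) * x = ∑ i, ((Algebra.trace ℤ (𝓞 E) (u i * x) : ℤ) : 𝓞 E) * w i := by
  classical
  let b := integralBasis E
  let c := b.traceDual
  obtain ⟨y, hy0, hy⟩ := exists_integral_multiples ℤ ℚ (Finset.univ.image fun i => c i)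
  let e := Fintype.equivFin (Free.ChooseBasisIndex ℤ (𝓞 E))
  obtain ⟨D, hD, hyD⟩ : ∃ D : ℕ, 0 < D ∧ (y = D ∨ y = -D) :=
    ⟨y.natAbs, Int.natAbs_pos.2 hy0, Int.natAbs_eq y⟩
  have hint : ∀ i, IsIntegral ℤ ((D : E) * c i) := by
    intro i
    have h1 := hy (c i) (Finset.mem_image_of_mem _ (Finset.mem_univ i))
    rcases hyD with h | h
    · have h2 : (D : E) * c i = y • c i := by
        rw [h, zsmul_eq_mul]
        push_cast
        rfl
      rw [h2]
      exact h1
    · have h2 : (D : E) * c i = -(y • c i) := by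
        rw [h, zsmul_eq_mul]
        push_cast
        ring
      rw [h2]
      exact h1.neg
  obtain ⟨w, hw⟩ : ∃ w : Free.ChooseBasisIndex ℤ (𝓞 E) → 𝓞 E, ∀ i, (w i : E) = (D : E) * c i :=
    ⟨fun i => ⟨_, hint i⟩, fun i => rfl⟩
  refine ⟨D, Fintype.card (Free.ChooseBasisIndex ℤ (𝓞 E)),
    fun i => RingOfIntegers.basis E (e.symm i), fun i => w (e.symm i), hD, fun x => ?_⟩
  apply RingOfIntegers.coe_injective
  have h1 : ∀ i, ((Algebra.trace ℤ (𝓞 E) (RingOfIntegers.basis E i * x) : ℤ) : E) =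
      algebraMap ℚ E (c.repr (x : E) i) := by
    intro i
    rw [Basis.traceDual_repr_apply, Algebra.traceForm_apply, integralBasis_apply]
    have h2 := Algebra.coe_trace_int (RingOfIntegers.basis E i * x)
    have h3 : ((RingOfIntegers.basis E i * x : 𝓞 E) : E) =
      (x : E) * algebraMap (𝓞 E) E (RingOfIntegers.basis E i) := by
      rw [mul_comm]
      rfl
    rw [h3] at h2
    rw [← h2]
    simp
  have h2 := c.sum_repr (x : E)
  calc algebraMap (𝓞 E) E ((D : 𝓞 E) * x) = (D : E) * (x : E) := by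
        rw [map_mul, map_natCast]
    _ = (D : E) * ∑ i, c.repr (x : E) i • c i := by rw [h2]
    _ = ∑ i, ((Algebra.trace ℤ (𝓞 E) (RingOfIntegers.basis E i * x) : ℤ) : E) * (w i : E) := by
        rw [Finset.mul_sum]
        refine Finset.sum_congr rfl fun i _ => ?_
        rw [h1 i, hw i, Algebra.smul_def]
        ring
    _ = ∑ i : Fin _, ((Algebra.trace ℤ (𝓞 E)
          (RingOfIntegers.basis E (e.symm i) * x) : ℤ) : E) * (w (e.symm i) : E) :=
        (Equiv.sum_comp e.symm fun i =>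
          ((Algebra.trace ℤ (𝓞 E) (RingOfIntegers.basis E i * x) : ℤ) : E) * (w i : E)).symm
    _ = _ := by
        rw [map_sum]
        refine Finset.sum_congr rfl fun i _ => ?_
        rw [(algebraMap (𝓞 E) E).map_mul, map_intCast]

end H18G
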