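import Pool.Agent.Lib.H18G.T3
import Pool.Agent.Lib.H18G.T4

/-!
# H18G, T5: the reduction of the form at a place of degree one

For a homomorphism `φ` from the ring of integers to `ZMod p` (`p` large) the series
`Σ φ(a(n/d)) n^(p-2) qⁿ` is a modular form modulo `p`: `D φ(x) = Σ_i φ(w_i) Tr(u_i x)`.
-/

namespace H18G

open H53M H94M H53N H36H H6V H6D UpperHalfPlane NumberField PowerSeries

/-- The coefficients of `f(dz)`. -/
def adR {A : Type*} [Zero A] (a : ℕ → A) (d n : ℕ) : A := if d ∣ n then a (n / d) else 0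

/-- The series `Σ φ(a(n/d)) n^(p-2) qⁿ`. -/
noncomputable def gpE {E : Type*} [Field E] [NumberField E] (a : ℕ → 𝓞 E) (p : ℕ)
    (φ : 𝓞 E →+* ZMod p) (d : ℕ) : PowerSeries (ZMod p) :=
  PowerSeries.mk fun n => φ (adR a d n) * (n : ZMod p) ^ (p - 2)

theorem gpE_mem (N k : ℕ) (hN : N ≠ 0) (hk : 4 ≤ k) (E : Type*) [Field E] [NumberField E]
    (a : ℕ → 𝓞 E)
    (hf : ∀ σ : E →+* ℂ, ∃ f : CuspForm (Gm1 N) (k : ℤ),
      ∀ n, (qExpansion 1 (f : ℍ → ℂ)).coeff n = σ (a n))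
    (h1 : a 1 = 1) :
    ∃ B : ℕ, ∀ (p : ℕ) [Fact p.Prime], B < p → ∀ (φ : 𝓞 E →+* ZMod p) (d M : ℕ) [NeZero M],
      1 ≤ d → N * d ∣ M → gpE a p φ d ∈ MN1 M p (p * (k - 2) + (p - 1)) := by
  obtain ⟨D, m, u, w, hD, hx⟩ := t4_dual E
  refine ⟨max D 5, fun p hp hB φ d M hM hd hNM => ?_⟩
  have hDp : D < p := (le_max_left _ _).trans_lt hB
  have h5 : 5 < p := (le_max_right _ _).trans_lt hB
  have hD0 : (D : ZMod p) ≠ 0 := by
    rw [Ne, ZMod.natCast_eq_zero_iff]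
    exact fun h => absurd (Nat.le_of_dvd hD h) (by omega)
  have hφ : ∀ x : 𝓞 E, φ x = ∑ i, ((D : ZMod p)⁻¹ * φ (w i)) *
      ((Algebra.trace ℤ (𝓞 E) (u i * x) : ℤ) : ZMod p) := by
    intro x
    have h2 := congrArg φ (hx x)
    rw [φ.map_mul, map_natCast, map_sum] at h2
    have h3 : φ x = (D : ZMod p)⁻¹ * ((D : ZMod p) * φ x) := by
      rw [← mul_assoc, inv_mul_cancel₀ hD0, one_mul]
    rw [h3, h2, Finset.mul_sum]
    refine Finset.sum_congr rfl fun i _ => ?_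
    rw [φ.map_mul, map_intCast]
    ring
  have h6 : gpE a p φ d = ∑ i, ((D : ZMod p)⁻¹ * φ (w i)) • gps p d (tw a (u i)) := by
    ext n
    rw [map_sum]
    unfold gpE
    rw [coeff_mk, hφ, Finset.sum_mul]
    refine Finset.sum_congr rfl fun i _ => ?_
    rw [coeff_smul, smul_eq_mul]
    unfold gps
    rw [coeff_mk, mul_assoc]
    congr 2
    unfold ad adR
    split_ifs with h
    · rfl
    · simp
  rw [h6]
  exact Submodule.sum_mem _ fun i _ => Submodule.smul_mem _ _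
    (gps_mem N k hN hk a hf h1 (u i) d M hd hNM p h5)

end H18G
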