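import Mathlib

/-!
# H18G, T6: the Hecke recursion for `h(q^d) - b h(q^(dp))` modulo `p`
-/

namespace H18G

theorem t6_rec {A : Type*} [CommRing A] [IsDomain A] [CharZero A] (p k : ℕ) (hp : p.Prime)
    (hk : 4 ≤ k) (a x : ℕ → A) (b c : A) (hap : a p = p * b)
    (hH : ∀ n, a (p * n) = a p * a n - (if p ∣ n then c * (p : A) ^ (k - 1) * a (n / p) else 0))
    (hx : ∀ n : ℕ, (n : A) * x n = a n) (hx0 : x 0 = 0) (m : ℕ) :
    x (p * m) = b * x m - (if p ∣ m then c * (p : A) ^ (k - 3) * x (m / p) else 0) := by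
  rcases Nat.eq_zero_or_pos m with hm | hm
  · subst hm
    simp [hx0]
  have hpm : ((p * m : ℕ) : A) ≠ 0 := by
    have : p * m ≠ 0 := Nat.mul_ne_zero hp.ne_zero hm.ne'
    exact_mod_cast this
  apply mul_left_cancel₀ hpm
  rw [hx, hH, hap, ← hx m]
  by_cases h : p ∣ m
  · rw [if_pos h, if_pos h, ← hx (m / p)]
    obtain ⟨l, rfl⟩ := h
    rw [Nat.mul_div_cancel_left _ hp.pos]
    obtain ⟨j, rfl⟩ : ∃ j, k = j + 3 := ⟨k - 3, by omega⟩
    have e1 : j + 3 - 1 = j + 2 := by omega
    have e2 : j + 3 - 3 = j := by omega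
    rw [e1, e2]
    push_cast
    ring
  · rw [if_neg h, if_neg h]
    push_cast
    ring

theorem t6_sub {A : Type*} [CommRing A] [IsDomain A] [CharZero A] (p k : ℕ) [Fact p.Prime]
    (h5 : 5 < p) (hk : 4 ≤ k) (a x : ℕ → A) (b c : A) (hap : a p = p * b)
    (hH : ∀ n, a (p * n) = a p * a n - (if p ∣ n then c * (p : A) ^ (k - 1) * a (n / p) else 0))
    (hx : ∀ n : ℕ, (n : A) * x n = a n) (hx0 : x 0 = 0) (ψ : A →+* ZMod p) (d : ℕ)
    (hd : ¬ p ∣ d) (n : ℕ) :
    (if d ∣ n then ψ (x (n / d)) else 0) -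
      ψ b * (if p ∣ n then (if d ∣ n / p then ψ (x (n / p / d)) else 0) else 0) =
    (d : ZMod p) * ((if d ∣ n then ψ (a (n / d)) else 0) * (n : ZMod p) ^ (p - 2)) := by
  have hp : p.Prime := Fact.out
  have hd0 : 0 < d := Nat.pos_of_ne_zero fun h => hd (h ▸ dvd_zero p)
  have hdp : Nat.Coprime p d := (Nat.Prime.coprime_iff_not_dvd hp).2 hd
  by_cases hdn : d ∣ n
  · obtain ⟨m, rfl⟩ := hdn
    rw [if_pos (Nat.dvd_mul_right d m), if_pos (Nat.dvd_mul_right d m),
      Nat.mul_div_cancel_left _ hd0]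
    by_cases hpm : p ∣ m
    · obtain ⟨l, rfl⟩ := hpm
      have e1 : d * (p * l) / p = d * l := by
        rw [show d * (p * l) = p * (d * l) by ring, Nat.mul_div_cancel_left _ hp.pos]
      rw [if_pos (Dvd.intro (d * l) (by ring)), e1, if_pos (Nat.dvd_mul_right d l),
        Nat.mul_div_cancel_left _ hd0, t6_rec p k hp hk a x b c hap hH hx hx0 l]
      have h0 : ((p : ℕ) : ZMod p) = 0 := ZMod.natCast_self p
      have e2 : ψ (b * x l - (if p ∣ l then c * (p : A) ^ (k - 3) * x (l / p) else 0)) =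
          ψ b * ψ (x l) := by
        split_ifs with h
        · rw [map_sub, map_mul, map_mul, map_mul, map_pow, map_natCast, h0,
            zero_pow (by omega), mul_zero, zero_mul, sub_zero]
        · rw [sub_zero, map_mul]
      rw [e2, sub_self]
      push_cast
      rw [h0, zero_mul, mul_zero, zero_pow (by omega), mul_zero, mul_zero]
    · have hpn : ¬ p ∣ d * m := fun h => by
        rcases (Nat.Prime.dvd_mul hp).1 h with h | h
        · exact hd h
        · exact hpm h
      rw [if_neg hpn, mul_zero, sub_zero, ← hx m, map_mul, map_natCast]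
      have h1 : ((d * m : ℕ) : ZMod p) ≠ 0 := by
        rw [Ne, ZMod.natCast_eq_zero_iff]
        exact hpn
      have h2 := ZMod.pow_card_sub_one_eq_one h1
      have h3 : (((d * m : ℕ) : ZMod p)) ^ (p - 1) =
          ((d * m : ℕ) : ZMod p) * ((d * m : ℕ) : ZMod p) ^ (p - 2) := by
        rw [← pow_succ']
        congr 1
        omega
      calc ψ (x m) = ((d * m : ℕ) : ZMod p) ^ (p - 1) * ψ (x m) := by rw [h2, one_mul]
        _ = _ := by
          rw [h3]
          push_cast
          ring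
  · rw [if_neg hdn, if_neg hdn, zero_mul, mul_zero]
    split_ifs with h1 h2
    · exfalso
      apply hdn
      obtain ⟨m, rfl⟩ := h1
      rw [Nat.mul_div_cancel_left _ hp.pos] at h2
      exact Dvd.dvd.mul_left h2 p
    · ring
    · ring

end H18G
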