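import Pool.Agent.Lib.H6V.M2
import Pool.Agent.Lib.H6V.H1

/-!
# H18G, T7: growth of the coefficients and common denominators
-/

namespace H18G

open H53M H94M H53N H6V UpperHalfPlane NumberField

/-- Polynomial growth of the coefficients of a cusp form on `Γ₁(N)`. -/
theorem t7_cusp (N k : ℕ) (hN : N ≠ 0) (hk : 4 ≤ k) (f : CuspForm (Gm1 N) (k : ℤ)) :
    ∃ C : ℝ, 0 ≤ C ∧ ∀ n : ℕ, ‖PowerSeries.coeff n (qExpansion 1 (f : ℍ → ℂ))‖ ≤
      C * ((n : ℝ) + 1) ^ (k - 1) := by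
  have : NeZero N := ⟨hN⟩
  have hsum := cusp_sum N k hk f
  have hS0 : 0 ≤ ∑' n : ℕ, ‖PowerSeries.coeff n (qExpansion 1 (f : ℍ → ℂ))‖ / (n : ℝ) ^ (k - 1) :=
    tsum_nonneg fun n => by positivity
  refine ⟨_, hS0, fun n => ?_⟩
  rcases Nat.eq_zero_or_pos n with rfl | hn
  · rw [CuspFormClass.qExpansion_coeff_zero f one_pos (one_mem_strictPeriodsG1 N), norm_zero]
    positivity
  · have h2 := hsum.le_tsum n fun j _ => by positivity
    have hn' : (0 : ℝ) < n := by exact_mod_cast hn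
    rw [div_le_iff₀ (by positivity)] at h2
    refine h2.trans (mul_le_mul_of_nonneg_left ?_ hS0)
    exact pow_le_pow_left₀ hn'.le (by linarith) _

variable {E : Type*} [Field E] [NumberField E]

/-- Uniform polynomial growth under all complex embeddings. -/
theorem t7_growth (N k : ℕ) (hN : N ≠ 0) (hk : 4 ≤ k) (a : ℕ → 𝓞 E)
    (hf : ∀ σ : E →+* ℂ, ∃ f : CuspForm (Gm1 N) (k : ℤ),
      ∀ n, (qExpansion 1 (f : ℍ → ℂ)).coeff n = σ (a n)) :
    ∃ C : ℝ, 0 ≤ C ∧ ∀ (σ : E →+* ℂ) (n : ℕ), ‖σ (a n)‖ ≤ C * ((n : ℝ) + 1) ^ (k - 1) := by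
  classical
  have h1 : ∀ σ : E →+* ℂ, ∃ C : ℝ, 0 ≤ C ∧ ∀ n : ℕ, ‖σ (a n)‖ ≤ C * ((n : ℝ) + 1) ^ (k - 1) := by
    intro σ
    obtain ⟨f, hf⟩ := hf σ
    obtain ⟨C, hC0, hC⟩ := t7_cusp N k hN hk f
    refine ⟨C, hC0, fun n => ?_⟩
    rw [← hf n]
    exact hC n
  choose C hC0 hC using h1
  refine ⟨∑ σ : E →+* ℂ, C σ, Finset.sum_nonneg fun σ _ => hC0 σ, fun σ n => ?_⟩
  refine (hC σ n).trans (mul_le_mul_of_nonneg_right ?_ (by positivity))
  exact Finset.single_le_sum (f := C) (fun σ _ => hC0 σ) (Finset.mem_univ σ)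

/-- The common denominator. -/
theorem t7_den (a : ℕ → 𝓞 E) (Exc : ℕ → Prop) [DecidablePred Exc]
    (h1 : ∀ p : ℕ, p.Prime → ¬ Exc p → ∀ n r : ℕ, p ^ r ∣ n → (p : 𝓞 E) ^ r ∣ a n)
    (n : ℕ) (hn : n ≠ 0) (Q : ℕ)
    (hQ : ∀ p ∈ n.primeFactors, Exc p → p ^ n.factorization p ∣ Q) :
    (n : 𝓞 E) ∣ (Q : 𝓞 E) * a n := by
  classical
  have h2 : ∏ p ∈ n.primeFactors, p ^ n.factorization p = n := Nat.prod_factorization_pow_eq_self hn
  have h3 : (n : 𝓞 E) = ∏ p ∈ n.primeFactors, (p : 𝓞 E) ^ n.factorization p := by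
    conv_lhs => rw [← h2]
    push_cast
    rfl
  rw [h3]
  refine Finset.prod_dvd_of_coprime ?_ ?_
  · intro p hp q hq hpq
    have hp' : p.Prime := Nat.prime_of_mem_primeFactors hp
    have hq' : q.Prime := Nat.prime_of_mem_primeFactors hq
    have h4 : IsCoprime ((p : ℤ)) ((q : ℤ)) :=
      Nat.isCoprime_iff_coprime.2 ((Nat.coprime_primes hp' hq').2 hpq)
    have h5 := h4.map (Int.castRingHom (𝓞 E))
    have h6 : IsCoprime ((p : 𝓞 E)) ((q : 𝓞 E)) := by simpa using h5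
    exact h6.pow
  · intro p hp
    by_cases hE : Exc p
    · obtain ⟨c, hc⟩ := hQ p hp hE
      rw [hc]
      refine Dvd.dvd.mul_right ?_ _
      exact ⟨(c : 𝓞 E), by push_cast; ring⟩
    · exact Dvd.dvd.mul_left (h1 p (Nat.prime_of_mem_primeFactors hp) hE n _
        (Nat.ordProj_dvd n p)) _

end H18G
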