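import Pool.Agent.Lib.H18G.Defs
import Pool.Agent.Lib.H18G.T5
import Pool.Agent.Lib.H18G.T6
import Pool.Agent.Lib.H18G.T7

/-!
# H18G, T8: the data `DatE` of a newform over a number field
-/

namespace H18G

open H53M H94M H53N H36H H6V H6D UpperHalfPlane NumberField PowerSeries

variable {E : Type*} [Field E] [NumberField E]

theorem t8_AP (a : ℕ → 𝓞 E) (p : ℕ) [hp : Fact p.Prime]
    (h1 : ∀ n r : ℕ, p ^ r ∣ n → (p : 𝓞 E) ^ r ∣ a n) (n : ℕ) :
    (a n : E) / (n : E) ∈ AP E p := by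
  rcases Nat.eq_zero_or_pos n with h0 | h0
  · subst h0
    rw [Nat.cast_zero, div_zero]
    exact (AP E p).zero_mem
  obtain ⟨r, m, hm, hn⟩ := Nat.exists_eq_pow_mul_and_not_dvd h0.ne' p hp.out.ne_one
  obtain ⟨c, hc⟩ := h1 n r ⟨m, hn⟩
  refine ⟨m, hm, c, ?_⟩
  have hp0 : (p : E) ≠ 0 := by exact_mod_cast hp.out.ne_zero
  have hn0 : (n : E) ≠ 0 := by exact_mod_cast h0.ne'
  have h2 : (a n : E) = (p : E) ^ r * (c : E) := by
    have h3 : RingOfIntegers.val ((p : 𝓞 E) ^ r) = (RingOfIntegers.val (p : 𝓞 E)) ^ r :=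
      map_pow (algebraMap (𝓞 E) E) _ _
    rw [hc, val_mul, h3, val_nat]
  have h4 : (n : E) = (p : E) ^ r * (m : E) := by
    rw [hn]
    push_cast
    rfl
  rw [h2, h4]
  have hm0 : (m : E) ≠ 0 := by
    intro h
    rw [h4, h, mul_zero] at hn0
    exact hn0 rfl
  field_simp

/-- `a(n)/n` as a `p`-integral element. -/
noncomputable def xA (a : ℕ → 𝓞 E) (p : ℕ) [hp : Fact p.Prime]
    (h1 : ∀ n r : ℕ, p ^ r ∣ n → (p : 𝓞 E) ^ r ∣ a n) (n : ℕ) : AP E p :=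
  ⟨(a n : E) / (n : E), t8_AP a p h1 n⟩

/-- The reduction of `h(q^d)`. -/
noncomputable def gA (a : ℕ → 𝓞 E) (p : ℕ) [hp : Fact p.Prime]
    (h1 : ∀ n r : ℕ, p ^ r ∣ n → (p : 𝓞 E) ^ r ∣ a n) (φ : 𝓞 E →+* ZMod p) (d : ℕ) :
    PowerSeries (ZMod p) :=
  PowerSeries.mk fun n => if d ∣ n then ext φ (xA a p h1 (n / d)) else 0

theorem gA_red (a : ℕ → 𝓞 E) (p : ℕ) [hp : Fact p.Prime]
    (h1 : ∀ n r : ℕ, p ^ r ∣ n → (p : 𝓞 E) ^ r ∣ a n) (φ : 𝓞 E →+* ZMod p) (d : ℕ) :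
    Red p φ (HE a d) (gA a p h1 φ d) := by
  refine ⟨PowerSeries.mk fun n => if d ∣ n then xA a p h1 (n / d) else 0, ?_, ?_⟩
  · ext n
    unfold HE
    rw [coeff_map, coeff_mk, coeff_mk]
    split_ifs with h
    · rfl
    · exact map_zero _
  · ext n
    unfold gA
    rw [coeff_map, coeff_mk, coeff_mk]
    split_ifs with h
    · rfl
    · exact map_zero _

theorem gA_sub (a : ℕ → 𝓞 E) (p k : ℕ) [hp : Fact p.Prime] (h5 : 5 < p) (hk : 4 ≤ k) (b c : 𝓞 E)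
    (hap : a p = p * b)
    (hH : ∀ n, a (p * n) = a p * a n -
      (if p ∣ n then c * (p : 𝓞 E) ^ (k - 1) * a (n / p) else 0))
    (h1 : ∀ n r : ℕ, p ^ r ∣ n → (p : 𝓞 E) ^ r ∣ a n) (h0 : a 0 = 0) (φ : 𝓞 E →+* ZMod p) (d : ℕ)
    (hd : ¬ p ∣ d) :
    gA a p h1 φ d - C (φ b) * expand p (NeZero.ne p) (gA a p h1 φ d) =
      (d : ZMod p) • gpE a p φ d := by
  have hcz : CharZero (AP E p) := by
    refine ⟨fun m n h => ?_⟩
    have h2 := congrArg (AP E p).subtype h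
    rw [map_natCast, map_natCast] at h2
    exact_mod_cast h2
  let a' : ℕ → AP E p := fun n => ⟨(a n : E), int_mem_AP (a n)⟩
  have hx : ∀ n : ℕ, (n : AP E p) * xA a p h1 n = a' n := by
    intro n
    apply Subtype.ext
    change ((n : AP E p) : E) * ((a n : E) / (n : E)) = (a n : E)
    rcases Nat.eq_zero_or_pos n with hn | hn
    · subst hn
      rw [h0]
      simp
    · have hn0 : (n : E) ≠ 0 := by exact_mod_cast hn.ne'
      have h2 : ((n : AP E p) : E) = (n : E) := by simp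
      rw [h2]
      field_simp
  have hx0 : xA a p h1 0 = 0 := by
    apply Subtype.ext
    change (a 0 : E) / ((0 : ℕ) : E) = 0
    simp
  have hap' : a' p = p * ⟨(b : E), int_mem_AP b⟩ := by
    apply Subtype.ext
    change (a p : E) = ((p : AP E p) : E) * (b : E)
    rw [hap, val_mul, val_nat]
    simp
  have hH' : ∀ n, a' (p * n) = a' p * a' n -
      (if p ∣ n then (⟨(c : E), int_mem_AP c⟩ : AP E p) * (p : AP E p) ^ (k - 1) * a' (n / p)
        else 0) := by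
    intro n
    apply Subtype.ext
    have h2 := congrArg (algebraMap (𝓞 E) E) (hH n)
    split_ifs with h
    · rw [if_pos h] at h2
      change algebraMap (𝓞 E) E (a (p * n)) = algebraMap (𝓞 E) E (a p) * algebraMap (𝓞 E) E (a n) -
        algebraMap (𝓞 E) E c * (((p : AP E p) ^ (k - 1) : AP E p) : E) *
          algebraMap (𝓞 E) E (a (n / p))
      rw [h2, (algebraMap (𝓞 E) E).map_sub, (algebraMap (𝓞 E) E).map_mul,
        (algebraMap (𝓞 E) E).map_mul, (algebraMap (𝓞 E) E).map_mul, map_pow, map_natCast]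
      simp
    · rw [if_neg h, sub_zero] at h2
      rw [sub_zero]
      change algebraMap (𝓞 E) E (a (p * n)) = algebraMap (𝓞 E) E (a p) * algebraMap (𝓞 E) E (a n)
      rw [h2, (algebraMap (𝓞 E) E).map_mul]
  ext n
  have h3 := t6_sub p k h5 hk a' (xA a p h1) ⟨(b : E), int_mem_AP b⟩ ⟨(c : E), int_mem_AP c⟩ hap'
    hH' hx hx0 (ext φ) d hd n
  have h4 : ext φ (⟨(b : E), int_mem_AP b⟩ : AP E p) = φ b := ext_int φ b
  rw [h4] at h3
  rw [map_sub, coeff_C_mul, coeff_expand, coeff_smul, smul_eq_mul]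
  unfold gA gpE
  rw [coeff_mk, coeff_mk, coeff_mk, h3]
  congr 2
  unfold adR
  split_ifs with h
  · exact ext_int φ _
  · simp

theorem t8_rec (k : ℕ) (hk : 4 ≤ k) (a : ℕ → 𝓞 E) (p : ℕ) (hp : p.Prime) (c : 𝓞 E)
    (hd : (p : 𝓞 E) ∣ a p)
    (hH : ∀ n, a (p * n) = a p * a n -
      (if p ∣ n then c * (p : 𝓞 E) ^ (k - 1) * a (n / p) else 0))
    (n r : ℕ) (hn : p ^ r ∣ n) : (p : 𝓞 E) ^ r ∣ a n := by
  rcases Nat.eq_zero_or_pos r with h0 | h0
  · subst h0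
    rw [pow_zero]
    exact one_dvd _
  · have h1 := rec_dvd a (fun _ => c) p k 1 hp le_rfl (by omega) hH (by rw [pow_one]; exact hd) n r
      h0 hn
    have h2 : r + 1 - 1 = r := by omega
    rwa [h2] at h1

theorem t8_den (a : ℕ → 𝓞 E) (Exc : ℕ → Prop) [DecidablePred Exc]
    (h1 : ∀ p : ℕ, p.Prime → ¬ Exc p → ∀ n r : ℕ, p ^ r ∣ n → (p : 𝓞 E) ^ r ∣ a n)
    (d : ℕ) (n : ℕ) :
    ∃ z : 𝓞 E, (DG Exc 1 1 n : E) * coeff n (HE a d) = z := by
  unfold HE
  rw [coeff_mk]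
  split_ifs with h
  · rcases Nat.eq_zero_or_pos (n / d) with h0 | h0
    · rw [h0]
      exact ⟨0, by simp⟩
    · obtain ⟨z, hz⟩ := t7_den a Exc h1 (n / d) h0.ne' (DG Exc 1 1 n) (by
        intro p hp hE
        have hp' : p.Prime := Nat.prime_of_mem_primeFactors hp
        have h2 : p ^ (n / d).factorization p ≤ n + 1 := by
          have h3 := Nat.le_of_dvd h0 (Nat.ordProj_dvd (n / d) p)
          have h4 := Nat.div_le_self n d
          omega
        have h5 : p ≤ n + 1 := by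
          have h3 := Nat.le_of_dvd h0 (Nat.dvd_of_mem_primeFactors hp)
          have h4 := Nat.div_le_self n d
          omega
        have h6 : p ^ Nat.log p (1 * (n + 1) ^ 1) ∣ DG Exc 1 1 n := by
          unfold DG
          exact Finset.dvd_prod_of_mem (fun p => p ^ Nat.log p (1 * (n + 1) ^ 1))
            (by
              rw [Finset.mem_filter, Finset.mem_range, one_mul, pow_one]
              exact ⟨by omega, hp', hE⟩)
        refine (pow_dvd_pow p ?_).trans h6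
        rw [one_mul, pow_one]
        exact Nat.le_log_of_pow_le hp'.one_lt h2)
      refine ⟨z, ?_⟩
      have hm0 : ((n / d : ℕ) : E) ≠ 0 := by exact_mod_cast h0.ne'
      have h7 := congrArg (algebraMap (𝓞 E) E) hz
      rw [(algebraMap (𝓞 E) E).map_mul, (algebraMap (𝓞 E) E).map_mul, map_natCast,
        map_natCast] at h7
      change (DG Exc 1 1 n : E) * (algebraMap (𝓞 E) E (a (n / d)) / ((n / d : ℕ) : E)) =
        algebraMap (𝓞 E) E z
      rw [← mul_div_assoc, h7, mul_div_cancel_left₀ _ hm0]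
  · exact ⟨0, by simp⟩

theorem t8_growth (a : ℕ → 𝓞 E) (C : ℝ) (hC0 : 0 ≤ C) (K : ℕ)
    (hC : ∀ (σ : E →+* ℂ) (n : ℕ), ‖σ (a n)‖ ≤ C * ((n : ℝ) + 1) ^ K)
    (d : ℕ) (τ : E →+* ℂ) (n : ℕ) :
    ‖τ (coeff n (HE a d))‖ ≤ C * ((n : ℝ) + 1) ^ K := by
  unfold HE
  rw [coeff_mk]
  split_ifs with h
  · rcases Nat.eq_zero_or_pos (n / d) with h0 | h0
    · rw [h0, Nat.cast_zero, div_zero, map_zero, norm_zero]
      positivity
    · rw [map_div₀, map_natCast, norm_div, Complex.norm_natCast]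
      have h1 : (1 : ℝ) ≤ ((n / d : ℕ) : ℝ) := by exact_mod_cast h0
      refine (div_le_self (norm_nonneg _) h1).trans ((hC τ (n / d)).trans ?_)
      refine mul_le_mul_of_nonneg_left (pow_le_pow_left₀ (by positivity) ?_ _) hC0
      have h2 : ((n / d : ℕ) : ℝ) ≤ (n : ℝ) := by exact_mod_cast Nat.div_le_self n d
      linarith
  · rw [map_zero, norm_zero]
    positivity

/-- The data of Theorem D over `E`, for a newform on `Γ₁(N)`. -/
theorem dat_ofE (N k r : ℕ) (hN : N ≠ 0) (hk : 4 ≤ k) (E : Type*) [Field E] [NumberField E]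
    (a χ : ℕ → 𝓞 E)
    (hf : ∀ σ : E →+* ℂ, ∃ f : CuspForm (Gm1 N) (k : ℤ),
      ∀ n, (qExpansion 1 (f : ℍ → ℂ)).coeff n = σ (a n))
    (h1 : a 1 = 1)
    (hH : ∀ p : ℕ, p.Prime → ¬ p ∣ N → ∀ n,
      a (p * n) = a p * a n - (if p ∣ n then χ p * (p : 𝓞 E) ^ (k - 1) * a (n / p) else 0)) :
    ∃ B : ℕ, ∀ b : ℕ → 𝓞 E, (∀ p : ℕ, p.Prime → (p : 𝓞 E) ∣ a p → a p = p * b p) →
      ∀ (Exc : ℕ → Prop) [DecidablePred Exc],
      (∀ p : ℕ, p.Prime → ¬ Exc p → (p : 𝓞 E) ∣ a p ∧ B < p) →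
      DatE E r (k - 2) (12 * (mu1 (N * r.factorial) + 1)) 0
        (fun s : Fin r => HE a ((s : ℕ) + 1)) b Exc := by
  obtain ⟨B₀, hB₀⟩ := gpE_mem N k hN hk E a hf h1
  obtain ⟨C, hC0, hC⟩ := t7_growth N k hN hk a hf
  have : NeZero N := ⟨hN⟩
  have hM : NeZero (N * r.factorial) := ⟨Nat.mul_ne_zero hN (Nat.factorial_ne_zero r)⟩
  have h0 : a 0 = 0 := by
    obtain ⟨σ⟩ : Nonempty (E →+* ℂ) := inferInstance
    obtain ⟨f, hf⟩ := hf σ
    have h2 := CuspFormClass.qExpansion_coeff_zero f one_pos (one_mem_strictPeriodsG1 N)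
    rw [hf 0] at h2
    have h3 : ((a 0 : 𝓞 E) : E) = 0 := σ.injective (by rw [h2, map_zero])
    exact RingOfIntegers.ext (by rw [h3]; exact (map_zero (algebraMap (𝓞 E) E)).symm)
  refine ⟨max B₀ (N + r + 5), fun b hb Exc hdec hExc => ?_⟩
  have hbig : ∀ p, p.Prime → ¬ Exc p → B₀ < p ∧ N + r + 5 < p := fun p hp hE =>
    ⟨(le_max_left _ _).trans_lt (hExc p hp hE).2, (le_max_right _ _).trans_lt (hExc p hp hE).2⟩
  have hpN : ∀ p, p.Prime → ¬ Exc p → ¬ p ∣ N := fun p hp hE h => by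
    have h2 := Nat.le_of_dvd (Nat.pos_of_ne_zero hN) h
    have h3 := (hbig p hp hE).2
    omega
  have hint : ∀ p : ℕ, p.Prime → ¬ Exc p → ∀ n r : ℕ, p ^ r ∣ n → (p : 𝓞 E) ^ r ∣ a n :=
    fun p hp hE n r hn => t8_rec k hk a p hp (χ p) (hExc p hp hE).1 (hH p hp (hpN p hp hE)) n r hn
  refine ⟨?_, ⟨C, k - 1, fun τ σ n => t8_growth a C hC0 (k - 1) hC _ τ n⟩,
    fun σ n => t8_den a Exc hint _ n, fun p hp hE => ?_, ?_, ?_⟩
  · intro σ
    unfold HE
    rw [coeff_mk, if_pos (dvd_zero _), Nat.zero_div, Nat.cast_zero, div_zero]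
  · have := (hbig p hp hE).2
    omega
  · omega
  · intro p hp hE φ
    have hp' : p.Prime := hp.out
    refine ⟨fun σ => gA a p (hint p hp' hE) φ ((σ : ℕ) + 1),
      fun σ => gA_red a p (hint p hp' hE) φ _,
      fun w => MN1 (N * r.factorial) p w, mfam_MN1 (N * r.factorial) p, fun σ => ?_⟩
    have hd1 : ((σ : ℕ) + 1) ≤ r := σ.2
    have hpd : ¬ p ∣ (σ : ℕ) + 1 := fun h => by
      have h2 := Nat.le_of_dvd (Nat.succ_pos _) h
      have h3 := (hbig p hp' hE).2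
      omega
    rw [gA_sub a p k (by have := (hbig p hp' hE).2; omega) hk (b p) (χ p)
      (hb p hp' (hExc p hp' hE).1) (hH p hp' (hpN p hp' hE)) (hint p hp' hE) h0 φ _ hpd]
    refine Submodule.smul_mem _ _ (hB₀ p (hbig p hp' hE).1 φ ((σ : ℕ) + 1) (N * r.factorial)
      (by omega) (Nat.mul_dvd_mul_left N (Nat.dvd_factorial (Nat.succ_pos _) hd1)))

end H18G
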