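import Pool.Agent.Lib.H18G.ZE2
import Pool.Agent.Lib.H18G.F5E
import Pool.Agent.Lib.H41I.A11
import Pool.Agent.Lib.H65Z.B7

/-!
# H18G, ZE3: the zero estimate of the master theorem for a newform on `Γ₁(N)`
-/

namespace H18G

open H53M H94M H53N H6V UpperHalfPlane NumberField

theorem zee (N k : ℕ) (hN : N ≠ 0) (hk : 4 ≤ k) (E : Type*) [Field E] [NumberField E]
    (a : ℕ → 𝓞 E)
    (hf : ∀ σ : E →+* ℂ, ∃ f : CuspForm (Gm1 N) (k : ℤ),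
      ∀ n, (qExpansion 1 (f : ℍ → ℂ)).coeff n = σ (a n))
    (h1 : a 1 = 1) : ZEE (fun s : Fin 12 => HE a ((s : ℕ) + 1)) := by
  obtain ⟨τ⟩ : Nonempty (E →+* ℂ) := inferInstance
  obtain ⟨f, hfτ⟩ := hf τ
  have hcf : H65Z.CF N (k - 2) (fun n => τ (a n)) := cf_of_cusp N k hN hk f _ hfτ
  have hd1 : ∀ s : Fin 12, 1 ≤ ((s : ℕ) + 1) := fun s => by omega
  have hdi : Function.Injective (fun s : Fin 12 => (s : ℕ) + 1) := fun s t h =>
    Fin.ext (by simpa using h)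
  have hτ : τ (a 1) ≠ 0 := by
    rw [h1]
    simp
  obtain ⟨C, hC⟩ := zee_of a 12 (fun s : Fin 12 => (s : ℕ) + 1) τ
    (H65Z.zero_est hN hcf _ hd1)
    (fun J W c hc => H41I.ai_of_cusp N k hN hk f _ hfτ hτ _ hdi hd1 J W c hc)
  refine ⟨C, fun J₀ => ⟨max J₀ 1, le_max_left _ _, C * (max J₀ 1) ^ 28, fun W x hx => ?_⟩⟩
  obtain ⟨n, hn, hne⟩ := hC (max J₀ 1) (le_max_right _ _) W x hx
  refine ⟨n, hn.trans (le_of_eq (by ring)), ?_⟩
  rw [ggR_zero]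
  exact hne

end H18G
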