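import Pool.Agent.Lib.H18G.F5E
import Pool.Agent.Lib.H18G.F7E
import Pool.Agent.Lib.H18G.T8
import Pool.Agent.Lib.H18G.ZE3

/-!
# H18G, Fin: the ordinary primes of a newform of weight at least four have positive lower density
-/

namespace H18G

open H53M H94M H53N H36D NumberField UpperHalfPlane Filter Topology

/-- **Theorem D.** The ordinary primes have positive lower density. -/
theorem ordinary_density (N k : ℕ) (hN : N ≠ 0) (hk : 4 ≤ k) (E : Type*) [Field E] [NumberField E]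
    (a χ : ℕ → 𝓞 E)
    (hf : ∀ σ : E →+* ℂ, ∃ f : CuspForm (Gm1 N) (k : ℤ),
      ∀ n, (qExpansion 1 (f : ℍ → ℂ)).coeff n = σ (a n))
    (h1 : a 1 = 1) (hχ : ∀ p : ℕ, p.Prime → ¬ p ∣ N → IsUnit (χ p))
    (hH : ∀ p : ℕ, p.Prime → ¬ p ∣ N → ∀ n,
      a (p * n) = a p * a n - (if p ∣ n then χ p * (p : 𝓞 E) ^ (k - 1) * a (n / p) else 0)) :
    ∃ c : ℝ, 0 < c ∧ ∀ᶠ X : ℕ in atTop, c * (Nat.primeCounting X : ℝ) ≤
      (Set.ncard {p : ℕ | p ≤ X ∧ p.Prime ∧ (¬ p ∣ N ∧ ∃ (_ : Fact p.Prime)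
        (τ : E →+* PadicAlgCl p) (x y : PadicAlgCl p),
        x + y = τ (a p : E) ∧ x * y = τ (χ p : E) * (p : PadicAlgCl p) ^ (k - 1) ∧
          ‖x‖ = 1 ∧ ‖y‖ = (p : ℝ) ^ (-((k : ℤ) - 1)))} : ℝ) := by
  classical
  exact density_core N k hN hk E a χ hχ (dat_ofE N k 12 hN hk E a χ hf h1 hH)
    (fun b Exc _ hD => scaleE hD (zee N k hN hk E a hf h1))

end H18G
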