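import Mathlib

/-!
# H18G, KO1: the theorem of Kolchin and Ostrowski for power series

`K` a field of characteristic zero, `A` a `K`-subalgebra of `K⟦X⟧` stable under `d/dX`, `h s` power series
with derivatives in `A`. If the `h s` are algebraically dependent over `A`, then a nontrivial linear
combination of them with constant coefficients is a quotient of two elements of `A`.
-/

namespace H18G

open PowerSeries

section

variable {K : Type*} [Field K] [CharZero K]

/-- The field of constants. -/
theorem const_of_wronskian {v x : PowerSeries K} (hv : v ≠ 0)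
    (h : v * derivative K x = derivative K v * x) : ∃ t : K, x = C t * v := by
  obtain ⟨ν, hν⟩ : ∃ ν : ℕ, v.order = ν := by
    have h1 := order_finite_iff_ne_zero.2 hv
    exact ⟨v.order.toNat, (ENat.natCast_toNat (ne_of_lt h1)).symm⟩
  have hv1 : coeff ν v ≠ 0 := by
    have := coeff_order hv
    rw [hν] at this
    simpa using this
  have hv2 : ∀ i, i < ν → coeff i v = 0 := fun i hi =>
    coeff_of_lt_order i (by rw [hν]; exact_mod_cast hi)
  refine ⟨coeff ν x / coeff ν v, ?_⟩
  by_contra hne
  obtain ⟨y, hy⟩ : ∃ y, y = x - C (coeff ν x / coeff ν v) * v := ⟨_, rfl⟩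
  have hy0 : y ≠ 0 := by
    rw [hy]
    exact sub_ne_zero.2 hne
  have hyν : coeff ν y = 0 := by
    rw [hy, map_sub, coeff_C_mul, div_mul_cancel₀ _ hv1, sub_self]
  have hyD : v * derivative K y = derivative K v * y := by
    rw [hy, map_sub, mul_sub, mul_sub, h, Derivation.leibniz, derivative_C]
    simp only [smul_eq_mul, mul_zero, add_zero]
    ring
  obtain ⟨μ, hμ⟩ : ∃ μ : ℕ, y.order = μ := by
    have h1 := order_finite_iff_ne_zero.2 hy0
    exact ⟨y.order.toNat, (ENat.natCast_toNat (ne_of_lt h1)).symm⟩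
  have hμ1 : coeff μ y ≠ 0 := by
    have := coeff_order hy0
    rw [hμ] at this
    simpa using this
  have hμ2 : ∀ i, i < μ → coeff i y = 0 := fun i hi =>
    coeff_of_lt_order i (by rw [hμ]; exact_mod_cast hi)
  have hXD : ∀ (f : PowerSeries K) (n : ℕ), coeff n (X * derivative K f) = n * coeff n f := by
    intro f n
    cases n with
    | zero => simp
    | succ n =>
      rw [coeff_succ_X_mul, coeff_derivative]
      push_cast
      ring
  have h1 : v * (X * derivative K y) = (X * derivative K v) * y := by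
    calc v * (X * derivative K y) = X * (v * derivative K y) := by ring
      _ = _ := by rw [hyD]; ring
  have h2 := congrArg (coeff (ν + μ)) h1
  rw [coeff_mul, coeff_mul] at h2
  rw [Finset.sum_eq_single (ν, μ), Finset.sum_eq_single (ν, μ)] at h2
  · simp only [hXD] at h2
    have h3 : ((μ : K) - ν) * (coeff ν v * coeff μ y) = 0 := by
      linear_combination h2
    rcases mul_eq_zero.1 h3 with h4 | h4
    · have h5 : (μ : K) = ν := sub_eq_zero.1 h4
      have h6 : μ = ν := by exact_mod_cast h5
      rw [h6] at hμ1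
      exact hμ1 hyν
    · exact (mul_ne_zero hv1 hμ1) h4
  · rintro ⟨i, j⟩ hij hne'
    rw [Finset.HasAntidiagonal.mem_antidiagonal] at hij
    simp only at hij ⊢
    by_cases hi : i < ν
    · rw [hXD, hv2 i hi]
      ring
    · have hj : j < μ := by
        by_contra hj
        apply hne'
        have : i = ν ∧ j = μ := by omega
        rw [this.1, this.2]
      rw [hμ2 j hj, mul_zero]
  · intro hn
    exact (hn (Finset.HasAntidiagonal.mem_antidiagonal.2 (by simp))).elim
  · rintro ⟨i, j⟩ hij hne'
    rw [Finset.HasAntidiagonal.mem_antidiagonal] at hij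
    simp only at hij ⊢
    by_cases hi : i < ν
    · rw [hv2 i hi, zero_mul]
    · have hj : j < μ := by
        by_contra hj
        apply hne'
        have : i = ν ∧ j = μ := by omega
        rw [this.1, this.2]
      rw [hXD, hμ2 j hj]
      ring
  · intro hn
    exact (hn (Finset.HasAntidiagonal.mem_antidiagonal.2 (by simp))).elim

/-- The coefficientwise derivative. -/
noncomputable def mapD {σ : Type*} (Q : MvPolynomial σ (PowerSeries K)) :
    MvPolynomial σ (PowerSeries K) :=
  ∑ m ∈ Q.support, MvPolynomial.monomial m (derivative K (MvPolynomial.coeff m Q))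

omit [CharZero K] in
theorem coeff_mapD {σ : Type*} (Q : MvPolynomial σ (PowerSeries K)) (m : σ →₀ ℕ) :
    MvPolynomial.coeff m (mapD Q) = derivative K (MvPolynomial.coeff m Q) := by
  classical
  unfold mapD
  rw [MvPolynomial.coeff_sum]
  simp only [MvPolynomial.coeff_monomial]
  rw [Finset.sum_ite_eq' Q.support m]
  split_ifs with hm
  · rfl
  · rw [MvPolynomial.notMem_support_iff.1 hm, map_zero]

omit [CharZero K] in
theorem mapD_add {σ : Type*} (P Q : MvPolynomial σ (PowerSeries K)) :
    mapD (P + Q) = mapD P + mapD Q := by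
  ext1 m
  rw [coeff_mapD, MvPolynomial.coeff_add, MvPolynomial.coeff_add, coeff_mapD, coeff_mapD, map_add]

theorem mapD_C {σ : Type*} (a : PowerSeries K) :
    mapD (MvPolynomial.C a : MvPolynomial σ (PowerSeries K)) =
      MvPolynomial.C (derivative K a) := by
  classical
  ext1 m
  rw [coeff_mapD, MvPolynomial.coeff_C, MvPolynomial.coeff_C]
  split_ifs
  · rfl
  · rw [map_zero]

theorem mapD_mul_X {σ : Type*} (Q : MvPolynomial σ (PowerSeries K)) (s : σ) :
    mapD (Q * MvPolynomial.X s) = mapD Q * MvPolynomial.X s := by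
  classical
  ext1 m
  rw [coeff_mapD, MvPolynomial.coeff_mul_X', MvPolynomial.coeff_mul_X', coeff_mapD]
  split_ifs
  · rfl
  · rw [map_zero]

variable {σ : Type*} [Fintype σ]

/-- The derivative of a polynomial in the `h s`. -/
noncomputable def dE (h : σ → PowerSeries K) (Q : MvPolynomial σ (PowerSeries K)) :
    MvPolynomial σ (PowerSeries K) :=
  mapD Q + ∑ s, MvPolynomial.C (derivative K (h s)) * MvPolynomial.pderiv s Q

theorem eval_dE (h : σ → PowerSeries K) (Q : MvPolynomial σ (PowerSeries K)) :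
    derivative K (MvPolynomial.eval h Q) = MvPolynomial.eval h (dE h Q) := by
  classical
  induction Q using MvPolynomial.induction_on with
  | C a =>
    unfold dE
    rw [mapD_C]
    simp
  | add p q hp hq =>
    have : dE h (p + q) = dE h p + dE h q := by
      unfold dE
      simp only [mapD_add, map_add, mul_add, Finset.sum_add_distrib]
      ring
    rw [this, map_add, map_add, map_add, hp, hq]
  | mul_X p s hp =>
    have h1 : dE h (p * MvPolynomial.X s) =
        dE h p * MvPolynomial.X s + MvPolynomial.C (derivative K (h s)) * p := by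
      unfold dE
      rw [mapD_mul_X]
      have h2 : ∀ t, MvPolynomial.pderiv t (p * MvPolynomial.X s) =
          MvPolynomial.pderiv t p * MvPolynomial.X s +
            (if t = s then p else 0) := by
        intro t
        rw [MvPolynomial.pderiv_mul, MvPolynomial.pderiv_X]
        by_cases hts : t = s
        · subst hts
          simp
        · rw [if_neg hts, Pi.single_eq_of_ne (fun h => hts h.symm)]
          simp
      simp only [h2, mul_add, Finset.sum_add_distrib]
      rw [add_mul, Finset.sum_mul]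
      simp only [mul_ite, mul_zero, Finset.sum_ite_eq', Finset.mem_univ, if_true]
      have h3 : ∑ t, MvPolynomial.C (derivative K (h t)) *
          (MvPolynomial.pderiv t p * MvPolynomial.X s) =
          ∑ t, MvPolynomial.C (derivative K (h t)) * MvPolynomial.pderiv t p *
            MvPolynomial.X s := Finset.sum_congr rfl fun t _ => by ring
      rw [h3]
      ring
    rw [h1]
    simp only [map_add, map_mul, MvPolynomial.eval_X, MvPolynomial.eval_C, ← hp]
    rw [Derivation.leibniz]
    simp only [smul_eq_mul]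
    ring

theorem coeff_dE (h : σ → PowerSeries K) (Q : MvPolynomial σ (PowerSeries K)) (m : σ →₀ ℕ) :
    MvPolynomial.coeff m (dE h Q) = derivative K (MvPolynomial.coeff m Q) +
      ∑ s, derivative K (h s) * (MvPolynomial.coeff (m + Finsupp.single s 1) Q * (m s + 1)) := by
  unfold dE
  rw [MvPolynomial.coeff_add, coeff_mapD, MvPolynomial.coeff_sum]
  congr 1
  refine Finset.sum_congr rfl fun s _ => ?_
  rw [MvPolynomial.coeff_C_mul, MvPolynomial.coeff_pderiv]

/-- The reduced relation. -/
noncomputable def red (h : σ → PowerSeries K) (v : PowerSeries K)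
    (Q : MvPolynomial σ (PowerSeries K)) : MvPolynomial σ (PowerSeries K) :=
  MvPolynomial.C v * dE h Q - MvPolynomial.C (derivative K v) * Q

theorem coeff_red (h : σ → PowerSeries K) (v : PowerSeries K)
    (Q : MvPolynomial σ (PowerSeries K)) (m : σ →₀ ℕ) :
    MvPolynomial.coeff m (red h v Q) = v * (derivative K (MvPolynomial.coeff m Q) +
      ∑ s, derivative K (h s) * (MvPolynomial.coeff (m + Finsupp.single s 1) Q * (m s + 1))) -
        derivative K v * MvPolynomial.coeff m Q := by
  unfold red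
  rw [MvPolynomial.coeff_sub, MvPolynomial.coeff_C_mul, MvPolynomial.coeff_C_mul, coeff_dE]

theorem eval_red (h : σ → PowerSeries K) (v : PowerSeries K)
    (Q : MvPolynomial σ (PowerSeries K)) (h0 : MvPolynomial.eval h Q = 0) :
    MvPolynomial.eval h (red h v Q) = 0 := by
  unfold red
  rw [map_sub, map_mul, map_mul, h0, ← eval_dE, h0]
  simp

/-- **Kolchin-Ostrowski.** -/
theorem kolchin_ostrowski (A : Subalgebra K (PowerSeries K))
    (hA : ∀ f ∈ A, derivative K f ∈ A) (h : σ → PowerSeries K)
    (hh : ∀ s, derivative K (h s) ∈ A) (Q : MvPolynomial σ (PowerSeries K)) (hQ : Q ≠ 0)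
    (hc : ∀ m, MvPolynomial.coeff m Q ∈ A) (h0 : MvPolynomial.eval h Q = 0) :
    ∃ (c : σ → K) (v u : PowerSeries K), c ≠ 0 ∧ v ≠ 0 ∧ v ∈ A ∧ u ∈ A ∧
      v * ∑ s, C (c s) * h s = u := by
  classical
  -- minimal degree
  obtain ⟨P, hP⟩ : ∃ P : ℕ → MvPolynomial σ (PowerSeries K) → Prop, ∀ n Q, P n Q ↔
      (Q ≠ 0 ∧ (∀ m, MvPolynomial.coeff m Q ∈ A) ∧ MvPolynomial.eval h Q = 0 ∧
        ∀ m, MvPolynomial.coeff m Q ≠ 0 → m.degree ≤ n) :=
    ⟨fun n Q => (Q ≠ 0 ∧ (∀ m, MvPolynomial.coeff m Q ∈ A) ∧ MvPolynomial.eval h Q = 0 ∧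
        ∀ m, MvPolynomial.coeff m Q ≠ 0 → m.degree ≤ n), fun n Q => Iff.rfl⟩
  have hex : ∃ n, ∃ Q, P n Q := by
    refine ⟨Q.totalDegree, Q, (hP _ _).2 ⟨hQ, hc, h0, fun m hm => ?_⟩⟩
    have := MvPolynomial.le_totalDegree (MvPolynomial.mem_support_iff.2 hm)
    rw [Finsupp.degree_eq_sum, ]
    rw [Finsupp.sum_fintype _ _ (fun _ => rfl)] at this
    exact this
  obtain ⟨n, hn⟩ : ∃ n, n = Nat.find hex := ⟨_, rfl⟩
  have hn1 : ∃ Q, P n Q := hn ▸ Nat.find_spec hex
  have hn2 : ∀ n' < n, ¬ ∃ Q, P n' Q := fun n' hn' => Nat.find_min hex (hn ▸ hn')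
  -- minimal number of top terms
  have hex2 : ∃ N, ∃ Q, P n Q ∧ (Q.support.filter (fun m => m.degree = n)).card = N := by
    obtain ⟨Q, hQ'⟩ := hn1
    exact ⟨_, Q, hQ', rfl⟩
  obtain ⟨N, hN⟩ : ∃ N, N = Nat.find hex2 := ⟨_, rfl⟩
  obtain ⟨Q₁, hQ1, hQN⟩ : ∃ Q, P n Q ∧ (Q.support.filter (fun m => m.degree = n)).card = N :=
    hN ▸ Nat.find_spec hex2
  have hN2 : ∀ N' < N, ¬ ∃ Q, P n Q ∧ (Q.support.filter (fun m => m.degree = n)).card = N' :=
    fun N' hN' => Nat.find_min hex2 (hN ▸ hN')
  obtain ⟨q1, q2, q3, q4⟩ := (hP _ _).1 hQ1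
  have hnpos : 1 ≤ n := by
    by_contra hcon
    have hn0 : n = 0 := by omega
    have h1 : Q₁ = MvPolynomial.C (MvPolynomial.coeff 0 Q₁) := by
      ext1 m
      rw [MvPolynomial.coeff_C]
      split_ifs with hm
      · rw [← hm]
      · by_contra hm1
        have h2 := q4 m hm1
        rw [hn0] at h2
        apply hm
        have h3 : m.degree = 0 := by omega
        exact ((Finsupp.degree_eq_zero_iff m).1 h3).symm
    rw [h1, MvPolynomial.eval_C] at q3
    rw [q3, map_zero] at h1
    exact q1 h1
  obtain ⟨β, hβ1, hβ2⟩ : ∃ β, MvPolynomial.coeff β Q₁ ≠ 0 ∧ β.degree = n := by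
    by_contra hcon
    push Not at hcon
    refine hn2 (n - 1) (by omega) ⟨Q₁, (hP _ _).2 ⟨q1, q2, q3, fun m hm => ?_⟩⟩
    have h1 := q4 m hm
    have h2 := hcon m hm
    omega
  obtain ⟨v, hv⟩ : ∃ v, v = MvPolynomial.coeff β Q₁ := ⟨_, rfl⟩
  have hv0 : v ≠ 0 := hv ▸ hβ1
  have hvA : v ∈ A := hv ▸ q2 β
  have hdeg : ∀ (m : σ →₀ ℕ) (s : σ), (m + Finsupp.single s 1).degree = m.degree + 1 := by
    intro m s
    rw [map_add, Finsupp.degree_single]
  have hbig : ∀ m : σ →₀ ℕ, n < m.degree → MvPolynomial.coeff m Q₁ = 0 := by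
    intro m hm
    by_contra h1
    exact absurd (q4 m h1) (by omega)
  have hred0 : red h v Q₁ = 0 := by
    by_contra hne
    have hPr : P n (red h v Q₁) := by
      refine (hP _ _).2 ⟨hne, fun m => ?_, eval_red h v Q₁ q3, fun m hm => ?_⟩
      · rw [coeff_red]
        refine A.sub_mem (A.mul_mem hvA (A.add_mem (hA _ (q2 m)) (A.sum_mem fun s _ => ?_)))
          (A.mul_mem (hA _ hvA) (q2 m))
        refine A.mul_mem (hh s) (A.mul_mem (q2 _) ?_)
        have : ((m s : PowerSeries K) + 1) = ((m s + 1 : ℕ) : PowerSeries K) := by push_cast; rfl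
        rw [this]
        exact natCast_mem A _
      · by_contra hcon
        apply hm
        rw [coeff_red, hbig m (by omega)]
        have : ∀ s, MvPolynomial.coeff (m + Finsupp.single s 1) Q₁ = 0 := fun s =>
          hbig _ (by rw [hdeg]; omega)
        simp [this]
    refine hN2 _ ?_ ⟨red h v Q₁, hPr, rfl⟩
    rw [← hQN]
    refine Finset.card_lt_card ?_
    rw [Finset.ssubset_iff_of_subset]
    · refine ⟨β, ?_, ?_⟩
      · rw [Finset.mem_filter, MvPolynomial.mem_support_iff]
        exact ⟨hβ1, hβ2⟩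
      · rw [Finset.mem_filter, MvPolynomial.mem_support_iff]
        rintro ⟨h1, -⟩
        apply h1
        rw [coeff_red, ← hv]
        have : ∀ s, MvPolynomial.coeff (β + Finsupp.single s 1) Q₁ = 0 := fun s =>
          hbig _ (by rw [hdeg, hβ2]; omega)
        simp only [this]
        simp
        ring
    · intro m hm
      rw [Finset.mem_filter, MvPolynomial.mem_support_iff] at hm ⊢
      refine ⟨?_, hm.2⟩
      intro hm0
      apply hm.1
      rw [coeff_red, hm0]
      have : ∀ s, MvPolynomial.coeff (m + Finsupp.single s 1) Q₁ = 0 := fun s =>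
        hbig _ (by rw [hdeg, hm.2]; omega)
      simp [this]
  -- top coefficients
  have htop : ∀ m : σ →₀ ℕ, m.degree = n → ∃ t : K, MvPolynomial.coeff m Q₁ = C t * v := by
    intro m hm
    apply const_of_wronskian hv0
    have h1 := congrArg (MvPolynomial.coeff m) hred0
    rw [coeff_red, MvPolynomial.coeff_zero] at h1
    have : ∀ s, MvPolynomial.coeff (m + Finsupp.single s 1) Q₁ = 0 := fun s =>
      hbig _ (by rw [hdeg, hm]; omega)
    simp only [this, zero_mul, mul_zero, Finset.sum_const_zero, add_zero] at h1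
    exact sub_eq_zero.1 h1
  obtain ⟨s₀, hs₀⟩ : ∃ s, β s ≠ 0 := by
    by_contra hcon
    push Not at hcon
    have h1 : β = 0 := Finsupp.ext hcon
    rw [h1, map_zero] at hβ2
    omega
  obtain ⟨γ, hγ⟩ : ∃ γ : σ →₀ ℕ, γ + Finsupp.single s₀ 1 = β := by
    refine ⟨β - Finsupp.single s₀ 1, ?_⟩
    apply tsub_add_cancel_of_le
    rw [Finsupp.single_le_iff]
    omega
  have hγd : γ.degree + 1 = n := by rw [← hdeg γ s₀, hγ, hβ2]
  choose κ hκ using fun s => htop (γ + Finsupp.single s 1) (by rw [hdeg, hγd])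
  have hκ0 : κ s₀ = 1 := by
    have h1 := hκ s₀
    rw [hγ, ← hv] at h1
    have h2 : C (κ s₀ - 1) * v = 0 := by
      rw [map_sub, sub_mul, ← h1, map_one, one_mul, sub_self]
    rcases mul_eq_zero.1 h2 with h3 | h3
    · have h4 : κ s₀ - 1 = 0 := by
        apply C_injective
        rw [h3, map_zero]
      exact sub_eq_zero.1 h4
    · exact absurd h3 hv0
  obtain ⟨c, hcd⟩ : ∃ c : σ → K, ∀ s, c s = κ s * ((γ s : K) + 1) := ⟨_, fun _ => rfl⟩
  obtain ⟨y, hy⟩ : ∃ y : PowerSeries K, y = ∑ s, C (c s) * h s := ⟨_, rfl⟩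
  have hyD : derivative K y = ∑ s, C (c s) * derivative K (h s) := by
    rw [hy, map_sum]
    refine Finset.sum_congr rfl fun s _ => ?_
    rw [Derivation.leibniz, derivative_C]
    simp
  have hγ0 := congrArg (MvPolynomial.coeff γ) hred0
  rw [coeff_red, MvPolynomial.coeff_zero] at hγ0
  have h5 : ∑ s, derivative K (h s) *
      (MvPolynomial.coeff (γ + Finsupp.single s 1) Q₁ * ((γ s : PowerSeries K) + 1)) =
      v * derivative K y := by
    rw [hyD, Finset.mul_sum]
    refine Finset.sum_congr rfl fun s _ => ?_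
    rw [hκ s, hcd s, map_mul, map_add, map_one, map_natCast]
    ring
  rw [h5] at hγ0
  obtain ⟨t, ht⟩ := const_of_wronskian (x := MvPolynomial.coeff γ Q₁ + v * y) hv0 (by
    rw [map_add, Derivation.leibniz]
    simp only [smul_eq_mul]
    linear_combination hγ0)
  refine ⟨c, v, C t * v - MvPolynomial.coeff γ Q₁, ?_, hv0, hvA, ?_, ?_⟩
  · intro hc0
    have h1 := congrFun hc0 s₀
    rw [hcd, hκ0, one_mul, Pi.zero_apply] at h1
    have h2 : ((γ s₀ + 1 : ℕ) : K) = 0 := by push_cast; exact h1
    exact absurd (Nat.cast_eq_zero.1 h2) (by omega)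
  · refine A.sub_mem (A.mul_mem ?_ hvA) (q2 γ)
    exact A.algebraMap_mem t
  · rw [← hy]
    linear_combination ht

end

end H18G
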