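import Pool.Agent.Lib.H18G.KO1
import Pool.Agent.Lib.H36D.Defs

/-!
# H18G, KO2: algebraic independence of the series `∑ (a n / n) q^(d n)` over `R⟦q⟧`

`R` a domain of characteristic zero, `K` its fraction field, `a : ℕ → R`. If for every `m ≠ 0` in `R` there
is a prime `l` which does not divide `m * a l` in `R`, then the series `h_s = ∑ (a n / n) q^(d_s n)` (`d_s ≥ 1`
distinct) are algebraically independent over `R⟦q⟧`.
-/

namespace H18G

open PowerSeries H36D

section

variable (R K : Type*) [CommRing R] [IsDomain R] [Field K] [Algebra R K] [IsFractionRing R K]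

/-- Power series with bounded denominators. -/
noncomputable def bd : Subalgebra K (PowerSeries K) where
  carrier := {f | ∃ m : R, m ≠ 0 ∧ ∃ g : PowerSeries R,
    C (algebraMap R K m) * f = PowerSeries.map (algebraMap R K) g}
  mul_mem' := by
    rintro f f' ⟨m, hm, g, hg⟩ ⟨m', hm', g', hg'⟩
    refine ⟨m * m', mul_ne_zero hm hm', g * g', ?_⟩
    rw [map_mul, map_mul, map_mul, ← hg, ← hg']
    ring
  add_mem' := by
    rintro f f' ⟨m, hm, g, hg⟩ ⟨m', hm', g', hg'⟩
    refine ⟨m * m', mul_ne_zero hm hm', C m' * g + C m * g', ?_⟩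
    rw [map_mul, map_mul, map_add, map_mul, map_mul, ← hg, ← hg', PowerSeries.map_C,
      PowerSeries.map_C]
    ring
  algebraMap_mem' := by
    intro x
    obtain ⟨y, z, hz, rfl⟩ := IsFractionRing.div_surjective (A := R) x
    have hz0 : z ≠ 0 := nonZeroDivisors.ne_zero hz
    have hz1 : algebraMap R K z ≠ 0 := by
      intro h
      exact hz0 ((IsFractionRing.injective R K) (by rw [h, map_zero]))
    refine ⟨z, hz0, C y, ?_⟩
    rw [PowerSeries.map_C]
    have : algebraMap K (PowerSeries K) (algebraMap R K y / algebraMap R K z) =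
        C (algebraMap R K y / algebraMap R K z) := rfl
    rw [this, ← map_mul, mul_div_cancel₀ _ hz1]

variable {R K}

theorem mem_bd {f : PowerSeries K} : f ∈ bd R K ↔ ∃ m : R, m ≠ 0 ∧ ∃ g : PowerSeries R,
    C (algebraMap R K m) * f = PowerSeries.map (algebraMap R K) g := Iff.rfl

theorem map_mem_bd (g : PowerSeries R) : PowerSeries.map (algebraMap R K) g ∈ bd R K :=
  ⟨1, one_ne_zero, g, by simp⟩

omit [IsDomain R] [IsFractionRing R K] in
theorem derivative_map (g : PowerSeries R) :
    derivative K (PowerSeries.map (algebraMap R K) g) =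
      PowerSeries.map (algebraMap R K) (derivative R g) := by
  ext n
  rw [coeff_derivative, coeff_map, coeff_map, coeff_derivative, map_mul]
  simp

theorem derivative_mem_bd {f : PowerSeries K} (hf : f ∈ bd R K) : derivative K f ∈ bd R K := by
  obtain ⟨m, hm, g, hg⟩ := hf
  refine ⟨m, hm, derivative R g, ?_⟩
  rw [← derivative_map, ← hg, Derivation.leibniz, derivative_C]
  simp

/-- The polynomial attached to a finite family of coefficients. -/
noncomputable def polyOf {r : ℕ} (S : Finset (Fin r → ℕ)) (P : (Fin r → ℕ) → PowerSeries K) :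
    MvPolynomial (Fin r) (PowerSeries K) :=
  ∑ α ∈ S, MvPolynomial.monomial (Finsupp.equivFunOnFinite.symm α) (P α)

theorem coeff_polyOf {r : ℕ} (S : Finset (Fin r → ℕ)) (P : (Fin r → ℕ) → PowerSeries K)
    (m : Fin r →₀ ℕ) : MvPolynomial.coeff m (polyOf S P) = if ⇑m ∈ S then P ⇑m else 0 := by
  classical
  unfold polyOf
  rw [MvPolynomial.coeff_sum]
  simp only [MvPolynomial.coeff_monomial]
  have h1 : ∀ α : Fin r → ℕ, (Finsupp.equivFunOnFinite.symm α = m) ↔ α = ⇑m := by
    intro α
    constructor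
    · rintro rfl
      rfl
    · rintro rfl
      ext i
      rfl
  simp only [h1]
  rw [Finset.sum_ite_eq']

theorem eval_polyOf {r : ℕ} (S : Finset (Fin r → ℕ)) (P : (Fin r → ℕ) → PowerSeries K)
    (h : Fin r → PowerSeries K) :
    MvPolynomial.eval h (polyOf S P) = ∑ α ∈ S, P α * Hm h α := by
  unfold polyOf
  rw [map_sum]
  refine Finset.sum_congr rfl fun α _ => ?_
  rw [MvPolynomial.eval_monomial, Finsupp.prod_fintype _ _ (fun _ => pow_zero _)]
  rfl

/-- A relation gives a linear relation. -/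
theorem ko_bd [CharZero K] {r : ℕ} (h : Fin r → PowerSeries K)
    (hD : ∀ s, derivative K (h s) ∈ bd R K) (S : Finset (Fin r → ℕ))
    (P : (Fin r → ℕ) → PowerSeries R) (hP : ∃ α ∈ S, P α ≠ 0)
    (h0 : ∑ α ∈ S, PowerSeries.map (algebraMap R K) (P α) * Hm h α = 0) :
    ∃ (c : Fin r → R) (v u : PowerSeries R), c ≠ 0 ∧ v ≠ 0 ∧
      PowerSeries.map (algebraMap R K) v * ∑ s, C (algebraMap R K (c s)) * h s =
        PowerSeries.map (algebraMap R K) u := by
  classical
  have hinj : Function.Injective (algebraMap R K) := IsFractionRing.injective R K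
  have hinj2 : Function.Injective (PowerSeries.map (algebraMap R K)) :=
    PowerSeries.map_injective _ hinj
  obtain ⟨c, v, u, hc, hv, hvA, huA, huv⟩ := kolchin_ostrowski (bd R K)
    (fun f hf => derivative_mem_bd hf) h hD
    (polyOf S (fun α => PowerSeries.map (algebraMap R K) (P α))) (by
      obtain ⟨α, hα, hPα⟩ := hP
      intro h1
      have h2 := congrArg (MvPolynomial.coeff (Finsupp.equivFunOnFinite.symm α)) h1
      rw [coeff_polyOf, MvPolynomial.coeff_zero] at h2
      have h3 : (⇑(Finsupp.equivFunOnFinite.symm α) : Fin r → ℕ) = α := rfl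
      rw [h3, if_pos hα] at h2
      exact hPα (hinj2 (by rw [h2, map_zero])))
    (by
      intro m
      rw [coeff_polyOf]
      split_ifs
      · exact map_mem_bd _
      · exact zero_mem _)
    (by rw [eval_polyOf, h0])
  obtain ⟨m₁, hm₁, v', hv'⟩ := hvA
  obtain ⟨m₂, hm₂, u', hu'⟩ := huA
  obtain ⟨⟨m₃, hm₃⟩, hm₃'⟩ := IsLocalization.exist_integer_multiples_of_finite
    (nonZeroDivisors R) c
  choose c' hc' using hm₃'
  have hm₃0 : m₃ ≠ 0 := nonZeroDivisors.ne_zero hm₃
  have hc'' : ∀ s, algebraMap R K (c' s) = algebraMap R K m₃ * c s := by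
    intro s
    rw [hc' s, Algebra.smul_def]
  refine ⟨c', C m₂ * v', C (m₁ * m₃) * u', ?_, ?_, ?_⟩
  · intro h1
    apply hc
    funext s
    have h2 := hc'' s
    rw [h1, Pi.zero_apply, map_zero] at h2
    rcases mul_eq_zero.1 h2.symm with h3 | h3
    · exact absurd (hinj (by rw [h3, map_zero])) hm₃0
    · exact h3
  · intro h1
    rcases mul_eq_zero.1 h1 with h2 | h2
    · exact hm₂ (C_injective (by rw [h2, map_zero]))
    · rw [h2, map_zero] at hv'
      rcases mul_eq_zero.1 hv' with h3 | h3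
      · exact hm₁ (hinj (C_injective (by rw [h3, map_zero, map_zero])))
      · exact hv h3
  · rw [map_mul, map_mul, ← hv', ← hu', ← huv, PowerSeries.map_C, PowerSeries.map_C]
    have h1 : ∑ s, C (algebraMap R K (c' s)) * h s =
        C (algebraMap R K m₃) * ∑ s, C (c s) * h s := by
      rw [Finset.mul_sum]
      refine Finset.sum_congr rfl fun s _ => ?_
      rw [hc'' s, map_mul]
      ring
    rw [h1, map_mul, map_mul]
    ring

/-- The coefficients of `∑ (a n / n) q^(d n)`. -/
def IsEich (a : ℕ → R) (d : ℕ) (h : PowerSeries K) : Prop :=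
  ∀ n, coeff n h = if d ∣ n then algebraMap R K (a (n / d)) / ((n / d : ℕ) : K) else 0

theorem IsEich.derivative [CharZero K] {a : ℕ → R} {d : ℕ} (hd : 1 ≤ d) {h : PowerSeries K}
    (hh : IsEich a d h) : derivative K h ∈ bd R K := by
  refine ⟨1, one_ne_zero, PowerSeries.mk fun n => if d ∣ n + 1 then (d : R) * a ((n + 1) / d)
    else 0, ?_⟩
  rw [map_one, map_one, one_mul]
  ext n
  rw [coeff_derivative, coeff_map, coeff_mk, hh]
  split_ifs with h1
  · obtain ⟨t, ht⟩ := h1
    have ht0 : t ≠ 0 := by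
      rintro rfl
      omega
    have h2 : (n + 1) / d = t := by rw [ht, Nat.mul_div_cancel_left _ hd]
    rw [h2, map_mul, map_natCast]
    have h3 : ((n : K) + 1) = d * t := by exact_mod_cast ht
    have h4 : (t : K) ≠ 0 := by exact_mod_cast ht0
    rw [h3]
    field_simp
  · simp

/-- **Independence.** -/
theorem ind_general [CharZero R] [CharZero K] (a : ℕ → R)
    (hl : ∀ m : R, m ≠ 0 → ∃ l : ℕ, l.Prime ∧ ¬ (l : R) ∣ m * a l) {r : ℕ} (d : Fin r → ℕ)
    (hd : Function.Injective d) (hd1 : ∀ s, 1 ≤ d s) (h : Fin r → PowerSeries K)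
    (hh : ∀ s, IsEich a (d s) (h s)) (S : Finset (Fin r → ℕ))
    (P : (Fin r → ℕ) → PowerSeries R) (hP : ∃ α ∈ S, P α ≠ 0) :
    ∑ α ∈ S, PowerSeries.map (algebraMap R K) (P α) * Hm h α ≠ 0 := by
  classical
  intro h0
  have hinj : Function.Injective (algebraMap R K) := IsFractionRing.injective R K
  obtain ⟨c, v, u, hc, hv, huv⟩ := ko_bd h (fun s => (hh s).derivative (hd1 s)) S P hP h0
  -- the smallest `d s` with `c s ≠ 0`
  obtain ⟨s₀, hs₀, hmin⟩ : ∃ s₀, c s₀ ≠ 0 ∧ ∀ s, c s ≠ 0 → d s₀ ≤ d s := by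
    obtain ⟨s₁, hs₁⟩ : ∃ s, c s ≠ 0 := by
      by_contra hcon
      push Not at hcon
      exact hc (funext hcon)
    obtain ⟨s₀, h1, h2⟩ := Finset.exists_min_image (Finset.univ.filter fun s => c s ≠ 0) d
      ⟨s₁, by simpa using hs₁⟩
    refine ⟨s₀, by simpa using h1, fun s hs => h2 s (by simpa using hs)⟩
  obtain ⟨ν, hν1, hν2⟩ : ∃ ν, coeff ν v ≠ 0 ∧ ∀ i, i < ν → coeff i v = 0 := by
    have h1 : ∃ n, coeff n v ≠ 0 := by
      by_contra hcon
      push Not at hcon
      exact hv (PowerSeries.ext fun n => by rw [hcon n, map_zero])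
    exact ⟨Nat.find h1, Nat.find_spec h1, fun i hi => not_not.1 (Nat.find_min h1 hi)⟩
  obtain ⟨l, hlp, hl1⟩ := hl (coeff ν v * c s₀) (mul_ne_zero hν1 hs₀)
  have hl0 : (l : K) ≠ 0 := by exact_mod_cast hlp.ne_zero
  obtain ⟨F, hF⟩ : ∃ F : ℕ, F = (l - 1).factorial := ⟨_, rfl⟩
  -- the integral coefficients
  have hint : ∀ s j, c s ≠ 0 → j ≤ d s₀ * l → (j = d s₀ * l → s ≠ s₀) →
      ∃ z : R, (F : K) * coeff j (h s) = algebraMap R K z := by
    intro s j hcs hj hjs
    rw [hh s j]
    split_ifs with h1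
    · obtain ⟨t, ht⟩ := h1
      have hds := hd1 s
      have h2 : j / d s = t := by rw [ht, Nat.mul_div_cancel_left _ hds]
      rw [h2]
      by_cases ht0 : t = 0
      · exact ⟨0, by rw [ht0]; simp⟩
      have htl : t < l := by
        have h3 : d s * t ≤ d s * l := by
          rw [← ht]
          exact hj.trans (Nat.mul_le_mul_right l (hmin s hcs))
        have h4 : t ≤ l := Nat.le_of_mul_le_mul_left h3 hds
        rcases lt_or_eq_of_le h4 with h5 | h5
        · exact h5
        · exfalso
          rw [h5] at ht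
          have h6 : d s * l ≤ d s₀ * l := by rw [← ht]; exact hj
          have h7 : d s ≤ d s₀ := Nat.le_of_mul_le_mul_right h6 hlp.pos
          have h8 : d s = d s₀ := le_antisymm h7 (hmin s hcs)
          have h9 : s = s₀ := hd h8
          exact hjs (by rw [ht, h8]) h9
      have h5 : t ∣ F := by
        rw [hF]
        exact Nat.dvd_factorial (Nat.pos_of_ne_zero ht0) (by omega)
      obtain ⟨w, hw⟩ := h5
      refine ⟨(w : R) * a t, ?_⟩
      have h6 : (t : K) ≠ 0 := by exact_mod_cast ht0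
      rw [hw, map_mul, map_natCast]
      push_cast
      field_simp
    · exact ⟨0, by simp⟩
  -- compare the coefficients
  have h1 := congrArg (coeff (ν + d s₀ * l)) huv
  rw [coeff_map, Finset.mul_sum, map_sum] at h1
  have h2 : ∀ s, s ≠ s₀ → ∃ z : R, (F : K) * coeff (ν + d s₀ * l)
      (PowerSeries.map (algebraMap R K) v * (C (algebraMap R K (c s)) * h s)) =
        algebraMap R K z := by
    intro s hs
    by_cases hcs : c s = 0
    · exact ⟨0, by rw [hcs]; simp⟩
    rw [coeff_mul, Finset.mul_sum]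
    have h3 : ∀ p ∈ Finset.HasAntidiagonal.antidiagonal (ν + d s₀ * l), ∃ z : R,
        (F : K) * (coeff p.1 (PowerSeries.map (algebraMap R K) v) *
          coeff p.2 (C (algebraMap R K (c s)) * h s)) = algebraMap R K z := by
      rintro ⟨i, j⟩ hij
      rw [Finset.HasAntidiagonal.mem_antidiagonal] at hij
      simp only at hij ⊢
      by_cases hi : i < ν
      · exact ⟨0, by rw [coeff_map, hν2 i hi]; simp⟩
      obtain ⟨z, hz⟩ := hint s j hcs (by omega) (fun _ => hs)
      refine ⟨coeff i v * (c s * z), ?_⟩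
      rw [coeff_map, coeff_C_mul, map_mul, map_mul, ← hz]
      ring
    choose! z hz using h3
    refine ⟨∑ p ∈ Finset.HasAntidiagonal.antidiagonal (ν + d s₀ * l), z p, ?_⟩
    rw [map_sum]
    exact Finset.sum_congr rfl fun p hp => hz p hp
  have h3 : ∃ z : R, (F : K) * coeff (ν + d s₀ * l)
      (PowerSeries.map (algebraMap R K) v * (C (algebraMap R K (c s₀)) * h s₀)) =
        algebraMap R K z + (F : K) * (algebraMap R K (coeff ν v * c s₀) *
          (algebraMap R K (a l) / l)) := by
    rw [coeff_mul, ← Finset.add_sum_erase _ _ (show (ν, d s₀ * l) ∈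
      Finset.HasAntidiagonal.antidiagonal (ν + d s₀ * l) by
        rw [Finset.HasAntidiagonal.mem_antidiagonal])]
    have h3 : ∀ p ∈ (Finset.HasAntidiagonal.antidiagonal (ν + d s₀ * l)).erase (ν, d s₀ * l),
        ∃ z : R, (F : K) * (coeff p.1 (PowerSeries.map (algebraMap R K) v) *
          coeff p.2 (C (algebraMap R K (c s₀)) * h s₀)) = algebraMap R K z := by
      rintro ⟨i, j⟩ hij
      rw [Finset.mem_erase, Finset.HasAntidiagonal.mem_antidiagonal] at hij
      simp only at hij ⊢
      by_cases hi : i < ν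
      · exact ⟨0, by rw [coeff_map, hν2 i hi]; simp⟩
      obtain ⟨z, hz⟩ := hint s₀ j hs₀ (by omega) (by
        intro hj
        exfalso
        apply hij.1
        have : i = ν := by omega
        rw [this, hj])
      refine ⟨coeff i v * (c s₀ * z), ?_⟩
      rw [coeff_map, coeff_C_mul, map_mul, map_mul, ← hz]
      ring
    choose! z hz using h3
    refine ⟨∑ p ∈ (Finset.HasAntidiagonal.antidiagonal (ν + d s₀ * l)).erase (ν, d s₀ * l), z p,
      ?_⟩
    rw [map_sum, mul_add, Finset.mul_sum, Finset.sum_congr rfl hz, add_comm]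
    congr 2
    rw [coeff_map, coeff_C_mul, hh s₀, if_pos (Dvd.intro _ rfl),
      Nat.mul_div_cancel_left _ (hd1 s₀), map_mul]
    ring
  choose! z hz using h2
  obtain ⟨z₀, hz₀⟩ := h3
  have h4 : (F : K) * (algebraMap R K (coeff ν v * c s₀) * (algebraMap R K (a l) / l)) =
      algebraMap R K ((F : R) * coeff (ν + d s₀ * l) u - z₀ -
        ∑ s ∈ Finset.univ.erase s₀, z s) := by
    have h5 := congrArg (fun x => (F : K) * x) h1
    rw [← Finset.add_sum_erase _ _ (Finset.mem_univ s₀), mul_add, hz₀, Finset.mul_sum,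
      Finset.sum_congr rfl (fun s hs => hz s (Finset.ne_of_mem_erase hs))] at h5
    rw [map_sub, map_sub, map_mul (algebraMap R K) (F : R) _, map_natCast, map_sum]
    linear_combination h5
  obtain ⟨y, hy⟩ : ∃ y : R, y = (F : R) * coeff (ν + d s₀ * l) u - z₀ -
    ∑ s ∈ Finset.univ.erase s₀, z s := ⟨_, rfl⟩
  rw [← hy] at h4
  have h5 : (F : R) * (coeff ν v * c s₀ * a l) = (l : R) * y := by
    apply hinj
    rw [map_mul, map_mul, map_mul (algebraMap R K) (l : R) y, map_natCast, map_natCast, ← h4,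
      map_mul]
    field_simp
  have hcop : IsCoprime ((F : ℕ) : ℤ) (l : ℤ) := by
    rw [Nat.isCoprime_iff_coprime, Nat.coprime_comm, hlp.coprime_iff_not_dvd, hF,
      hlp.dvd_factorial]
    have := hlp.pos
    omega
  obtain ⟨x, x', hxx⟩ := hcop
  apply hl1
  have h6 : ((x : ℤ) : R) * (F : R) + ((x' : ℤ) : R) * (l : R) = 1 := by
    have := congrArg (fun t : ℤ => (t : R)) hxx
    push_cast at this
    exact this
  refine ⟨(x : R) * y + (x' : R) * (coeff ν v * c s₀ * a l), ?_⟩
  calc coeff ν v * c s₀ * a l = ((x : R) * (F : R) + (x' : R) * (l : R)) *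
        (coeff ν v * c s₀ * a l) := by rw [h6, one_mul]
    _ = (x : R) * ((F : R) * (coeff ν v * c s₀ * a l)) +
        (x' : R) * (l : R) * (coeff ν v * c s₀ * a l) := by ring
    _ = _ := by rw [h5]; ring

end

end H18G
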