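import Pool.Agent.Lib.H18G.KO2

/-!
# H18G, KO3: algebraic independence over `ℤ⟦q⟧` and over `𝓞 E⟦q⟧`
-/

namespace H18G

open PowerSeries H36D H53M NumberField

/-- Independence over `ℤ⟦q⟧`. -/
theorem ind_Z (a : ℕ → ℤ) (hl : ∀ X₀ : ℕ, ∃ l : ℕ, X₀ < l ∧ l.Prime ∧ ¬ (l : ℤ) ∣ a l) {r : ℕ}
    (d : Fin r → ℕ) (hd : Function.Injective d) (hd1 : ∀ s, 1 ≤ d s) (h : Fin r → PowerSeries ℚ)
    (hh : ∀ s n, coeff n (h s) =
      if d s ∣ n then ((a (n / d s) : ℤ) : ℚ) / ((n / d s : ℕ) : ℚ) else 0)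
    (S : Finset (Fin r → ℕ)) (P : (Fin r → ℕ) → PowerSeries ℤ) (hP : ∃ α ∈ S, P α ≠ 0) :
    ∑ α ∈ S, toQ (P α) * Hm h α ≠ 0 := by
  refine ind_general (R := ℤ) (K := ℚ) a ?_ d hd hd1 h (fun s n => hh s n) S P hP
  intro m hm
  obtain ⟨l, hl1, hl2, hl3⟩ := hl m.natAbs
  refine ⟨l, hl2, fun h1 => ?_⟩
  rcases (Nat.prime_iff_prime_int.1 hl2).dvd_or_dvd h1 with h2 | h2
  · have h3 : l ∣ m.natAbs := Int.natCast_dvd.1 h2
    have h4 := Nat.le_of_dvd (Int.natAbs_pos.2 hm) h3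
    omega
  · exact hl3 h2

/-- Independence over `𝓞 E⟦q⟧`. -/
theorem ind_OE {E : Type*} [Field E] [NumberField E] (a : ℕ → 𝓞 E)
    (hl : ∀ M : ℕ, ∃ l : ℕ, M < l ∧ l.Prime ∧ ∃ I : Ideal (𝓞 E), I.IsPrime ∧ (l : 𝓞 E) ∈ I ∧
      a l ∉ I) {r : ℕ}
    (d : Fin r → ℕ) (hd : Function.Injective d) (hd1 : ∀ s, 1 ≤ d s) (h : Fin r → PowerSeries E)
    (hh : ∀ s n, coeff n (h s) =
      if d s ∣ n then ((a (n / d s) : 𝓞 E) : E) / ((n / d s : ℕ) : E) else 0)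
    (S : Finset (Fin r → ℕ)) (P : (Fin r → ℕ) → PowerSeries (𝓞 E)) (hP : ∃ α ∈ S, P α ≠ 0) :
    ∑ α ∈ S, PowerSeries.map (algebraMap (𝓞 E) E) (P α) * Hm h α ≠ 0 := by
  refine ind_general (R := 𝓞 E) (K := E) a ?_ d hd hd1 h (fun s n => hh s n) S P hP
  intro m hm
  obtain ⟨N, hN⟩ : ∃ N : ℕ, N = Ideal.absNorm (Ideal.span {m}) := ⟨_, rfl⟩
  have hN0 : N ≠ 0 := by
    rw [hN, Ne, Ideal.absNorm_eq_zero_iff, Ideal.span_singleton_eq_bot]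
    exact hm
  have hN1 : m ∣ (N : 𝓞 E) := by
    rw [← Ideal.mem_span_singleton, hN]
    exact Ideal.absNorm_mem _
  obtain ⟨l, hl1, hl2, I, hI, hlI, hal⟩ := hl N
  refine ⟨l, hl2, ?_⟩
  rintro ⟨y, hy⟩
  obtain ⟨m', hm'⟩ := hN1
  have h1 : (N : 𝓞 E) * a l ∈ I := by
    have : (N : 𝓞 E) * a l = (l : 𝓞 E) * (y * m') := by
      rw [hm']
      linear_combination m' * hy
    rw [this]
    exact I.mul_mem_right _ hlI
  rcases hI.mem_or_mem h1 with h2 | h2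
  · have hcop : IsCoprime ((N : ℕ) : ℤ) (l : ℤ) := by
      rw [Nat.isCoprime_iff_coprime, Nat.coprime_comm, hl2.coprime_iff_not_dvd]
      intro h3
      have := Nat.le_of_dvd (Nat.pos_of_ne_zero hN0) h3
      omega
    obtain ⟨x, x', hxx⟩ := hcop
    apply hI.ne_top
    rw [Ideal.eq_top_iff_one]
    have h6 : ((x : ℤ) : 𝓞 E) * (N : 𝓞 E) + ((x' : ℤ) : 𝓞 E) * (l : 𝓞 E) = 1 := by
      have := congrArg (fun t : ℤ => (t : 𝓞 E)) hxx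
      push_cast at this
      exact this
    rw [← h6]
    exact I.add_mem (I.mul_mem_left _ h2) (I.mul_mem_left _ hlI)
  · exact hal h2

end H18G
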