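import Pool.Agent.Lib.H18G.KO3
import Pool.Agent.Lib.H6D.Defs

/-!
# H18G, KO4: the hypothesis `hind` of H6D/F7
-/

namespace H18G

open PowerSeries H36D H53M H6D H6V

theorem hind_of (a : ℕ → ℤ) (hl : ∀ X₀ : ℕ, ∃ l : ℕ, X₀ < l ∧ l.Prime ∧ ¬ (l : ℤ) ∣ a l) (r : ℕ)
    (S : Finset (Fin r → ℕ)) (P : (Fin r → ℕ) → PowerSeries ℤ) (hP : ∃ α ∈ S, P α ≠ 0) :
    ∑ α ∈ S, toQ (P α) * H36D.Hm (fun σ : Fin r => VV ((σ : ℕ) + 1) (hq a)) α ≠ 0 := by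
  refine ind_Z a hl (fun σ : Fin r => (σ : ℕ) + 1) (fun s t hst => Fin.ext (by simpa using hst))
    (fun s => by simp) _ (fun s n => ?_) S P hP
  unfold VV hq
  rw [coeff_mk]
  split_ifs
  · rw [coeff_mk]
  · rfl

end H18G
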