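import Pool.Agent.Lib.H18G.Defs
import Pool.Agent.Lib.H94D.M1

/-!
# H18G, M1: the coefficients of `A(h(q) - b h(q^p))`, and its vanishing modulo a good prime

* `coeff_FAR`: generic over a commutative ring;
* `van`: over `ZMod p`, by the Sturm bound;
* `congr_of_van`: the congruences of the end game over `𝓞 E`.
-/

namespace H18G

open H53M H94M PowerSeries Finset NumberField H36D

section generic

variable {R : Type*} [CommRing R] {r : ℕ}

theorem sum_subs_eq {S : Type*} [AddCommMonoid S] {J : ℕ} {al : Fin r → ℕ} (ha : ∑ s, al s = J)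
    (f : (Fin r → ℕ) → S) :
    ∑ be ∈ subs al, f be = ∑ l ∈ range (J + 1), ∑ be ∈ (subs al).filter (fun be => ∑ s, be s = l), f be := by
  refine (Finset.sum_fiberwise_of_maps_to (fun be hbe => ?_) f).symm
  unfold subs at hbe
  rw [Fintype.mem_piFinset] at hbe
  rw [mem_range]
  have h1 : ∑ s, be s ≤ ∑ s, al s := Finset.sum_le_sum fun s _ => by
    have := hbe s
    rw [mem_range] at this
    omega
  omega

theorem coeff_FAR (h : Fin r → PowerSeries R) (J W : ℕ)
    (x : (Fin r → ℕ) × ℕ → ℤ) (p : ℕ) (hp : p ≠ 0) (b : R) (m : ℕ) :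
    coeff m (FAR h J W x p hp b) = ∑ j ∈ range (m / p + 1), ∑ l ∈ range (J + 1),
      ggR h J W x (m - j * p) j l * b ^ l := by
  unfold FAR
  rw [map_sum]
  have hL : ∀ t ∈ Ix r J W, coeff m ((x t : R) • (LvR R W t.2 *
      Hm (fun s => h s - C b * expand p hp (h s)) t.1)) =
      ∑ j ∈ range (m / p + 1), ∑ l ∈ range (J + 1),
        (x t : R) * gcR h W (m - j * p) j l t * b ^ l := by
    intro t ht
    unfold Ix at ht
    rw [mem_product, mem_piAntidiag] at ht
    unfold Hm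
    rw [coeff_smul, smul_eq_mul, H94D.prod_sub_pow, Finset.mul_sum, map_sum]
    change (x t : R) * ∑ be ∈ subs t.1, _ = _
    have h1 : ∀ be : Fin r → ℕ, coeff m (LvR R W t.2 *
        (C (((-1) ^ (∑ s, be s) * b ^ (∑ s, be s)) * ((∏ s, (t.1 s).choose (be s) : ℕ) : R)) *
          ((∏ s, h s ^ (t.1 s - be s)) *
            ∏ s, (expand p hp (h s)) ^ be s))) =
        ∑ j ∈ range (m / p + 1), (-1) ^ (∑ s, be s) * (bc t.1 be : R) *
          (coeff j (Hm h be) *
          coeff (m - j * p) (LvR R W t.2 * Hm h (t.1 - be))) *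
            b ^ (∑ s, be s) := by
      intro be
      have h2 : ∏ s, (expand p hp (h s)) ^ be s = expand p hp (Hm h be) := by
        unfold Hm
        rw [map_prod]
        exact Finset.prod_congr rfl fun s _ => (map_pow _ _ _).symm
      have h3 : ∏ s, h s ^ (t.1 s - be s) = Hm h (t.1 - be) := rfl
      rw [h2, h3, mul_left_comm, coeff_C_mul, ← mul_assoc, H94D.coeff_mul_expand, Finset.mul_sum]
      refine Finset.sum_congr rfl fun j _ => ?_
      unfold bc
      ring
    rw [Finset.sum_congr rfl fun be _ => h1 be, Finset.sum_comm, Finset.mul_sum]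
    refine Finset.sum_congr rfl fun j _ => ?_
    rw [sum_subs_eq ht.1.1, Finset.mul_sum]
    refine Finset.sum_congr rfl fun l _ => ?_
    unfold gcR
    rw [Finset.mul_sum, Finset.mul_sum, Finset.sum_mul]
    refine Finset.sum_congr rfl fun be hbe => ?_
    rw [(mem_filter.1 hbe).2]
    ring
  rw [Finset.sum_congr rfl hL, Finset.sum_comm]
  refine Finset.sum_congr rfl fun j _ => ?_
  rw [Finset.sum_comm]
  refine Finset.sum_congr rfl fun l _ => ?_
  unfold ggR
  rw [Finset.sum_mul]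

end generic

section mod

variable {r : ℕ} {p : ℕ} [Fact p.Prime]

theorem Lv_mem {μ s0 : ℕ} {M : ℕ → Submodule (ZMod p) (PowerSeries (ZMod p))}
    (hM : MFam p μ s0 M) {W i : ℕ} (hi : i ≤ W) : LvR (ZMod p) W i ∈ M (12 * W) := by
  apply hM.le
  refine Submodule.subset_span ⟨3 * (W - i), 0, i, by omega, ?_⟩
  unfold LvR Lv
  rw [pow_zero, mul_one]

theorem Hm_mem {μ s0 : ℕ} {M : ℕ → Submodule (ZMod p) (PowerSeries (ZMod p))}
    (hM : MFam p μ s0 M) (G : Fin r → PowerSeries (ZMod p)) (kap : ℕ) (hG : ∀ s, G s ∈ M kap)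
    (al : Fin r → ℕ) : Hm G al ∈ M ((∑ s, al s) * kap) := by
  classical
  unfold Hm
  have key : ∀ S : Finset (Fin r), ∏ s ∈ S, G s ^ al s ∈ M ((∑ s ∈ S, al s) * kap) := by
    intro S
    induction S using Finset.induction_on with
    | empty =>
      rw [Finset.prod_empty, Finset.sum_empty, Nat.zero_mul]
      exact hM.le 0 (one_mem_MP_zero p)
    | insert a s ha ih =>
      rw [Finset.prod_insert ha, Finset.sum_insert ha, Nat.add_mul]
      exact hM.mul _ _ _ _ (hM.pow (hG a) (al a)) ih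
  exact key _

theorem FAR_mem {μ s0 : ℕ} {M : ℕ → Submodule (ZMod p) (PowerSeries (ZMod p))}
    (hM : MFam p μ s0 M) (g : Fin r → PowerSeries (ZMod p)) (J W : ℕ) (x : (Fin r → ℕ) × ℕ → ℤ)
    (hp : p ≠ 0) (b : ZMod p) (kap : ℕ) (hG : ∀ s, g s - C b * expand p hp (g s) ∈ M kap) :
    FAR g J W x p hp b ∈ M (12 * W + J * kap) := by
  unfold FAR
  refine Submodule.sum_mem _ fun t ht => Submodule.smul_mem _ _ ?_
  unfold Ix at ht
  rw [mem_product, mem_piAntidiag, mem_range] at ht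
  refine hM.mul _ _ _ _ (Lv_mem hM (by omega)) ?_
  have h1 := Hm_mem hM _ kap hG t.1
  rwa [ht.1.1] at h1

/-- The auxiliary function vanishes modulo `p`. -/
theorem van {μ s0 : ℕ} {M : ℕ → Submodule (ZMod p) (PowerSeries (ZMod p))}
    (hM : MFam p μ s0 M) (g : Fin r → PowerSeries (ZMod p)) (J W X T : ℕ)
    (x : (Fin r → ℕ) × ℕ → ℤ) (hp : p ≠ 0) (b : ZMod p) (kap : ℕ)
    (hG : ∀ s, g s - C b * expand p hp (g s) ∈ M kap)
    (hx : ∀ n j l : ℕ, n + j * X ≤ T → ggR g J W x n j l = 0) (hX : X ≤ p)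
    (hT : μ * (12 * W + J * kap) / 12 + s0 ≤ T) : FAR g J W x p hp b = 0 := by
  refine hM.sturm _ _ (FAR_mem hM g J W x hp b kap hG) fun m hm => ?_
  rw [coeff_FAR]
  refine Finset.sum_eq_zero fun j hj => Finset.sum_eq_zero fun l _ => ?_
  rw [mem_range] at hj
  have hp : 0 < p := (Fact.out : p.Prime).pos
  have h1 : j * p ≤ m := by
    have h2 : j ≤ m / p := by omega
    exact (Nat.le_div_iff_mul_le hp).1 h2
  have h2 : j * X ≤ j * p := Nat.mul_le_mul_left j hX
  rw [hx (m - j * p) j l (by omega), zero_mul]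

end mod

section red

variable {E : Type*} [Field E] [NumberField E] {r : ℕ} {p : ℕ} [Fact p.Prime] {k : Type*} [Field k]
  [CharP k p] (φ : 𝓞 E →+* k)

/-- Relations over `E` are relations modulo `p`. -/
theorem Red_gg {h : Fin r → PowerSeries E} {g : Fin r → PowerSeries k}
    (hg : ∀ s, Red p φ (h s) (g s)) (J W : ℕ) (x : (Fin r → ℕ) × ℕ → ℤ) (n j l : ℕ) :
    ∃ y : AP E p, (y : E) = ggR h J W x n j l ∧ ext φ y = ggR g J W x n j l := by
  choose h' h1 h2 using hg
  refine ⟨ggR h' J W x n j l, ?_, ?_⟩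
  · have h3 := map_ggR (AP E p).subtype h' J W x n j l
    rw [funext h1] at h3
    exact h3
  · have h3 := map_ggR (ext φ) h' J W x n j l
    rw [funext h2] at h3
    exact h3

theorem Red_gg_zero {h : Fin r → PowerSeries E} {g : Fin r → PowerSeries k}
    (hg : ∀ s, Red p φ (h s) (g s)) (J W : ℕ) (x : (Fin r → ℕ) × ℕ → ℤ) (n j l : ℕ)
    (h0 : ggR h J W x n j l = 0) : ggR g J W x n j l = 0 := by
  obtain ⟨y, h1, h2⟩ := Red_gg φ hg J W x n j l
  rw [← h2]
  have h3 : y = 0 := Subtype.ext (h1.trans h0)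
  rw [h3, map_zero]

/-- The multiples of the coefficients by an integer. -/
theorem Red_gg_mul {h : Fin r → PowerSeries E} {g : Fin r → PowerSeries k}
    (hg : ∀ s, Red p φ (h s) (g s)) (J W : ℕ) (x : (Fin r → ℕ) × ℕ → ℤ) (n j l : ℕ) (D : ℕ)
    (z : 𝓞 E) (hz : (D : E) * ggR h J W x n j l = z) : φ z = D * ggR g J W x n j l := by
  obtain ⟨y, h1, h2⟩ := Red_gg φ hg J W x n j l
  have h3 : ((D : AP E p) * y) = ⟨(z : E), int_mem_AP (p := p) z⟩ := by
    apply Subtype.ext
    push_cast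
    rw [h1]
    exact hz
  have h4 := congrArg (ext φ) h3
  rw [map_mul, map_natCast, h2, ext_int] at h4
  exact h4.symm

/-- The congruences for the end game. -/
theorem congr_of_van {h : Fin r → PowerSeries E} {g : Fin r → PowerSeries (ZMod p)}
    (φ : 𝓞 E →+* ZMod p) (hg : ∀ s, Red p φ (h s) (g s)) (J W : ℕ) (x : (Fin r → ℕ) × ℕ → ℤ)
    (hp : p ≠ 0) (b : 𝓞 E) (hF : FAR g J W x p hp (φ b) = 0) (D m : ℕ) (G : ℕ → ℕ → ℕ → 𝓞 E)
    (hG : ∀ j l : ℕ, j * p ≤ m → l ≤ J →
      (D : E) * ggR h J W x (m - j * p) j l = G (m - j * p) j l) :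
    ∑ j ∈ range (m / p + 1), ∑ l ∈ range (J + 1), G (m - j * p) j l * b ^ l ∈ RingHom.ker φ := by
  have hp0 : 0 < p := (Fact.out : p.Prime).pos
  rw [RingHom.mem_ker, map_sum]
  have h1 := congrArg (fun f => (D : ZMod p) * coeff m f) hF
  simp only [map_zero, mul_zero] at h1
  rw [coeff_FAR, Finset.mul_sum] at h1
  rw [← h1]
  refine Finset.sum_congr rfl fun j hj => ?_
  rw [map_sum, Finset.mul_sum]
  refine Finset.sum_congr rfl fun l hl => ?_
  rw [mem_range] at hj hl
  have h2 : j * p ≤ m := (Nat.le_div_iff_mul_le hp0).1 (by omega)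
  rw [map_mul, map_pow, Red_gg_mul φ hg J W x _ j l D _ (hG j l h2 (by omega))]
  ring

end red

end H18G
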