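import Pool.Agent.Lib.H36D.S1

/-!
# H18G, SE1: Siegel's lemma with unknowns in `ℤ` and conditions in a number field
-/

namespace H18G

open H53M H36D PowerSeries Finset NumberField Module

/-- The coordinates in an integral basis are bounded by the conjugates. -/
theorem coord_bound (E : Type*) [Field E] [NumberField E] : ∃ c : ℝ, 1 ≤ c ∧
    ∀ (z : 𝓞 E) (B : ℝ), (∀ σ : E →+* ℂ, ‖σ (algebraMap (𝓞 E) E z)‖ ≤ B) →
      ∀ i, |(((integralBasis E).repr (algebraMap (𝓞 E) E z) i : ℚ) : ℝ)| ≤ c * B := by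
  classical
  have hex : ∃ c : ℝ, ∀ (z : 𝓞 E) (i : E →+* ℂ),
      ‖(((integralBasis E).reindex (equivReindex E).symm).repr z i : ℂ)‖ ≤
        c * house (algebraMap (𝓞 E) E z) := ⟨_, house.basis_repr_norm_le_const_mul_house E⟩
  obtain ⟨c, hc⟩ := hex
  refine ⟨|c| + 1, by linarith [abs_nonneg c], fun z B hB i => ?_⟩
  have h1 := hc z ((equivReindex E).symm i)
  rw [Basis.repr_reindex, Finsupp.mapDomain_equiv_apply, Equiv.symm_symm,
    Equiv.apply_symm_apply] at h1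
  have h0 : 0 ≤ B := (norm_nonneg _).trans (hB (Classical.arbitrary _))
  have h2 : house (algebraMap (𝓞 E) E z) ≤ B := by
    rw [house_eq_sup']
    have h3 : (univ.sup' univ_nonempty fun φ : E →+* ℂ => ‖φ (algebraMap (𝓞 E) E z)‖₊) ≤
        (⟨B, h0⟩ : NNReal) := by
      refine Finset.sup'_le _ _ fun σ _ => ?_
      exact hB σ
    exact_mod_cast h3
  have h4 : |(((integralBasis E).repr (algebraMap (𝓞 E) E z) i : ℚ) : ℝ)| =
      ‖(((integralBasis E).repr (algebraMap (𝓞 E) E z) i : ℚ) : ℂ)‖ := by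
    rw [Complex.norm_ratCast]
  rw [h4]
  refine h1.trans ?_
  have h5 : c * house (algebraMap (𝓞 E) E z) ≤ |c| * house (algebraMap (𝓞 E) E z) :=
    mul_le_mul_of_nonneg_right (le_abs_self c) (house_nonneg _)
  have h6 : |c| * house (algebraMap (𝓞 E) E z) ≤ |c| * B :=
    mul_le_mul_of_nonneg_left h2 (abs_nonneg c)
  linarith

/-- **Siegel's lemma**, unknowns in `ℤ`, conditions in `E`. -/
theorem siegelE (E : Type*) [Field E] [NumberField E] : ∃ cE : ℝ, 1 ≤ cE ∧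
    ∀ {ι κ : Type} [DecidableEq ι] (S : Finset ι) (Q : Finset κ), 1 ≤ Q.card →
      2 * (finrank ℚ E * Q.card) ≤ S.card → ∀ (f : κ → ι → E) (R : ℕ), 0 < R →
      ∀ B : ℝ, 1 ≤ B → (∀ c ∈ Q, ∀ t ∈ S, ∃ z : 𝓞 E, (R : E) * f c t = algebraMap (𝓞 E) E z) →
      (∀ c ∈ Q, ∀ t ∈ S, ∀ σ : E →+* ℂ, ‖σ (f c t)‖ ≤ B) → ∀ p : ℕ, p.Prime →
      ∃ x : ι → ℤ, (∃ t ∈ S, ¬ (p : ℤ) ∣ x t) ∧
        (∀ t, |(x t : ℝ)| ≤ S.card * ((R : ℝ) * (cE * B))) ∧
        ∀ c ∈ Q, ∑ t ∈ S, (x t : E) * f c t = 0 := by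
  classical
  obtain ⟨cE, hcE, hb⟩ := coord_bound E
  refine ⟨cE, hcE, fun {ι κ} _ S Q hQ hQS f R hR B hB hint hbd p hp => ?_⟩
  set b := integralBasis E with hbdef
  have hR0 : (R : E) ≠ 0 := by exact_mod_cast hR.ne'
  have hR0' : (R : ℚ) ≠ 0 := by exact_mod_cast hR.ne'
  have hRr : (0 : ℝ) < R := by exact_mod_cast hR
  have hcard : Fintype.card (Free.ChooseBasisIndex ℤ (𝓞 E)) = finrank ℚ E := by
    rw [← finrank_eq_card_basis b]
  have hQ' : (Q ×ˢ (univ : Finset (Free.ChooseBasisIndex ℤ (𝓞 E)))).card =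
      finrank ℚ E * Q.card := by
    rw [card_product, card_univ, hcard, mul_comm]
  have hd : 0 < finrank ℚ E := finrank_pos
  obtain ⟨x, h0, hB', hx⟩ := siegel_fin S (Q ×ˢ univ) (by rw [hQ']; exact Nat.mul_pos hd hQ)
    (by rw [hQ']; exact hQS) (fun c t => b.repr (f c.1 t) c.2) R hR (cE * B) (by nlinarith)
    (fun c hc t ht => by
      obtain ⟨z, hz⟩ := hint c.1 (mem_product.1 hc).1 t ht
      refine ⟨(RingOfIntegers.basis E).repr z c.2, ?_⟩
      have h1 : (R : ℚ) * b.repr (f c.1 t) c.2 = b.repr ((R : E) * f c.1 t) c.2 := by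
        have h2 : (R : E) * f c.1 t = (R : ℚ) • f c.1 t := by
          rw [Rat.smul_def]
          push_cast
          rfl
        rw [h2, map_smul, Finsupp.smul_apply, smul_eq_mul]
      rw [h1, hz]
      exact integralBasis_repr_apply E z c.2)
    (fun c hc t ht => by
      obtain ⟨z, hz⟩ := hint c.1 (mem_product.1 hc).1 t ht
      have h1 : (R : ℚ) * b.repr (f c.1 t) c.2 = b.repr (algebraMap (𝓞 E) E z) c.2 := by
        have h2 : (R : E) * f c.1 t = (R : ℚ) • f c.1 t := by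
          rw [Rat.smul_def]
          push_cast
          rfl
        rw [← hz, h2, map_smul, Finsupp.smul_apply, smul_eq_mul]
      have h3 : ∀ σ : E →+* ℂ, ‖σ (algebraMap (𝓞 E) E z)‖ ≤ R * B := by
        intro σ
        rw [← hz, map_mul, norm_mul, map_natCast, Complex.norm_natCast]
        exact mul_le_mul_of_nonneg_left (hbd c.1 (mem_product.1 hc).1 t ht σ) hRr.le
      have h4 := hb z _ h3 c.2
      rw [← h1, Rat.cast_mul, abs_mul, Rat.cast_natCast, abs_of_pos hRr] at h4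
      have h5 : (R : ℝ) * |((b.repr (f c.1 t) c.2 : ℚ) : ℝ)| ≤ R * (cE * B) := by
        refine h4.trans (le_of_eq ?_)
        ring
      exact le_of_mul_le_mul_left h5 hRr) p hp
  refine ⟨x, h0, hB', fun c hc => ?_⟩
  apply b.ext_elem
  intro i
  rw [map_sum, Finsupp.finsetSum_apply, map_zero, Finsupp.zero_apply]
  rw [← hx (c, i) (mem_product.2 ⟨hc, mem_univ i⟩)]
  refine Finset.sum_congr rfl fun t _ => ?_
  have h2 : (x t : E) * f c t = (x t : ℚ) • f c t := by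
    rw [Rat.smul_def]
    push_cast
    rfl
  rw [h2, map_smul, Finsupp.smul_apply, smul_eq_mul]

end H18G
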