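import Pool.Agent.Lib.CFTC.C10

/-!
# H18G, SP1 (helper2): primes which split in `E` (algebra)

`Spl E p`: `p` is a prime and all residue fields of `𝓞 E` above `p` have `p` elements. `spl_hom`: the reduction maps
`𝓞 E → ZMod p`. `spl_of_galois`: a prime of norm `p` in a Galois extension `L` of `ℚ` into which `E` embeds gives `Spl E p`.
-/

namespace H18G.SP

open NumberField IsDedekindDomain CFT CFTC

/-- `p` is a prime, and all residue fields of `𝓞 E` above `p` have `p` elements. -/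
def Spl (E : Type*) [Field E] (p : ℕ) : Prop :=
  p.Prime ∧ ∀ P : Ideal (𝓞 E), P.IsPrime → (p : 𝓞 E) ∈ P → ∀ y : 𝓞 E, y ^ p - y ∈ P

private theorem cast_bij {R : Type*} [CommRing R] [IsDomain R] {p : ℕ} [Fact p.Prime] [CharP R p]
    (h : ∀ z : R, z ^ p - z = 0) : Function.Bijective (ZMod.castHom (dvd_refl p) R) := by
  classical
  obtain ⟨ι, hι⟩ : ∃ ι, ι = ZMod.castHom (dvd_refl p) R := ⟨_, rfl⟩
  rw [← hι]
  have hinj : Function.Injective ι := ι.injective
  refine ⟨hinj, fun y => ?_⟩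
  by_contra hy
  push Not at hy
  have hpp : p.Prime := Fact.out
  obtain ⟨f, hf⟩ : ∃ f : Polynomial R, f = Polynomial.X ^ p - Polynomial.X := ⟨_, rfl⟩
  have hd : f.natDegree = p := by
    rw [hf, Polynomial.natDegree_sub_eq_left_of_natDegree_lt, Polynomial.natDegree_X_pow]
    rw [Polynomial.natDegree_X_pow, Polynomial.natDegree_X]
    exact hpp.one_lt
  have hX : f ≠ 0 := by
    rintro rfl
    rw [Polynomial.natDegree_zero] at hd
    exact hpp.ne_zero hd.symm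
  have hs : (insert y (Finset.univ.image ι)) ⊆ f.roots.toFinset := by
    intro z _
    rw [Multiset.mem_toFinset, Polynomial.mem_roots hX, Polynomial.IsRoot.def, hf]
    simp [h z]
  have h1 := Finset.card_le_card hs
  have h2 := (Multiset.toFinset_card_le f.roots).trans (Polynomial.card_roots' f)
  rw [hd] at h2
  have h3 : y ∉ Finset.univ.image ι := by
    intro h4
    obtain ⟨a, _, ha⟩ := Finset.mem_image.1 h4
    exact hy a ha
  rw [Finset.card_insert_of_notMem h3, Finset.card_image_of_injective _ hinj, Finset.card_univ, ZMod.card] at h1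
  omega

private theorem exists_red {R S : Type*} [CommRing R] [CommRing S] [IsDomain S] {p : ℕ} (hp : p.Prime) (g : R →+* S)
    (hg : Function.Surjective g) (h0 : (p : S) = 0) (h : ∀ y : R, g (y ^ p - y) = 0) :
    ∃ φ : R →+* ZMod p, ∀ y, φ y = 0 ↔ g y = 0 := by
  have hpf : Fact p.Prime := ⟨hp⟩
  have hchar : CharP S p := (CharP.charP_iff_prime_eq_zero hp).2 h0
  have hb := cast_bij (R := S) (p := p) (by
    intro z
    obtain ⟨y, rfl⟩ := hg z
    rw [← map_pow, ← map_sub]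
    exact h y)
  let e := RingEquiv.ofBijective _ hb
  refine ⟨e.symm.toRingHom.comp g, fun y => ?_⟩
  have h5 : (e.symm.toRingHom.comp g) y = e.symm (g y) := rfl
  rw [h5, map_eq_zero_iff e.symm e.symm.injective]

/-- The reduction map modulo a prime above a split prime. -/
theorem spl_hom {E : Type*} [Field E] {p : ℕ} (h : Spl E p) (P : Ideal (𝓞 E)) (hP : P.IsPrime)
    (hp : (p : 𝓞 E) ∈ P) : ∃ φ : 𝓞 E →+* ZMod p, ∀ y, φ y = 0 ↔ y ∈ P := by
  have hdom : IsDomain (𝓞 E ⧸ P) := (Ideal.Quotient.isDomain_iff_prime P).2 hP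
  obtain ⟨φ, hφ⟩ := exists_red h.1 (Ideal.Quotient.mk P) Ideal.Quotient.mk_surjective
    (by rw [← map_natCast (Ideal.Quotient.mk P)]; exact Ideal.Quotient.eq_zero_iff_mem.2 hp)
    (fun y => Ideal.Quotient.eq_zero_iff_mem.2 (h.2 P hP hp y))
  exact ⟨φ, fun y => (hφ y).trans Ideal.Quotient.eq_zero_iff_mem⟩

/-- The reduction maps exist. -/
theorem spl_exists {E : Type*} [Field E] [NumberField E] {p : ℕ} (h : Spl E p) : Nonempty (𝓞 E →+* ZMod p) := by
  have hnu : ¬ IsUnit (p : 𝓞 E) := by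
    intro hu
    have h1 := (NumberField.isUnit_iff_norm.1 hu)
    have h2 : (RingOfIntegers.norm ℚ ((p : ℕ) : 𝓞 E) : ℚ) = (p : ℚ) ^ Module.finrank ℚ E := by
      rw [RingOfIntegers.coe_norm]
      have h3 : ((((p : ℕ) : 𝓞 E) : E)) = algebraMap ℚ E p := by simp
      rw [h3, Algebra.norm_algebraMap]
    rw [h2, abs_of_nonneg (by positivity)] at h1
    have h4 : 0 < Module.finrank ℚ E := Module.finrank_pos
    have h5 : (1 : ℚ) < (p : ℚ) ^ Module.finrank ℚ E := one_lt_pow₀ (by exact_mod_cast h.1.one_lt) h4.ne'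
    linarith
  obtain ⟨P, hPm, hP⟩ := exists_max_ideal_of_mem_nonunits (a := ((p : ℕ) : 𝓞 E)) hnu
  obtain ⟨φ, -⟩ := spl_hom h P hPm.isPrime hP
  exact ⟨φ⟩

section gal

variable {L : Type} [Field L] [NumberField L]

private theorem rp (v : Pr ℚ) : (Rat.HeightOneSpectrum.natGenerator v).Prime ∧
    v.asIdeal = Ideal.span {((Rat.HeightOneSpectrum.natGenerator v : ℕ) : 𝓞 ℚ)} := by
  have hp := Rat.HeightOneSpectrum.prime_natGenerator v
  refine ⟨hp, ?_⟩
  have h1 := Rat.HeightOneSpectrum.span_natGenerator v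
  ext x
  rw [← Ideal.apply_mem_of_equiv_iff (f := Rat.IsIntegralClosure.intEquiv (𝓞 ℚ)), ← h1, Ideal.mem_span_singleton,
    Ideal.mem_span_singleton]
  constructor
  · rintro ⟨y, hy⟩
    refine ⟨(Rat.IsIntegralClosure.intEquiv (𝓞 ℚ)).symm y, ?_⟩
    apply (Rat.IsIntegralClosure.intEquiv (𝓞 ℚ)).injective
    rw [hy, map_mul, map_natCast, RingEquiv.apply_symm_apply]
  · rintro ⟨y, hy⟩
    refine ⟨Rat.IsIntegralClosure.intEquiv (𝓞 ℚ) y, ?_⟩
    rw [hy, map_mul, map_natCast]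

private theorem rN (v : Pr ℚ) : Nm v = Rat.HeightOneSpectrum.natGenerator v := by
  unfold Nm
  rw [(rp v).2, Ideal.absNorm_span_natCast, RingOfIntegers.rank, Module.finrank_self, pow_one]

theorem rat_Nm_prime (v : Pr ℚ) : (Nm v).Prime := by
  rw [rN]
  exact (rp v).1

theorem rat_inj {v v' : Pr ℚ} (h : Nm v = Nm v') : v = v' := by
  rw [rN, rN] at h
  apply HeightOneSpectrum.ext
  rw [(rp v).2, (rp v').2, h]

theorem mem_below (W : Pr L) : ((Nm (below ℚ W) : ℕ) : 𝓞 L) ∈ W.asIdeal := by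
  have h1 : ((Nm (below ℚ W) : ℕ) : 𝓞 ℚ) ∈ (below ℚ W).asIdeal := by
    have h2 : (below ℚ W).asIdeal = Ideal.span {((Nm (below ℚ W) : ℕ) : 𝓞 ℚ)} := by
      rw [rN]
      exact (rp _).2
    exact h2.symm ▸ Ideal.mem_span_singleton_self _
  have h2 : algebraMap (𝓞 ℚ) (𝓞 L) ((Nm (below ℚ W) : ℕ) : 𝓞 ℚ) ∈ W.asIdeal := h1
  rwa [map_natCast] at h2

theorem Nm_below {p : ℕ} (hp : p.Prime) {W : Pr L} (h : (p : 𝓞 L) ∈ W.asIdeal) : Nm (below ℚ W) = p := by
  have h1 := mem_below W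
  have h2 := rat_Nm_prime (below ℚ W)
  by_contra hne
  have hcop : IsCoprime (p : ℤ) ((Nm (below ℚ W) : ℕ) : ℤ) := by
    rw [Nat.isCoprime_iff_coprime]
    exact (Nat.coprime_primes hp h2).2 (fun h => hne h.symm)
  obtain ⟨u, w, huw⟩ := hcop
  apply W.isPrime.ne_top
  rw [Ideal.eq_top_iff_one]
  have h3 : (1 : 𝓞 L) = (u : 𝓞 L) * p + w * (Nm (below ℚ W) : ℕ) := by
    have := congrArg (fun t : ℤ => (t : 𝓞 L)) huw
    push_cast at this
    exact this.symm
  rw [h3]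
  exact W.asIdeal.add_mem (W.asIdeal.mul_mem_left _ h) (W.asIdeal.mul_mem_left _ h1)

/-- In a prime of norm `p` all `y ^ p - y` lie. -/
theorem pow_sub_mem {p : ℕ} (hp : p.Prime) (W : Pr L) (hW : Nm W = p) (y : 𝓞 L) : y ^ p - y ∈ W.asIdeal := by
  have hWm : W.asIdeal.IsMaximal := W.isMaximal
  letI : Field (𝓞 L ⧸ W.asIdeal) := Ideal.Quotient.field W.asIdeal
  have hfin : Finite (𝓞 L ⧸ W.asIdeal) := Ideal.finiteQuotientOfFreeOfNeBot _ W.ne_bot
  letI : Fintype (𝓞 L ⧸ W.asIdeal) := Fintype.ofFinite _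
  have h1 : Fintype.card (𝓞 L ⧸ W.asIdeal) = p := by
    rw [← hW]
    unfold Nm
    rw [Ideal.absNorm_apply, Submodule.cardQuot_apply, Nat.card_eq_fintype_card]
  have h2 := FiniteField.pow_card (Ideal.Quotient.mk W.asIdeal y)
  rw [h1, ← map_pow, Ideal.Quotient.mk_eq_mk_iff_sub_mem] at h2
  exact h2

/-- `p` lies in a prime of norm `p`. -/
theorem mem_of_Nm {p : ℕ} (W : Pr L) (hW : Nm W = p) : (p : 𝓞 L) ∈ W.asIdeal := by
  rw [← hW]
  exact Ideal.absNorm_mem _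

/-- A prime of norm `p` in a Galois extension containing `E`. -/
theorem spl_of_galois {E : Type*} [Field E] [NumberField E] [IsGalois ℚ L] (j : E →+* L) {p : ℕ} (hp : p.Prime)
    (W : Pr L) (hW : Nm W = p) : Spl E p := by
  refine ⟨hp, fun P hP hpP y => ?_⟩
  letI := j.toAlgebra
  have hint : Algebra.IsIntegral (𝓞 E) (𝓞 L) := inferInstance
  obtain ⟨Q, hQ1, hQ2, hQ3⟩ : ∃ Q : Ideal (𝓞 L), Q.IsPrime ∧ Q.comap (algebraMap (𝓞 E) (𝓞 L)) = P ∧ (p : 𝓞 L) ∈ Q := by
    obtain ⟨Q, -, hQ1, hQ2⟩ := Ideal.exists_ideal_over_prime_of_isIntegral P (⊥ : Ideal (𝓞 L)) (by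
      intro x hx
      have h1 : x = 0 := by
        rw [Ideal.mem_comap, Ideal.mem_bot] at hx
        exact (map_eq_zero_iff _ (FaithfulSMul.algebraMap_injective (𝓞 E) (𝓞 L))).1 hx
      rw [h1]
      exact P.zero_mem)
    refine ⟨Q, hQ1, hQ2, ?_⟩
    rw [← hQ2, Ideal.mem_comap, map_natCast] at hpP
    exact hpP
  have hQ0 : Q ≠ ⊥ := by
    intro h
    rw [h, Ideal.mem_bot] at hQ3
    have : p = 0 := by exact_mod_cast hQ3
    exact hp.ne_zero this
  have hb : below ℚ W = below ℚ (⟨Q, hQ1, hQ0⟩ : Pr L) := by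
    apply rat_inj
    rw [Nm_below hp (mem_of_Nm W hW), Nm_below (W := (⟨Q, hQ1, hQ0⟩ : Pr L)) hp hQ3]
  obtain ⟨g, hg⟩ := b17_trans (K := ℚ) W ⟨Q, hQ1, hQ0⟩ hb
  have h1 : algebraMap (𝓞 E) (𝓞 L) (y ^ p - y) ∈ Q := by
    refine (hg _).2 ?_
    rw [map_sub, map_pow, smul_sub, smul_pow']
    exact pow_sub_mem hp W hW _
  rw [← hQ2]
  exact h1

end gal

end H18G.SP
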