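import Mathlib

/-!
# H18G, T1: primes which split completely, reduction maps (pure Mathlib)
-/

set_option autoImplicit false

namespace H18G

open NumberField

/-- All prime ideals of `E` above the prime `p` have the residue field with `p` elements. -/
def Spl (E : Type) [Field E] [NumberField E] (p : ℕ) : Prop :=
  p.Prime ∧ ∀ P : Ideal (𝓞 E), P.IsPrime → (p : 𝓞 E) ∈ P → ∀ y : 𝓞 E, y ^ p - y ∈ P

/-- A prime ideal of `ℤ`-type: the contraction of a prime ideal containing `p`. -/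
theorem t1_under {A : Type*} [CommRing A] (P : Ideal A) (hP : P.IsPrime) (p : ℕ)
    (hp : p.Prime) (h : (p : A) ∈ P) : P.under ℤ = Ideal.span {(p : ℤ)} := by
  have hle : Ideal.span {(p : ℤ)} ≤ P.under ℤ := by
    rw [Ideal.span_singleton_le_iff_mem]
    show algebraMap ℤ A (p : ℤ) ∈ P
    simpa using h
  have hmax : (Ideal.span {(p : ℤ)}).IsMaximal :=
    PrincipalIdealRing.isMaximal_of_irreducible (Nat.prime_iff_prime_int.1 hp).irreducible
  have hne : P.under ℤ ≠ ⊤ := by
    intro htop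
    have h1 : (1 : ℤ) ∈ P.under ℤ := by
      rw [htop]
      trivial
    have h2 : algebraMap ℤ A 1 ∈ P := h1
    rw [map_one] at h2
    exact hP.ne_top ((Ideal.eq_top_iff_one P).2 h2)
  exact (hmax.eq_of_le hne hle).symm

/-- In a Galois extension: if one prime above `p` has the residue field `F_p`, all have. -/
theorem t1_gal (L : Type) [Field L] [NumberField L] [IsGalois ℚ L] (p : ℕ) (hp : p.Prime)
    (W : Ideal (𝓞 L)) (hW : W.IsPrime) (hpW : (p : 𝓞 L) ∈ W) (h : ∀ y : 𝓞 L, y ^ p - y ∈ W)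
    (Q : Ideal (𝓞 L)) (hQ : Q.IsPrime) (hpQ : (p : 𝓞 L) ∈ Q) : ∀ y : 𝓞 L, y ^ p - y ∈ Q := by
  have h1 : W.under ℤ = Q.under ℤ := by rw [t1_under W hW p hp hpW, t1_under Q hQ p hp hpQ]
  obtain ⟨g, hg⟩ := Algebra.IsInvariant.exists_smul_of_under_eq ℤ (𝓞 L) (L ≃ₐ[ℚ] L) W Q h1
  intro y
  rw [hg, Ideal.pointwise_smul_eq_comap, Ideal.mem_comap]
  have h2 := h (g⁻¹ • y)
  have e : g⁻¹ • (y ^ p - y) = (g⁻¹ • y) ^ p - g⁻¹ • y := by
    rw [smul_sub, smul_pow']
  have h3 : g⁻¹ • (y ^ p - y) ∈ W := by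
    rw [e]
    exact h2
  exact h3

/-- Contraction to a subfield. -/
theorem t1_down (E L : Type) [Field E] [NumberField E] [Field L] [NumberField L] [Algebra E L]
    (p : ℕ) (h : ∀ Q : Ideal (𝓞 L), Q.IsPrime → (p : 𝓞 L) ∈ Q → ∀ y : 𝓞 L, y ^ p - y ∈ Q)
    (P : Ideal (𝓞 E)) (hP : P.IsPrime) (hpP : (p : 𝓞 E) ∈ P) : ∀ y : 𝓞 E, y ^ p - y ∈ P := by
  obtain ⟨Q, hQ, hQP⟩ := Ideal.exists_ideal_over_prime_of_isIntegral_of_isDomain (S := 𝓞 L) P (by
    intro x hx
    rw [RingHom.mem_ker] at hx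
    have h1 : x = 0 := (FaithfulSMul.algebraMap_injective (𝓞 E) (𝓞 L)) (by rw [hx, map_zero])
    rw [h1]
    exact P.zero_mem)
  intro y
  rw [← hQP, Ideal.mem_comap, map_sub, map_pow]
  refine h Q hQ ?_ _
  have h2 : (p : 𝓞 E) ∈ Q.comap (algebraMap (𝓞 E) (𝓞 L)) := by
    rw [hQP]
    exact hpP
  rw [Ideal.mem_comap, map_natCast] at h2
  exact h2

/-- The reduction map at a prime ideal whose residue field has `p` elements. -/
theorem t1_hom {A : Type*} [CommRing A] (p : ℕ) [Fact p.Prime] (P : Ideal A) (hP : P.IsPrime)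
    (hpP : (p : A) ∈ P) (h : ∀ y : A, y ^ p - y ∈ P) :
    ∃ φ : A →+* ZMod p, ∀ x, φ x = 0 ↔ x ∈ P := by
  classical
  have hp : p.Prime := Fact.out
  have hdom : IsDomain (A ⧸ P) := Ideal.Quotient.isDomain P
  have hc0 : ((p : ℕ) : A ⧸ P) = 0 := by
    have h1 : Ideal.Quotient.mk P (p : A) = 0 := Ideal.Quotient.eq_zero_iff_mem.2 hpP
    rwa [map_natCast] at h1
  have hchar : CharP (A ⧸ P) p := (CharP.charP_iff_prime_eq_zero hp).2 hc0
  let f : ZMod p →+* A ⧸ P := ZMod.castHom dvd_rfl (A ⧸ P)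
  have hfi : Function.Injective f := f.injective
  have hpow : ∀ a : A ⧸ P, a ^ p = a := by
    intro a
    obtain ⟨y, rfl⟩ := Ideal.Quotient.mk_surjective a
    rw [← map_pow, ← sub_eq_zero, ← map_sub]
    exact Ideal.Quotient.eq_zero_iff_mem.2 (h y)
  have hsurj : Function.Surjective f := by
    intro a
    by_contra hno
    push Not at hno
    set F : Polynomial (A ⧸ P) := Polynomial.X ^ p - Polynomial.X with hF
    have hF0 : F ≠ 0 := by
      intro h0
      have h1 := congrArg (fun G : Polynomial (A ⧸ P) => G.coeff p) h0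
      simp only [hF, Polynomial.coeff_sub, Polynomial.coeff_X_pow, if_true,
        Polynomial.coeff_zero] at h1
      rw [Polynomial.coeff_X_of_ne_one hp.one_lt.ne', sub_zero] at h1
      exact one_ne_zero h1
    have hdeg : F.natDegree ≤ p := by
      refine (Polynomial.natDegree_sub_le _ _).trans (max_le ?_ ?_)
      · exact Polynomial.natDegree_X_pow_le p
      · exact Polynomial.natDegree_X_le.trans hp.one_lt.le
    have hroot : ∀ b : A ⧸ P, b ∈ F.roots := by
      intro b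
      rw [Polynomial.mem_roots hF0, Polynomial.IsRoot.def, hF, Polynomial.eval_sub,
        Polynomial.eval_pow, Polynomial.eval_X, hpow b, sub_self]
    have hsub : insert a (Finset.univ.image f) ⊆ F.roots.toFinset := by
      intro b _
      exact Multiset.mem_toFinset.2 (hroot b)
    have h2 := Finset.card_le_card hsub
    rw [Finset.card_insert_of_notMem (by
      intro hmem
      obtain ⟨b, _, hb⟩ := Finset.mem_image.1 hmem
      exact hno b hb), Finset.card_image_of_injective _ hfi, Finset.card_univ, ZMod.card] at h2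
    have h3 := (Multiset.toFinset_card_le F.roots).trans (Polynomial.card_roots' F)
    omega
  let e : ZMod p ≃+* A ⧸ P := RingEquiv.ofBijective f ⟨hfi, hsurj⟩
  refine ⟨(e.symm : A ⧸ P →+* ZMod p).comp (Ideal.Quotient.mk P), fun x => ?_⟩
  rw [RingHom.comp_apply, RingHom.coe_coe, EmbeddingLike.map_eq_zero_iff,
    Ideal.Quotient.eq_zero_iff_mem]

/-- For a prime `p` which splits completely and `β` not divisible by `p` (`p` unramified) there is
a reduction map which does not kill `β`. -/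
theorem Spl.hom {E : Type} [Field E] [NumberField E] {p : ℕ} [Fact p.Prime] (h : Spl E p)
    (P : Ideal (𝓞 E)) (hP : P.IsPrime) (hpP : (p : 𝓞 E) ∈ P) :
    ∃ φ : 𝓞 E →+* ZMod p, ∀ x, φ x = 0 ↔ x ∈ P :=
  t1_hom p P hP hpP (h.2 P hP hpP)

/-- There is a reduction map. -/
theorem Spl.exists_hom {E : Type} [Field E] [NumberField E] {p : ℕ} [Fact p.Prime]
    (h : Spl E p) : Nonempty (𝓞 E →+* ZMod p) := by
  have hp : p.Prime := Fact.out
  have hpZ : Prime (p : ℤ) := Nat.prime_iff_prime_int.1 hp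
  have hprime : (Ideal.span {(p : ℤ)}).IsPrime := (Ideal.span_singleton_prime hpZ.ne_zero).2 hpZ
  obtain ⟨Q, hQ, hQP⟩ := Ideal.exists_ideal_over_prime_of_isIntegral_of_isDomain (S := 𝓞 E)
    (Ideal.span {(p : ℤ)}) (by
      intro x hx
      rw [RingHom.mem_ker] at hx
      have h1 : x = 0 := (FaithfulSMul.algebraMap_injective ℤ (𝓞 E)) (by rw [hx, map_zero])
      rw [h1]
      exact Ideal.zero_mem _)
  have h2 : (p : ℤ) ∈ Q.comap (algebraMap ℤ (𝓞 E)) := by
    rw [hQP]
    exact Ideal.mem_span_singleton_self _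
  rw [Ideal.mem_comap] at h2
  obtain ⟨φ, _⟩ := h.hom Q hQ (by simpa using h2)
  exact ⟨φ⟩

end H18G
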