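import Pool.Agent.Lib.H6V.T1
import Pool.Agent.Lib.H6D.T2

/-!
# H18G, T3: the trace forms `Tr (w a(n))` and their reductions

`tw a w n = Tr (w a(n))` is the `n`-th coefficient of a cusp form on `Γ₁(N)` (the sum of `σ(w) f^σ`
over the embeddings), so `Σ Tr (w a(n/d)) n^(p-2) qⁿ` is a modular form modulo `p`.
-/

namespace H18G

open H53M H94M H53N H36H H6V H6D UpperHalfPlane NumberField PowerSeries

/-- `Tr (w a(n))`. -/
noncomputable def tw {E : Type*} [Field E] [NumberField E] (a : ℕ → 𝓞 E) (w : 𝓞 E) (n : ℕ) : ℤ :=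
  Algebra.trace ℤ (𝓞 E) (w * a n)

private theorem T3_trace {E : Type*} [Field E] [NumberField E] (x : 𝓞 E) :
    ((Algebra.trace ℤ (𝓞 E) x : ℤ) : ℂ) = ∑ σ : E →ₐ[ℚ] ℂ, σ (x : E) := by
  have h1 := trace_eq_sum_embeddings (K := ℚ) (L := E) ℂ (x := (x : E))
  rw [← h1, ← Algebra.coe_trace_int]
  simp

private theorem T3_sum (N k : ℕ) [NeZero N] {ι : Type*} (s : Finset ι)
    (f : ι → CuspForm (Gm1 N) (k : ℤ)) (n : ℕ) :
    PowerSeries.coeff n (qExpansion 1 ((∑ i ∈ s, f i : CuspForm (Gm1 N) (k : ℤ)) : ℍ → ℂ)) =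
      ∑ i ∈ s, PowerSeries.coeff n (qExpansion 1 (f i : ℍ → ℂ)) := by
  classical
  induction s using Finset.induction_on with
  | empty =>
    rw [Finset.sum_empty, Finset.sum_empty]
    have : ((0 : CuspForm (Gm1 N) (k : ℤ)) : ℍ → ℂ) = 0 := rfl
    rw [this, qExpansion_zero]
    simp
  | insert i s hi ih =>
    rw [Finset.sum_insert hi, Finset.sum_insert hi, ← ih, FunLike.coe_add,
      ModularForm.qExpansion_add zero_lt_one (one_mem_strictPeriodsG1 N) (f i) (∑ j ∈ s, f j),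
      map_add]

variable {E : Type*} [Field E] [NumberField E]

theorem tw_frm (N k : ℕ) (hN : N ≠ 0) (hk : 4 ≤ k) (a : ℕ → 𝓞 E)
    (hf : ∀ σ : E →+* ℂ, ∃ f : CuspForm (Gm1 N) (k : ℤ),
      ∀ n, (qExpansion 1 (f : ℍ → ℂ)).coeff n = σ (a n))
    (w : 𝓞 E) (h1 : tw a w 1 ≠ 0) : Frm N k (tw a w) := by
  have : NeZero N := ⟨hN⟩
  choose f hf using hf
  have hb : ∀ n, PowerSeries.coeff n (qExpansion 1
      ((∑ σ : E →ₐ[ℚ] ℂ, (σ (w : E)) • f (σ : E →+* ℂ) : CuspForm (Gm1 N) (k : ℤ)) : ℍ → ℂ)) =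
      ((tw a w n : ℤ) : ℂ) := by
    intro n
    rw [T3_sum]
    unfold tw
    rw [T3_trace]
    refine Finset.sum_congr rfl fun σ _ => ?_
    have h2 : (((σ (w : E)) • f (σ : E →+* ℂ) : CuspForm (Gm1 N) (k : ℤ)) : ℍ → ℂ) =
        (σ (w : E)) • (f (σ : E →+* ℂ) : ℍ → ℂ) := rfl
    rw [h2, ModularForm.qExpansion_smul zero_lt_one (one_mem_strictPeriodsG1 N), coeff_smul,
      hf (σ : E →+* ℂ) n, smul_eq_mul]
    have h3 : ((w * a n : 𝓞 E) : E) = (w : E) * (a n : E) := rfl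
    rw [h3, map_mul]
    rfl
  exact frm_of_cusp N k hN hk _ _ hb h1

/-- The mod `p` form attached to an integral sequence. -/
noncomputable def gps (p d : ℕ) (b : ℕ → ℤ) : PowerSeries (ZMod p) :=
  PowerSeries.mk fun n => (ad b d n : ZMod p) * (n : ZMod p) ^ (p - 2)

theorem gps_mem_of_frm {N k : ℕ} (hk : 4 ≤ k) {b : ℕ → ℤ} (hF : Frm N k b) (d M : ℕ) [NeZero M]
    (hd : 1 ≤ d) (hM : N * d ∣ M) (p : ℕ) [Fact p.Prime] (hp : 5 < p) :
    gps p d b ∈ MN1 M p (p * (k - 2) + (p - 1)) := by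
  have h1 := gp_mem hk hF d M hd hM p hp
  have h2 : gps p d b = redZ p ((karr (ad b d) (ad_growth b d hF.growth)).gp p) := by
    ext n
    rw [gp_coeff _ _ p (by omega) n]
    unfold gps
    rw [coeff_mk]
  rw [h2]
  exact h1

theorem tw_add (a : ℕ → 𝓞 E) (v w : 𝓞 E) (n : ℕ) : tw a (v + w) n = tw a v n + tw a w n := by
  unfold tw
  rw [add_mul, map_add]

theorem tw_one (a : ℕ → 𝓞 E) (h1 : a 1 = 1) : tw a 1 1 ≠ 0 := by
  unfold tw
  rw [h1, one_mul]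
  intro h0
  have h2 := T3_trace (E := E) 1
  rw [h0] at h2
  have h3 : (∑ σ : E →ₐ[ℚ] ℂ, σ ((1 : 𝓞 E) : E)) = (Fintype.card (E →ₐ[ℚ] ℂ) : ℂ) := by
    simp
  rw [h3, AlgHom.card] at h2
  have h4 : 0 < Module.finrank ℚ E := Module.finrank_pos
  have h5 : (0 : ℂ) = (Module.finrank ℚ E : ℂ) := by simpa using h2
  rw [eq_comm, Nat.cast_eq_zero] at h5
  omega

/-- The reduction of `θ^(p-2)` of every trace form is a modular form modulo `p`. -/
theorem gps_mem (N k : ℕ) (hN : N ≠ 0) (hk : 4 ≤ k) (a : ℕ → 𝓞 E)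
    (hf : ∀ σ : E →+* ℂ, ∃ f : CuspForm (Gm1 N) (k : ℤ),
      ∀ n, (qExpansion 1 (f : ℍ → ℂ)).coeff n = σ (a n))
    (h1 : a 1 = 1) (w : 𝓞 E) (d M : ℕ) [NeZero M] (hd : 1 ≤ d) (hM : N * d ∣ M) (p : ℕ)
    [Fact p.Prime] (hp : 5 < p) : gps p d (tw a w) ∈ MN1 M p (p * (k - 2) + (p - 1)) := by
  by_cases h : tw a w 1 = 0
  · have h2 : tw a (w + 1) 1 ≠ 0 := by
      rw [tw_add, h, zero_add]
      exact tw_one a h1
    have h3 := gps_mem_of_frm hk (tw_frm N k hN hk a hf (w + 1) h2) d M hd hM p hp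
    have h4 := gps_mem_of_frm hk (tw_frm N k hN hk a hf 1 (tw_one a h1)) d M hd hM p hp
    have h5 : gps p d (tw a w) = gps p d (tw a (w + 1)) - gps p d (tw a 1) := by
      ext n
      unfold gps
      rw [map_sub, coeff_mk, coeff_mk, coeff_mk, ← sub_mul]
      congr 1
      unfold ad
      split_ifs with hdn
      · rw [tw_add]
        push_cast
        ring
      · simp
    rw [h5]
    exact Submodule.sub_mem _ h3 h4
  · exact gps_mem_of_frm hk (tw_frm N k hN hk a hf w h) d M hd hM p hp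

end H18G
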