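import Pool.Agent.Lib.H65Z.Defs
import Pool.Agent.Lib.H18G.M1
import Pool.Agent.Lib.H18G.T7

/-!
# H18G, ZE2: the zero estimate over `E` from the zero estimate over `ℂ`

`cf_of_cusp`: the coefficients of a cusp form satisfy `H65Z.CF`. `map_HE`: the image of `HE a d`
under an embedding. `zee_of`: the interface of the master theorem from the zero estimate (`hze`) and
the independence (`hai`) over `ℂ`.
-/

namespace H18G

open H53M H94M H53N H6V UpperHalfPlane NumberField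
open scoped MatrixGroups ModularForm

private theorem ze2_ev (N k : ℕ) (hN : N ≠ 0) (f : CuspForm (Gm1 N) (k : ℤ)) (a : ℕ → ℂ)
    (ha : ∀ n, PowerSeries.coeff n (qExpansion 1 (f : ℍ → ℂ)) = a n) (τ : ℍ) :
    ev (PowerSeries.mk a) (τ : ℂ) = f τ := by
  have : NeZero N := ⟨hN⟩
  have h1 := ModularForm.hasSum_qExpansion (f := f) one_pos (k := (k : ℤ))
    (one_mem_strictPeriodsG1 N) τ
  refine HasSum.tsum_eq (h1.congr_fun fun n => ?_)
  rw [ha, PowerSeries.coeff_mk, Function.Periodic.qParam, ← Complex.exp_nat_mul]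
  congr 2
  push_cast
  ring

/-- The coefficients of a cusp form. -/
theorem cf_of_cusp (N k : ℕ) (hN : N ≠ 0) (hk : 4 ≤ k) (f : CuspForm (Gm1 N) (k : ℤ)) (a : ℕ → ℂ)
    (ha : ∀ n, PowerSeries.coeff n (qExpansion 1 (f : ℍ → ℂ)) = a n) : H65Z.CF N (k - 2) a := by
  have : NeZero N := ⟨hN⟩
  refine ⟨?_, ?_, ?_⟩
  · rw [← ha 0]
    exact CuspFormClass.qExpansion_coeff_zero f one_pos (one_mem_strictPeriodsG1 N)
  · obtain ⟨C, -, hC⟩ := t7_cusp N k hN hk f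
    exact ⟨C, k - 1, fun n => by rw [← ha n]; exact hC n⟩
  · intro A B C D hdet hC hD z hz
    have hk2 : k - 2 + 2 = k := by omega
    rw [hk2]
    have hDm : (D : ZMod N) = 1 := by
      have := (ZMod.intCast_zmod_eq_zero_iff_dvd (D - 1) N).2 hD
      rw [Int.cast_sub, Int.cast_one] at this
      exact sub_eq_zero.1 this
    have hCm : (C : ZMod N) = 0 := (ZMod.intCast_zmod_eq_zero_iff_dvd C N).2 hC
    have hAm : (A : ZMod N) = 1 := by
      have := congrArg (Int.cast : ℤ → ZMod N) hdet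
      rw [Int.cast_sub, Int.cast_mul, Int.cast_mul, hDm, hCm, Int.cast_one] at this
      simpa using this
    have hmem : gam hdet ∈ CongruenceSubgroup.Gamma1 N := by
      rw [CongruenceSubgroup.Gamma1_mem]
      exact ⟨hAm, hDm, hCm⟩
    have h2 : (f : ℍ → ℂ) ∣[(k : ℤ)] (gam hdet) = (f : ℍ → ℂ) :=
      SlashInvariantForm.slash_action_eqn f _ ⟨gam hdet, hmem, rfl⟩
    have h3 := congrFun h2 ⟨z, hz⟩
    rw [ModularForm.SL_slash_apply, gam_denom] at h3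
    have h4 := ze2_ev N k hN f a ha (gam hdet • (⟨z, hz⟩ : ℍ))
    have h5 := ze2_ev N k hN f a ha ⟨z, hz⟩
    rw [gam_smul] at h4
    change ev (PowerSeries.mk a) ((A * z + B) / (C * z + D)) = _ at h4
    change ev (PowerSeries.mk a) z = _ at h5
    have hd := den_ne hdet hz
    rw [h4, h5, ← h3]
    change f (gam hdet • (⟨z, hz⟩ : ℍ)) = ((C : ℂ) * z + D) ^ k *
      (f (gam hdet • (⟨z, hz⟩ : ℍ)) * ((C : ℂ) * z + D) ^ (-(k : ℤ)))
    rw [zpow_neg, zpow_natCast]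
    have h7 : ((C : ℂ) * z + D) ^ k ≠ 0 := pow_ne_zero _ hd
    field_simp

variable {E : Type*} [Field E] [NumberField E]

theorem map_HE (a : ℕ → 𝓞 E) (d : ℕ) (τ : E →+* ℂ) :
    PowerSeries.map τ (HE a d) = H65Z.hs (fun n => τ (a n)) d := by
  ext n
  unfold HE H65Z.hs
  rw [PowerSeries.coeff_map, PowerSeries.coeff_mk, PowerSeries.coeff_mk]
  split_ifs with h
  · rw [map_div₀, map_natCast]
  · rw [map_zero]

theorem map_Ah {r : ℕ} (a : ℕ → 𝓞 E) (d : Fin r → ℕ) (τ : E →+* ℂ) (J W : ℕ)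
    (x : (Fin r → ℕ) × ℕ → ℤ) :
    PowerSeries.map τ (AhR (fun s => HE a (d s)) J W x) =
      H65Z.AA (fun n => τ (a n)) d J W (fun t => (x t : ℂ)) := by
  rw [map_AhR]
  unfold AhR H65Z.AA
  simp only [map_HE]
  rfl

/-- The zero estimate over `E`. -/
theorem zee_of (a : ℕ → 𝓞 E) (r : ℕ) (d : Fin r → ℕ) (τ : E →+* ℂ)
    (hze : ∃ C : ℕ, ∀ J W : ℕ, 1 ≤ J → ∀ c : (Fin r → ℕ) × ℕ → ℂ,
      H65Z.AA (fun n => τ (a n)) d J W c ≠ 0 →
      ∃ n ≤ C * J ^ (r + 2) * (W + J ^ (r + 2)),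
        PowerSeries.coeff n (H65Z.AA (fun n => τ (a n)) d J W c) ≠ 0)
    (hai : ∀ (J W : ℕ) (c : (Fin r → ℕ) × ℕ → ℂ), (∃ t ∈ H36D.Ix r J W, c t ≠ 0) →
      H65Z.AA (fun n => τ (a n)) d J W c ≠ 0) :
    ∃ C : ℕ, ∀ J : ℕ, 1 ≤ J → ∀ (W : ℕ) (x : (Fin r → ℕ) × ℕ → ℤ),
      (∃ t ∈ H36D.Ix r J W, x t ≠ 0) →
      ∃ n ≤ C * J ^ (r + 2) * (W + J ^ (r + 2)),
        PowerSeries.coeff n (AhR (fun s => HE a (d s)) J W x) ≠ 0 := by
  obtain ⟨C, hC⟩ := hze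
  refine ⟨C, fun J hJ W x hx => ?_⟩
  obtain ⟨t, ht, hxt⟩ := hx
  obtain ⟨n, hn, hne⟩ := hC J W hJ (fun t => (x t : ℂ))
    (hai J W _ ⟨t, ht, by exact_mod_cast hxt⟩)
  refine ⟨n, hn, fun h0 => hne ?_⟩
  rw [← map_Ah, PowerSeries.coeff_map, h0, map_zero]

end H18G
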